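import Pool.Agent.MP_ecf4b9_an.Weak2

-- ======== part 0: formerly Pool.Agent.MP_ecf4b9_an.Hole
section MrgPart0

/-!
Flows whose vorticity vanishes near a point: the linearised flow and the response to a small blob.
-/

open MeasureTheory Set Complex Filter Topology
open scoped ComplexConjugate

namespace Pool.Agent.MP_ecf4b9_an

/-- the background flow -/
structure Bg (m δ δ₁ T : ℝ) (ω : ℂ → ℝ) (X : ℝ → ℂ → ℂ) (a : ℂ) : Prop where
  hω : Dat 1 m ω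
  hX : IsFlow ω X
  hole : ∀ b, ‖b - a‖ < δ → ω b = 0
  δ_pos : 0 < δ
  δ_le : δ ≤ 1
  δ₁_pos : 0 < δ₁
  T_pos : 0 < T
  T_le : T ≤ 1
  TK : 2 * KK (m + 4) * T ≤ 1 / 8
  sep : ∀ {ω' : ℂ → ℝ} {X' : ℝ → ℂ → ℂ}, Dat 1 (m + 4) ω' → IsFlow ω' X' → ∀ p q,
    δ / 2 ≤ ‖p - q‖ → ∀ t, |t| ≤ 1 → δ₁ ≤ ‖X' t p - X' t q‖

variable {m δ δ₁ T : ℝ} {ω : ℂ → ℝ} {X : ℝ → ℂ → ℂ} {a : ℂ}

lemma Bg.hω' (h : Bg m δ δ₁ T ω X a) : Dat 1 (m + 4) ω := h.hω.mono (by linarith)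

lemma Bg.far' (h : Bg m δ δ₁ T ω X a) {ω' : ℂ → ℝ} {X' : ℝ → ℂ → ℂ} (hω' : Dat 1 (m + 4) ω')
    (hX' : IsFlow ω' X') {p : ℂ} (hp : ‖p - a‖ ≤ δ / 2) {t : ℝ} (ht : t ∈ Icc 0 T) (b : ℂ)
    (hb : δ ≤ ‖b - a‖) : δ₁ ≤ ‖X' t p - X' t b‖ := by
  refine h.sep hω' hX' p b ?_ t (by rw [abs_of_nonneg ht.1]; exact ht.2.trans h.T_le)
  have := norm_sub_le_norm_sub_add_norm_sub b p a
  rw [norm_sub_rev b p] at this
  linarith

lemma Bg.supp (h : Bg m δ δ₁ T ω X a) {b : ℂ} (hb : ω b ≠ 0) : δ ≤ ‖b - a‖ :=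
  not_lt.1 fun h1 => hb (h.hole b h1)

lemma Bg.far (h : Bg m δ δ₁ T ω X a) {ω' : ℂ → ℝ} {X' : ℝ → ℂ → ℂ} (hω' : Dat 1 (m + 4) ω')
    (hX' : IsFlow ω' X') {p : ℂ} (hp : ‖p - a‖ ≤ δ / 2) {t : ℝ} (ht : t ∈ Icc 0 T) (b : ℂ)
    (hb : ω b ≠ 0) : δ₁ ≤ ‖X' t p - X' t b‖ := h.far' hω' hX' hp ht b (h.supp hb)

lemma Bg.self (h : Bg m δ δ₁ T ω X a) : ‖a - a‖ ≤ δ / 2 := by
  have := h.δ_pos
  rw [sub_self, norm_zero]; positivity

lemma Bg.norm_st (h : Bg m δ δ₁ T ω X a) {t : ℝ} (ht : t ∈ Icc 0 T) :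
    ‖st ω (X t) (X t a)‖ ≤ m * δ₁⁻¹ ^ 2 :=
  norm_st_le h.hω h.δ₁_pos (h.far h.hω' h.hX h.self ht)

lemma Bg.cont_st (h : Bg m δ δ₁ T ω X a) : ContinuousOn (fun t => st ω (X t) (X t a)) (Icc 0 T) := by
  unfold st
  refine continuousOn_const.mul (continuous_conj.comp_continuousOn ?_)
  refine continuousOn_of_dominated (bound := fun b => |ω b| * δ₁⁻¹ ^ 2)
    (fun t ht => (J_int h.hω (h.hX.incomp t).meas h.δ₁_pos
      (h.far h.hω' h.hX h.self ht)).aestronglyMeasurable)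
    (fun t ht => Eventually.of_forall fun b => J_pointwise h.δ₁_pos (h.far h.hω' h.hX h.self ht b))
    (h.hω.int.abs.mul_const _) (Eventually.of_forall fun b => ?_)
  by_cases hb : ω b = 0
  · simp only [hb, ofReal_zero, zero_mul]; exact continuousOn_const
  · refine continuousOn_const.mul (ContinuousOn.pow (ContinuousOn.inv₀
      ((h.hX.cont_t a).sub (h.hX.cont_t b)).continuousOn fun t ht => ?_) 2)
    exact norm_pos_iff.1 (h.δ₁_pos.trans_le (h.far h.hω' h.hX h.self ht b hb))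

lemma hol'_of_approx {r B c T A A' : ℝ} (hc : 0 < c) (hcr : 2 * c ≤ r) (hcT : c ≤ T)
    {f : ℕ → ℝ → ℂ} {F : ℝ → ℂ} (hf : ∀ j, Hol r (B * 64 ^ j) (f j))
    (hF : ∀ j, ∀ t ∈ Icc 0 T, ‖f j t - F t‖ ≤ A * A' * (1 / 2) ^ j) : Hol' (c / 1000) F := by
  refine extend (A := max 1 (max B (A * A'))) hc hcr (lt_max_of_lt_left one_pos)
    (fun j => (hf j).mono ?_) fun j t ht => (hF j t ⟨ht.1, ht.2.trans hcT⟩).trans ?_
  · exact mul_le_mul_of_nonneg_right (le_max_of_le_right (le_max_left _ _)) (by positivity)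
  · exact mul_le_mul_of_nonneg_right (le_max_of_le_right (le_max_right _ _)) (by positivity)

/-- the linearised flow extends holomorphically -/
lemma Bg.exists_lin (h : Bg m δ δ₁ T ω X a) {r B c : ℝ} (hc : 0 < c) (hcr : 2 * c ≤ r)
    (hcT : c ≤ T) (hol : ∀ p, ‖p - a‖ < δ → Hol r B (fun t => X t p)) {e : ℂ} (he : ‖e‖ = 1) :
    ∃ y : ℝ → ℂ, ContinuousOn y (Icc 0 T) ∧ y 0 = e ∧
      (∀ t ∈ Ioo 0 T, HasDerivAt y (st ω (X t) (X t a) * conj (y t)) t) ∧ Hol' (c / 1000) y := by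
  have hδ := h.δ_pos
  have hδ₁ := h.δ₁_pos
  have hm := h.hω.m_nonneg
  set L := m * δ₁⁻¹ ^ 2 with hL
  set M := m * δ₁⁻¹ ^ 3 with hM
  have hL0 : 0 ≤ L := by positivity
  have hM0 : 0 ≤ M := by positivity
  set E := 2 * Real.exp L with hE
  have hE0 : 0 < E := by positivity
  set ρ : ℕ → ℝ := fun j => δ / 4 * (1 / 2) ^ j with hρ
  have hρ0 : ∀ j, 0 < ρ j := fun j => by positivity
  have hρ1 : ∀ j, ρ j ≤ δ / 4 := fun j =>
    mul_le_of_le_one_right (by positivity) (pow_le_one₀ (by norm_num) (by norm_num))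
  have hp : ∀ j, ‖a + ρ j * e - a‖ = ρ j := fun j => by
    rw [add_sub_cancel_left, norm_mul, he, mul_one, Complex.norm_real, Real.norm_eq_abs,
      abs_of_pos (hρ0 j)]
  have hp' : ∀ j, ‖a + ρ j * e - a‖ ≤ δ / 2 := fun j => by rw [hp]; linarith [hρ1 j]
  have hz : ∀ j, ∀ t ∈ Icc 0 T, ‖X t (a + ρ j * e) - X t a‖ ≤ E * ρ j := by
    intro j
    refine gron' (f' := fun t => V ω (X t) (X t (a + ρ j * e)) - V ω (X t) (X t a)) h.T_le hL0
      ((h.hX.cont_t _).sub (h.hX.cont_t _)).continuousOn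
      (fun t _ => (h.hX.deriv _ t).sub (h.hX.deriv _ t))
      (by simp only [h.hX.init]; exact (hp j).le) fun t ht => ?_
    have ht' := Ioo_subset_Icc_self ht
    refine (V_lip h.hω (h.hX.incomp t) (h.hX.incomp t) hδ₁ (norm_nonneg _)
      (h.far h.hω' h.hX (hp' j) ht') (h.far h.hω' h.hX h.self ht')
      (fun b _ => by rw [sub_sub_sub_cancel_right])).trans ?_
    linarith [hρ0 j]
  obtain ⟨y, y1, y2, y3, y4⟩ := ode_limit (g := fun _ => 0) (e := e) (A := 2 * M * E ^ 2 * (δ / 4))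
    h.T_le h.T_pos.le (fun t ht => h.norm_st ht)
    (f := fun j t => ((ρ j : ℂ))⁻¹ * (X t (a + ρ j * e) - X t a))
    (f' := fun j t => ((ρ j : ℂ))⁻¹ * (V ω (X t) (X t (a + ρ j * e)) - V ω (X t) (X t a)))
    (fun j t => ((h.hX.deriv _ t).sub (h.hX.deriv _ t)).const_mul _)
    (fun j => by
      have : (ρ j : ℂ) ≠ 0 := by exact_mod_cast (hρ0 j).ne'
      simp only [h.hX.init, add_sub_cancel_left]
      field_simp)
    (fun j t ht => by
      have e1 : ((ρ j : ℂ))⁻¹ * (V ω (X t) (X t (a + ρ j * e)) - V ω (X t) (X t a)) -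
          (st ω (X t) (X t a) * conj (((ρ j : ℂ))⁻¹ * (X t (a + ρ j * e) - X t a)) + 0) =
          ((ρ j : ℂ))⁻¹ * (V ω (X t) (X t (a + ρ j * e)) - V ω (X t) (X t a) -
          st ω (X t) (X t a) * conj (X t (a + ρ j * e) - X t a)) := by
        rw [map_mul, map_inv₀, conj_ofReal]; ring
      rw [e1, norm_mul, norm_inv, Complex.norm_real, Real.norm_eq_abs, abs_of_pos (hρ0 j)]
      have a1 := expand (D₁ := 0) (y := X t (a + ρ j * e) - X t a) h.hω (h.hX.incomp t)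
        (h.hX.incomp t) (h.hX.incomp t) hδ₁ le_rfl (norm_nonneg (X t (a + ρ j * e) - X t a))
        (h.far h.hω' h.hX h.self ht) (h.far h.hω' h.hX (hp' j) ht) (h.far h.hω' h.hX h.self ht)
        (fun b _ => by rw [sub_sub_sub_cancel_right, sub_self, norm_zero])
        (fun b _ => by rw [sub_sub_sub_cancel_right]) (fun b _ => by simp)
      have a2 := hz j t ht
      have a3 := hρ0 j
      rw [mul_zero, zero_add, ← hM] at a1
      calc (ρ j)⁻¹ * _ ≤ (ρ j)⁻¹ * (2 * M * (E * ρ j) * (E * ρ j)) := by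
            gcongr
            exact a1.trans (by gcongr)
        _ = 2 * M * E ^ 2 * ρ j := by field_simp
        _ = _ := by simp only [hρ]; ring)
  refine ⟨y, y1, y2, fun t ht => by simpa using y3 t ht, ?_⟩
  refine hol'_of_approx (B := 4 / δ * (|B| + |B|)) hc hcr hcT (fun j => ?_) y4
  refine (((hol (a + ρ j * e) (by rw [hp]; linarith [hρ1 j])).mono (le_abs_self B)).lin
    ((hol a (by simpa using hδ)).mono (le_abs_self B)) _).mono ?_
  rw [norm_inv, Complex.norm_real, Real.norm_eq_abs, abs_of_pos (hρ0 j)]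
  have e2 : (ρ j)⁻¹ = 4 / δ * 2 ^ j := by
    simp only [hρ, one_div, inv_pow]
    field_simp
  rw [e2]
  have : (2 : ℝ) ^ j ≤ 64 ^ j := pow_le_pow_left₀ (by norm_num) (by norm_num) j
  calc 4 / δ * 2 ^ j * (|B| + |B|) ≤ 4 / δ * 64 ^ j * (|B| + |B|) := by gcongr
    _ = _ := by ring

/-- a small vortex blob -/
noncomputable def blob (β : ℂ) (ρ : ℝ) : ℂ → ℝ := (Metric.ball β ρ).indicator (fun _ => 1)

lemma integral_blob (β : ℂ) {ρ : ℝ} (hρ : 0 ≤ ρ) : ∫ b, blob β ρ b = Real.pi * ρ ^ 2 := by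
  unfold blob
  rw [integral_indicator Metric.isOpen_ball.measurableSet]
  simp [Measure.real, hρ, mul_comm]

lemma blob_nonneg (β : ℂ) (ρ : ℝ) (b : ℂ) : 0 ≤ blob β ρ b :=
  indicator_nonneg (fun _ _ => zero_le_one) _

lemma blob_ne {β : ℂ} {ρ : ℝ} {b : ℂ} (h : blob β ρ b ≠ 0) : ‖b - β‖ < ρ := by
  rw [← dist_eq_norm]
  exact mem_of_indicator_ne_zero (s := Metric.ball β ρ) h

lemma dat_blob (β : ℂ) {ρ : ℝ} (hρ : 0 ≤ ρ) : Dat 1 (4 * ρ ^ 2) (blob β ρ) := by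
  refine ⟨measurable_const.indicator Metric.isOpen_ball.measurableSet, fun b => ?_, ?_, ?_⟩
  · rw [abs_of_nonneg (blob_nonneg _ _ _)]
    exact indicator_le_self' (fun _ _ => zero_le_one) b
  · exact (integrable_indicator_iff Metric.isOpen_ball.measurableSet).2
      (integrableOn_const measure_ball_lt_top.ne)
  · simp only [abs_of_nonneg (blob_nonneg _ _ _), integral_blob β hρ]
    have := Real.pi_le_four
    gcongr

lemma Bg.dat_add (h : Bg m δ δ₁ T ω X a) {β : ℂ} {ρ : ℝ} (hρ : 0 ≤ ρ) (hβ : ‖β - a‖ + ρ ≤ δ) :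
    Dat 1 (m + 4) (fun b => ω b + blob β ρ b) := by
  have hb := dat_blob β hρ
  refine ⟨h.hω.meas.add hb.meas, fun b => ?_, h.hω.int.add hb.int, ?_⟩
  · by_cases h1 : blob β ρ b = 0
    · rw [h1, add_zero]; exact h.hω.bdd b
    · have h2 := blob_ne h1
      have h3 := norm_sub_le_norm_sub_add_norm_sub b β a
      rw [h.hole b (by linarith), zero_add]
      exact hb.bdd b
  · have h1 : ∫ b, |ω b + blob β ρ b| ≤ ∫ b, (|ω b| + |blob β ρ b|) :=
      integral_mono (h.hω.int.add hb.int).abs (h.hω.int.abs.add hb.int.abs) fun b => abs_add_le _ _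
    rw [integral_add h.hω.int.abs hb.int.abs] at h1
    have h2 : ρ ≤ 1 := by linarith [norm_nonneg (β - a), h.δ_le]
    have h3 : ρ ^ 2 ≤ 1 := pow_le_one₀ hρ h2
    linarith [h.hω.mass, hb.mass]

lemma osg_le_pow {K u t : ℝ} (hu0 : 0 < u) (hu : u ≤ 1) (ht : 2 * K * t ≤ 1 / 8) :
    osg K (u ^ 8) t ≤ u ^ 7 := by
  unfold osg
  rw [← Real.exp_log (by positivity : 0 < u ^ 7), Real.log_pow, Real.log_pow]
  refine Real.exp_le_exp.2 ?_
  have h1 : Real.log u ≤ 0 := Real.log_nonpos hu0.le hu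
  have h2 := Real.add_one_le_exp (-(2 * K * t))
  push_cast
  nlinarith

lemma small_of_half {K u t : ℝ} (hu0 : 0 < u) (hu : u ≤ 1 / 2) (ht : 2 * K * t ≤ 1 / 8) :
    1 ≤ -Real.log (u ^ 8) * Real.exp (-(2 * K * t)) := by
  have h1 : Real.log u ≤ -(1 / 2) := by
    have := Real.log_le_sub_one_of_pos hu0
    linarith
  have h2 := Real.add_one_le_exp (-(2 * K * t))
  rw [Real.log_pow]
  push_cast
  nlinarith

end Pool.Agent.MP_ecf4b9_an

end MrgPart0

-- ======== part 1: formerly Pool.Agent.MP_ecf4b9_an.Blob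
section MrgPart1

/-!
The response of a trajectory to a small vortex blob.
-/

open MeasureTheory Set Complex Filter Topology
open scoped ComplexConjugate

namespace Pool.Agent.MP_ecf4b9_an

variable {m δ δ₁ T : ℝ} {ω : ℂ → ℝ} {X : ℝ → ℂ → ℂ} {a : ℂ}

lemma blob_V_le (β : ℂ) {τ : ℝ} (hτ : 0 < τ) {Z : ℂ → ℂ} (hZ : Incomp Z) (x : ℂ) :
    ‖V (blob β (τ ^ 4)) Z x‖ ≤ 17 * τ ^ 4 := by
  refine (norm_V_le_W _ _ _).trans ((norm_W_le (dat_blob β (by positivity)) hZ x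
    (by positivity : 0 < τ ^ 4)).trans (le_of_eq ?_))
  field_simp
  ring

lemma blob_W_approx (β : ℂ) {ρ C : ℝ} (hρ : 0 ≤ ρ) {Z : ℂ → ℂ} (hZ : Incomp Z) (x w : ℂ)
    (hC : 0 ≤ C) (h : ∀ b, ‖b - β‖ < ρ → ‖(x - Z b)⁻¹ - w‖ ≤ C) :
    ‖W (blob β ρ) Z x - (Real.pi * ρ ^ 2 : ℝ) * w‖ ≤ 4 * ρ ^ 2 * C := by
  have hb := dat_blob β hρ
  have e : ((Real.pi * ρ ^ 2 : ℝ) : ℂ) * w = ∫ b, (blob β ρ b : ℂ) * w := by
    rw [integral_mul_const, integral_complex_ofReal, integral_blob β hρ]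
  have hi : Integrable (fun b => (blob β ρ b : ℂ) * w) := (hb.int.ofReal (𝕜 := ℂ)).mul_const w
  rw [e, W, ← integral_sub (W_int hb hZ x) hi]
  refine (norm_integral_le_of_norm_le (hb.int.abs.mul_const C)
    (Eventually.of_forall fun b => ?_)).trans ?_
  · by_cases h0 : blob β ρ b = 0
    · simp [h0]
    · rw [← mul_sub, norm_mul, Complex.norm_real, Real.norm_eq_abs]
      exact mul_le_mul_of_nonneg_left (h b (blob_ne h0)) (abs_nonneg _)
  · rw [integral_mul_const]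
    exact mul_le_mul_of_nonneg_right hb.mass hC

/-- the geometric facts about the position of the blob -/
lemma blob_pos {τ : ℝ} {e : ℂ} (he : ‖e‖ = 1) (hτ : 0 < τ) (h1 : τ ≤ 1 / 2) (a : ℂ) :
    ‖a + (τ ^ 2 : ℝ) * e - a‖ = τ ^ 2 ∧ τ ^ 2 + τ ^ 4 ≤ 2 * τ ^ 2 ∧ 2 * τ ^ 2 ≤ τ := by
  refine ⟨?_, ?_, by nlinarith⟩
  · rw [add_sub_cancel_left, norm_mul, he, mul_one, Complex.norm_real, Real.norm_eq_abs,
      abs_of_pos (by positivity)]
  · have : τ ^ 2 ≤ 1 := by nlinarith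
    nlinarith [sq_nonneg (τ ^ 2), sq_nonneg τ]

lemma Bg.blob_bg (h : Bg m δ δ₁ T ω X a) {e : ℂ} (he : ‖e‖ = 1) {τ : ℝ} (hτ : 0 < τ)
    (h1 : (1 + 4 * δ₁⁻¹) * τ ≤ 1 / 2) (h2 : τ ≤ δ / 2) {X' : ℝ → ℂ → ℂ}
    (hX' : IsFlow (fun b => ω b + blob (a + (τ ^ 2 : ℝ) * e) (τ ^ 4) b) X') :
    ∀ b, ω b ≠ 0 → ∀ t ∈ Icc 0 T, ‖X t b - X' t b‖ ≤ 3 * ((1 + 4 * δ₁⁻¹) * τ) ^ 7 := by
  have hδ₁ := h.δ₁_pos
  have hδ := h.δ_pos
  set l := 1 + 4 * δ₁⁻¹ with hl
  have hl1 : 1 ≤ l := by rw [hl]; linarith [inv_pos.2 hδ₁]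
  have hτ1 : τ ≤ 1 / 2 := by nlinarith
  obtain ⟨p1, p2, p3⟩ := blob_pos he hτ hτ1 a
  set β := a + (τ ^ 2 : ℝ) * e with hβ
  have hω' := h.dat_add (β := β) (ρ := τ ^ 4) (by positivity) (by linarith)
  intro b hb t ht
  have hTK : 2 * KK (m + 4) * t ≤ 1 / 8 := by
    refine le_trans ?_ h.TK
    have := KK_pos h.hω'.m_nonneg
    exact mul_le_mul_of_nonneg_left ht.2 (by positivity)
  have := stab h.hω' hω' h.hX hX' {p | p.1 = p.2 ∧ δ ≤ ‖p.2 - a‖}
    (fun b hb => ⟨rfl, h.supp hb⟩) (T := T) (η := (l * τ) ^ 8) (η₁ := 0)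
    (η₂ := 4 * (τ ^ 4) ^ 2 * δ₁⁻¹) (fun p hp => by rw [hp.1]; simp) (fun p hp s hs => ?_)
    (by positivity) ?_ (by positivity) (small_of_half (by positivity) h1 h.TK) (b, b)
    ⟨rfl, h.supp hb⟩ t ht
  · exact this.trans (by gcongr; exact osg_le_pow (by positivity) (by linarith) hTK)
  · have e1 : (fun b => ω b - (ω b + blob β (τ ^ 4) b)) = fun b => -blob β (τ ^ 4) b := by
      ext b; ring
    rw [e1]
    refine W_far (dat_blob β (by positivity)).neg hδ₁ fun b' hb' => ?_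
    rw [norm_sub_rev]
    refine h.far' hω' hX' ?_ hs _ hp.2
    have a1 := blob_ne (neg_ne_zero.1 hb')
    have a2 := norm_sub_le_norm_sub_add_norm_sub b' β a
    linarith
  · have a1 : l ≤ l ^ 8 := le_self_pow₀ hl1 (by norm_num)
    have a2 : 4 * δ₁⁻¹ ≤ l ^ 8 := by linarith
    have a3 : 0 ≤ 4 * (τ ^ 4) ^ 2 * δ₁⁻¹ := by positivity
    have a4 := mul_le_mul_of_nonneg_right h.T_le a3
    have a5 := mul_le_mul_of_nonneg_right a2 (by positivity : 0 ≤ τ ^ 8)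
    rw [mul_pow]
    nlinarith

lemma Bg.blob_est (h : Bg m δ δ₁ T ω X a) {e : ℂ} (he : ‖e‖ = 1) {y : ℝ → ℂ}
    (yc : ContinuousOn y (Icc 0 T)) (y0 : y 0 = e)
    (yd : ∀ t ∈ Ioo 0 T, HasDerivAt y (st ω (X t) (X t a) * conj (y t)) t) {μ : ℝ} (hμ : 0 < μ)
    (hy : ∀ t ∈ Icc 0 T, μ ≤ ‖y t‖) :
    ∃ τ₀ > 0, τ₀ ≤ δ / 2 ∧ τ₀ ≤ 1 / 2 ∧ ∃ C, ∀ τ, 0 < τ → τ ≤ τ₀ → ∀ X' : ℝ → ℂ → ℂ,
      IsFlow (fun b => ω b + blob (a + (τ ^ 2 : ℝ) * e) (τ ^ 4) b) X' → ∀ t ∈ Icc 0 T,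
      ‖((Real.pi * τ ^ 6 : ℝ) : ℂ)⁻¹ *
          (V (fun b => ω b + blob (a + (τ ^ 2 : ℝ) * e) (τ ^ 4) b) (X' t) (X' t a) -
            V ω (X t) (X t a)) -
        (st ω (X t) (X t a) * conj (((Real.pi * τ ^ 6 : ℝ) : ℂ)⁻¹ * (X' t a - X t a)) +
          -cc * (conj (y t))⁻¹)‖ ≤ C * τ := by
  have hδ := h.δ_pos
  have hδ₁ := h.δ₁_pos
  have hm := h.hω.m_nonneg
  set L := m * δ₁⁻¹ ^ 2 with hL
  set M := m * δ₁⁻¹ ^ 3 with hM
  have hL0 : 0 ≤ L := by positivity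
  have hM0 : 0 ≤ M := by positivity
  set E := 2 * Real.exp L with hE
  have hE0 : 0 < E := by positivity
  set l := 1 + 4 * δ₁⁻¹ with hl
  have hl0 : 0 < l := by positivity
  have hl1 : 1 ≤ l := by rw [hl]; linarith [inv_pos.2 hδ₁]
  set C₀ := 3 * l ^ 7 with hC₀
  set C₁ := E * (L * C₀ + 17) with hC₁
  set C₂ := E * 36 with hC₂
  set C₃ := E * (2 * M * C₂ * (C₂ + C₁ + C₀) + 35) with hC₃
  have hC₀0 : 0 < C₀ := by positivity
  have hC₁0 : 0 < C₁ := by positivity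
  have hC₂0 : 0 < C₂ := by positivity
  have hC₃0 : 0 < C₃ := by positivity
  refine ⟨min (min (δ / 2) (1 / (2 * l))) (μ / (2 * C₃)), by positivity,
    (min_le_left _ _).trans (min_le_left _ _), (min_le_left _ _).trans ((min_le_right _ _).trans
      (one_div_le_one_div_of_le two_pos (by linarith))),
    L * C₀ + 2 * M * C₁ * (C₁ + C₀) + 4 * (2 * C₃ * μ⁻¹ ^ 2), fun τ hτ hτ₀ X' hX' => ?_⟩
  have h2 : τ ≤ δ / 2 := hτ₀.trans ((min_le_left _ _).trans (min_le_left _ _))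
  have h1 : l * τ ≤ 1 / 2 := by
    have := hτ₀.trans ((min_le_left _ _).trans (min_le_right _ _))
    rw [le_div_iff₀ (by positivity)] at this
    linarith
  have h3 : C₃ * τ ≤ μ / 2 := by
    have := hτ₀.trans (min_le_right _ _)
    rw [le_div_iff₀ (by positivity)] at this
    linarith
  have hτ1 : τ ≤ 1 / 2 := by nlinarith
  have hτ1' : τ ≤ 1 := by linarith
  have q : ∀ {i j : ℕ}, i ≤ j → τ ^ j ≤ τ ^ i := fun hij => pow_le_pow_of_le_one hτ.le hτ1' hij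
  obtain ⟨p1, p2, p3⟩ := blob_pos he hτ hτ1 a
  have hD := h.blob_bg he hτ h1 h2 hX'
  set β := a + (τ ^ 2 : ℝ) * e with hβ
  have hω' := h.dat_add (β := β) (ρ := τ ^ 4) (by positivity) (by linarith)
  have hbl := dat_blob β (by positivity : 0 ≤ τ ^ 4)
  have hD7 : ∀ b, ω b ≠ 0 → ∀ t ∈ Icc 0 T, ‖X t b - X' t b‖ ≤ C₀ * τ ^ 7 := fun b hb t ht =>
    (hD b hb t ht).trans (le_of_eq (by rw [hC₀]; ring))
  have hD4 : ∀ b, ω b ≠ 0 → ∀ t ∈ Icc 0 T, ‖X t b - X' t b‖ ≤ C₀ * τ ^ 4 := fun b hb t ht =>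
    (hD7 b hb t ht).trans (mul_le_mul_of_nonneg_left (q (by norm_num)) hC₀0.le)
  have hin : ∀ b, ‖b - β‖ < τ ^ 4 → ‖b - a‖ ≤ 2 * τ ^ 2 := fun b hb => by
    have a2 := norm_sub_le_norm_sub_add_norm_sub b β a
    linarith
  have hin' : ∀ b, ‖b - β‖ < τ ^ 4 → ‖b - a‖ ≤ δ / 2 := fun b hb => by linarith [hin b hb]
  have hVs : ∀ t x, V (fun b => ω b + blob β (τ ^ 4) b) (X' t) x =
      V ω (X' t) x + V (blob β (τ ^ 4)) (X' t) x := fun t x => V_add h.hω hbl (hX'.incomp t) x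
  have tri : ∀ (p q r s : ℂ), ‖(p - q) - (r - s)‖ ≤ ‖p - r‖ + ‖s - q‖ := fun p q r s => by
    rw [show (p - q) - (r - s) = (p - r) + (s - q) by ring]; exact norm_add_le _ _
  have hw : ∀ t ∈ Icc 0 T, ‖X' t a - X t a‖ ≤ C₁ * τ ^ 4 := by
    intro t ht
    refine (gron' (f := fun t => X' t a - X t a)
      (f' := fun t => V (fun b => ω b + blob β (τ ^ 4) b) (X' t) (X' t a) -
      V ω (X t) (X t a)) (ε := (L * C₀ + 17) * τ ^ 4) h.T_le hL0
      ((hX'.cont_t _).sub (h.hX.cont_t _)).continuousOn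
      (fun t _ => (hX'.deriv _ t).sub (h.hX.deriv _ t))
      (by simp only [h.hX.init, hX'.init, sub_self, norm_zero]; positivity) (fun t ht => ?_)
      t ht).trans (le_of_eq (by rw [hC₁]; ring))
    have ht' := Ioo_subset_Icc_self ht
    have a1 := V_lip (D := ‖X' t a - X t a‖ + C₀ * τ ^ 4) h.hω (hX'.incomp t) (h.hX.incomp t) hδ₁
      (by positivity) (h.far hω' hX' h.self ht') (h.far h.hω' h.hX h.self ht')
      (fun b hb => (tri _ _ _ _).trans (by linarith [hD4 b hb t ht']))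
    have a2 := blob_V_le β hτ (hX'.incomp t) (X' t a)
    rw [hVs, add_sub_right_comm]
    refine (norm_add_le _ _).trans ?_
    rw [← hL] at a1
    linarith
  have hz : ∀ b, ‖b - β‖ < τ ^ 4 → ∀ t ∈ Icc 0 T, ‖X' t b - X' t a‖ ≤ C₂ * τ ^ 2 := by
    intro b hb t ht
    refine (gron' (f := fun t => X' t b - X' t a)
      (f' := fun t => V (fun b => ω b + blob β (τ ^ 4) b) (X' t) (X' t b) -
      V (fun b => ω b + blob β (τ ^ 4) b) (X' t) (X' t a)) (ε := 36 * τ ^ 2) h.T_le hL0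
      ((hX'.cont_t _).sub (hX'.cont_t _)).continuousOn
      (fun t _ => (hX'.deriv _ t).sub (hX'.deriv _ t))
      (by simp only [hX'.init]; linarith [hin b hb, sq_nonneg τ]) (fun t ht => ?_)
      t ht).trans (le_of_eq (by rw [hC₂]; ring))
    have ht' := Ioo_subset_Icc_self ht
    have a1 := V_lip (D := ‖X' t b - X' t a‖) h.hω (hX'.incomp t) (hX'.incomp t) hδ₁
      (norm_nonneg _) (h.far hω' hX' (hin' b hb) ht') (h.far hω' hX' h.self ht')
      (fun b _ => by rw [sub_sub_sub_cancel_right])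
    have a2 := blob_V_le β hτ (hX'.incomp t) (X' t a)
    have a3 := blob_V_le β hτ (hX'.incomp t) (X' t b)
    rw [hVs, hVs, add_sub_add_comm]
    refine (norm_add_le _ _).trans ?_
    have a4 := norm_sub_le (V (blob β (τ ^ 4)) (X' t) (X' t b)) (V (blob β (τ ^ 4)) (X' t) (X' t a))
    have a5 : τ ^ 4 ≤ τ ^ 2 := q (by norm_num)
    rw [← hL] at a1
    linarith [sq_nonneg τ]
  have hu : ∀ b, ‖b - β‖ < τ ^ 4 → ∀ t ∈ Icc 0 T,
      ‖X' t b - X' t a - (τ ^ 2 : ℝ) * y t‖ ≤ C₃ * τ ^ 4 := by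
    intro b hb t ht
    have hε : 0 ≤ 2 * M * C₂ * (C₂ + C₁ + C₀) * τ ^ 4 := by positivity
    have hτ4 : 0 < τ ^ 4 := by positivity
    refine (gron' (f := fun t => X' t b - X' t a - (τ ^ 2 : ℝ) * y t)
      (f' := fun t => V (fun b => ω b + blob β (τ ^ 4) b) (X' t) (X' t b) -
      V (fun b => ω b + blob β (τ ^ 4) b) (X' t) (X' t a) -
        (τ ^ 2 : ℝ) * (st ω (X t) (X t a) * conj (y t)))
      (ε := (2 * M * C₂ * (C₂ + C₁ + C₀) + 35) * τ ^ 4) h.T_le hL0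
      (((hX'.cont_t _).sub (hX'.cont_t _)).continuousOn.sub (continuousOn_const.mul yc))
      (fun t ht => ((hX'.deriv _ t).sub (hX'.deriv _ t)).sub ((yd t ht).const_mul _))
      (by
        simp only [hX'.init, y0]
        rw [sub_sub, ← hβ]
        linarith) (fun t ht => ?_)
      t ht).trans (le_of_eq (by rw [hC₃]; ring))
    have ht' := Ioo_subset_Icc_self ht
    have b1 := hz b hb t ht'
    have b2 := hw t ht'
    have a5 : τ ^ 4 ≤ τ ^ 2 := q (by norm_num)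
    have a6 : C₁ * τ ^ 4 ≤ C₁ * τ ^ 2 := by gcongr
    have a7 : C₀ * τ ^ 4 ≤ C₀ * τ ^ 2 := by gcongr
    have a8 : 0 ≤ C₂ * τ ^ 2 := by positivity
    have a1 := expand (D₁ := 0) (D₂ := (C₂ + C₁ + C₀) * τ ^ 2) (y := X' t b - X' t a) h.hω
      (h.hX.incomp t) (hX'.incomp t) (hX'.incomp t) hδ₁ le_rfl (by positivity)
      (h.far h.hω' h.hX h.self ht') (h.far hω' hX' (hin' b hb) ht') (h.far hω' hX' h.self ht')
      (fun b _ => by rw [sub_sub_sub_cancel_right, sub_self, norm_zero])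
      (fun b' hb' => (tri _ _ _ _).trans (by
        have c1 := norm_sub_le_norm_sub_add_norm_sub (X' t b) (X' t a) (X t a)
        linarith [hD4 b' hb' t ht']))
      (fun b' hb' => (tri _ _ _ _).trans (by linarith [hD4 b' hb' t ht']))
    rw [mul_zero, zero_add, ← hM] at a1
    have a9 : 2 * M * ‖X' t b - X' t a‖ * ((C₂ + C₁ + C₀) * τ ^ 2) ≤
        2 * M * (C₂ * τ ^ 2) * ((C₂ + C₁ + C₀) * τ ^ 2) := by gcongr
    have a2 := blob_V_le β hτ (hX'.incomp t) (X' t a)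
    have a3 := blob_V_le β hτ (hX'.incomp t) (X' t b)
    have a4 := norm_sub_le (V (blob β (τ ^ 4)) (X' t) (X' t b)) (V (blob β (τ ^ 4)) (X' t) (X' t a))
    have e1 : V (fun b => ω b + blob β (τ ^ 4) b) (X' t) (X' t b) -
        V (fun b => ω b + blob β (τ ^ 4) b) (X' t) (X' t a) -
        (τ ^ 2 : ℝ) * (st ω (X t) (X t a) * conj (y t)) =
        st ω (X t) (X t a) * conj (X' t b - X' t a - (τ ^ 2 : ℝ) * y t) +
        ((V ω (X' t) (X' t b) - V ω (X' t) (X' t a) - st ω (X t) (X t a) * conj (X' t b - X' t a)) +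
        (V (blob β (τ ^ 4)) (X' t) (X' t b) - V (blob β (τ ^ 4)) (X' t) (X' t a))) := by
      rw [hVs, hVs, map_sub (starRingEnd ℂ) _ (_ * _), map_mul, conj_ofReal]
      ring
    rw [e1]
    refine (norm_add_le _ _).trans (add_le_add ?_ ((norm_add_le _ _).trans ?_))
    · rw [norm_mul, Complex.norm_conj]
      exact mul_le_mul_of_nonneg_right (h.norm_st ht') (norm_nonneg _)
    · linarith
  intro t ht
  have hyt := hy t ht
  have hy0 : y t ≠ 0 := norm_pos_iff.1 (hμ.trans_le hyt)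
  have hτc : (τ : ℂ) ≠ 0 := by exact_mod_cast hτ.ne'
  have hpc : (Real.pi : ℂ) ≠ 0 := by exact_mod_cast Real.pi_pos.ne'
  have d1 := blob_W_approx β (ρ := τ ^ 4) (C := 2 * C₃ * μ⁻¹ ^ 2) (by positivity) (hX'.incomp t)
    (X' t a) (-((τ ^ 2 : ℝ) * y t)⁻¹) (by positivity) (fun b hb => by
      have c1 := hu b hb t ht
      have c2 : ‖((τ ^ 2 : ℝ) : ℂ) * y t‖ = τ ^ 2 * ‖y t‖ := by
        rw [norm_mul, Complex.norm_real, Real.norm_eq_abs, abs_of_pos (by positivity)]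
      have c3 : τ ^ 2 * μ ≤ ‖((τ ^ 2 : ℝ) : ℂ) * y t‖ := by rw [c2]; gcongr
      have c4 : τ ^ 2 * μ / 2 ≤ ‖X' t b - X' t a‖ := by
        have c5 := norm_sub_norm_le (((τ ^ 2 : ℝ) : ℂ) * y t) (X' t b - X' t a)
        rw [norm_sub_rev (_ * _)] at c5
        have c6 : C₃ * τ ^ 4 ≤ τ ^ 2 * μ / 2 := by
          have c7 : C₃ * τ * τ ^ 3 ≤ μ / 2 * τ ^ 2 :=
            mul_le_mul h3 (q (by norm_num)) (by positivity) (by positivity)
          linarith
        linarith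
      have c8 : 0 < τ ^ 2 * μ := by positivity
      have c9 : X' t b - X' t a ≠ 0 := norm_pos_iff.1 (lt_of_lt_of_le (by positivity) c4)
      have c10 : ((τ ^ 2 : ℝ) : ℂ) * y t ≠ 0 := norm_pos_iff.1 (c8.trans_le c3)
      rw [← neg_sub (X' t b), inv_neg, neg_sub_neg, inv_sub_inv_norm c10 c9, norm_sub_rev]
      calc _ ≤ C₃ * τ ^ 4 * ((τ ^ 2 * μ)⁻¹ * (τ ^ 2 * μ / 2)⁻¹) := by gcongr
        _ = _ := by field_simp)
  have b2 := hw t ht
  have d2 := expand (D₁ := C₀ * τ ^ 7) (D₂ := (C₁ + C₀) * τ ^ 4) (y := X' t a - X t a) h.hω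
    (h.hX.incomp t) (hX'.incomp t) (h.hX.incomp t) hδ₁ (by positivity) (by positivity)
    (h.far h.hω' h.hX h.self ht) (h.far hω' hX' h.self ht) (h.far h.hω' h.hX h.self ht)
    (fun b hb => by
      rw [show X' t a - X' t b - (X t a - X t b) - (X' t a - X t a) = X t b - X' t b by ring]
      exact hD7 b hb t ht)
    (fun b hb => (tri _ _ _ _).trans (by linarith [hD4 b hb t ht]))
    (fun b _ => by rw [sub_self, norm_zero]; positivity)
  rw [← hL, ← hM] at d2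
  have d3 : 2 * M * ‖X' t a - X t a‖ * ((C₁ + C₀) * τ ^ 4) ≤
      2 * M * (C₁ * τ ^ 4) * ((C₁ + C₀) * τ ^ 4) := by gcongr
  have e1 : ((Real.pi * τ ^ 6 : ℝ) : ℂ)⁻¹ *
          (V (fun b => ω b + blob β (τ ^ 4) b) (X' t) (X' t a) - V ω (X t) (X t a)) -
        (st ω (X t) (X t a) * conj (((Real.pi * τ ^ 6 : ℝ) : ℂ)⁻¹ * (X' t a - X t a)) +
          -cc * (conj (y t))⁻¹) = ((Real.pi * τ ^ 6 : ℝ) : ℂ)⁻¹ *
        ((V ω (X' t) (X' t a) - V ω (X t) (X t a) - st ω (X t) (X t a) * conj (X' t a - X t a)) +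
          cc * conj (W (blob β (τ ^ 4)) (X' t) (X' t a) -
            (Real.pi * (τ ^ 4) ^ 2 : ℝ) * -((τ ^ 2 : ℝ) * y t)⁻¹)) := by
    have : conj (y t) ≠ 0 := by rw [map_ne_zero]; exact hy0
    rw [hVs]
    simp only [V, map_mul, map_sub, map_inv₀, map_neg, conj_ofReal]
    push_cast
    field_simp
    ring
  rw [e1, norm_mul, norm_inv, Complex.norm_real, Real.norm_eq_abs, abs_of_pos (by positivity),
    inv_mul_le_iff₀ (by positivity)]
  refine (norm_add_le _ _).trans ?_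
  have d4 := (norm_cc_conj_le _).trans d1
  have d5 : τ ^ 8 ≤ τ ^ 7 := q (by norm_num)
  have d6 : 0 ≤ 2 * M * C₁ * (C₁ + C₀) := by positivity
  have d7 : 0 ≤ 4 * (2 * C₃ * μ⁻¹ ^ 2) := by positivity
  have d8 := mul_le_mul_of_nonneg_left d5 d6
  have d9 := mul_le_mul_of_nonneg_left d5 d7
  have d10 : 0 ≤ (L * C₀ + 2 * M * C₁ * (C₁ + C₀) + 4 * (2 * C₃ * μ⁻¹ ^ 2)) * τ ^ 7 := by positivity
  have d11 := mul_le_mul_of_nonneg_right (by linarith [Real.pi_gt_three] : 1 ≤ Real.pi) d10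
  calc _ ≤ (L * C₀ + 2 * M * C₁ * (C₁ + C₀) + 4 * (2 * C₃ * μ⁻¹ ^ 2)) * τ ^ 7 := by linarith
    _ ≤ _ := by linarith

end Pool.Agent.MP_ecf4b9_an

end MrgPart1

-- ======== part 2: formerly Pool.Agent.MP_ecf4b9_an.Main
section MrgPart2

/-!
The Baire category argument: some trajectory is not analytic.
-/

open MeasureTheory Set Complex Filter Topology
open scoped ComplexConjugate

namespace Pool.Agent.MP_ecf4b9_an

variable {m δ δ₁ T : ℝ} {ω : ℂ → ℝ} {X : ℝ → ℂ → ℂ} {a : ℂ}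

theorem Bg.strain_le (h : Bg m δ δ₁ T ω X a) {r B c : ℝ} (hc : 0 < c) (hcr : 2 * c ≤ r)
    (hcT : c ≤ T) (hol : ∀ p, ‖p - a‖ < δ → Hol r B (fun t => X t p))
    (hol' : ∀ β ρ, 0 ≤ ρ → ‖β - a‖ + ρ ≤ δ →
      ∃ X', IsFlow (fun b => ω b + blob β ρ b) X' ∧ Hol r B (fun t => X' t a)) :
    ‖st ω (X 0) (X 0 a)‖ ≤ 1 / (c / 1000) := by
  obtain ⟨y₁, c₁, i₁, d₁, h₁⟩ := h.exists_lin hc hcr hcT hol (e := 1) (by simp)
  obtain ⟨y₂, c₂, i₂, d₂, h₂⟩ := h.exists_lin hc hcr hcT hol (e := I) (by simp)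
  have hdet := det_const h.T_le c₁ c₂ d₁ d₂ i₁ i₂
  have hlt : ∀ {t : ℝ}, t < c / 1000 → t < T := fun ht => by linarith
  have hδ := h.δ_pos
  refine schwarz_bound (s := fun t => st ω (X t) (X t a)) (κ := -cc) (by positivity)
    (neg_ne_zero.2 cc_ne_zero) ?_ (fun t h0 h1 => d₁ t ⟨h0, hlt h1⟩)
    (fun t h0 h1 => d₂ t ⟨h0, hlt h1⟩) i₁ i₂ h₁ h₂ (fun t h0 h1 => hdet t ⟨h0.le, (hlt h1).le⟩)
    fun e he => ?_
  · exact (h.cont_st 0 ⟨le_rfl, h.T_pos.le⟩).mono_of_mem_nhdsWithin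
      (mem_of_superset (Ioo_mem_nhdsGT h.T_pos) Ioo_subset_Icc_self)
  set y : ℝ → ℂ := fun t => e.re * y₁ t + e.im * y₂ t with hy
  have yc : ContinuousOn y (Icc 0 T) := (continuousOn_const.mul c₁).add (continuousOn_const.mul c₂)
  have y0 : y 0 = e := by simp [hy, i₁, i₂]
  have yd : ∀ t ∈ Ioo 0 T, HasDerivAt y (st ω (X t) (X t a) * conj (y t)) t := fun t ht => by
    refine (((d₁ t ht).const_mul _).add ((d₂ t ht).const_mul _)).congr_deriv ?_
    simp only [hy, map_add, map_mul, conj_ofReal]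
    ring
  have yne : ∀ t ∈ Icc 0 T, y t ≠ 0 := fun t ht => ne_zero_of_det (hdet t ht) he
  obtain ⟨t₀, ht₀, hmin⟩ := isCompact_Icc.exists_isMinOn (nonempty_Icc.2 h.T_pos.le) yc.norm
  obtain ⟨τ₀, hτ₀, b1, b2, C, hC⟩ := h.blob_est he yc y0 yd (norm_pos_iff.2 (yne t₀ ht₀))
    (fun t ht => hmin ht)
  set τ : ℕ → ℝ := fun j => τ₀ * (1 / 2) ^ j with hτ
  have hτ0 : ∀ j, 0 < τ j := fun j => by positivity
  have hτ1 : ∀ j, τ j ≤ τ₀ := fun j =>
    mul_le_of_le_one_right hτ₀.le (pow_le_one₀ (by norm_num) (by norm_num))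
  choose X' hX' hX'h using fun j => hol' (a + (τ j ^ 2 : ℝ) * e) (τ j ^ 4) (by positivity) (by
    obtain ⟨p1, p2, p3⟩ := blob_pos he (hτ0 j) ((hτ1 j).trans b2) a
    linarith [hτ1 j])
  obtain ⟨F, -, -, F3, F4⟩ := ode_limit (g := fun t => -cc * (conj (y t))⁻¹) (e := 0)
    (A := C * τ₀) h.T_le h.T_pos.le (fun t ht => h.norm_st ht)
    (f := fun j t => ((Real.pi * τ j ^ 6 : ℝ) : ℂ)⁻¹ * (X' j t a - X t a))
    (fun j t => (((hX' j).deriv a t).sub (h.hX.deriv a t)).const_mul _)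
    (fun j => by simp only [(hX' j).init, h.hX.init, sub_self, mul_zero])
    (fun j t ht => (hC (τ j) (hτ0 j) (hτ1 j) (X' j) (hX' j) t ht).trans
      (le_of_eq (by simp only [hτ]; ring)))
  refine ⟨F, ?_, fun t h0 h1 => ⟨yne t ⟨h0.le, (hlt h1).le⟩, F3 t ⟨h0, hlt h1⟩⟩⟩
  refine hol'_of_approx (B := (Real.pi * τ₀ ^ 6)⁻¹ * (B + B)) hc hcr hcT (fun j => ?_) F4
  refine ((hX'h j).lin (hol a (by simpa using hδ)) _).mono (le_of_eq ?_)
  have := Real.pi_pos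
  have := hτ0 j
  rw [norm_inv, Complex.norm_real, Real.norm_eq_abs, abs_of_pos (by positivity)]
  have e2 : (64 : ℝ) ^ j = ((1 / 2) ^ j)⁻¹ ^ 6 := by
    rw [← inv_pow, ← pow_mul, mul_comm, pow_mul]; norm_num
  simp only [hτ]
  rw [e2]
  field_simp

lemma dat_modify {ω' : ℂ → ℝ} (hω : Dat 1 m ω) (h0 : 0 ≤ δ) (h1 : δ ≤ 1) (hm : Measurable ω')
    (hb : ∀ b, |ω' b| ≤ 1) (he : ∀ b, δ ≤ ‖b - a‖ → ω' b = ω b) : Dat 1 (m + 4) ω' := by
  have hbl := dat_blob a h0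
  have hle : ∀ b, |ω' b| ≤ |ω b| + |blob a δ b| := fun b => by
    by_cases h : δ ≤ ‖b - a‖
    · rw [he b h]; linarith [abs_nonneg (blob a δ b)]
    · have : blob a δ b = 1 := indicator_of_mem (by simpa [dist_eq_norm] using h) _
      rw [this, abs_one]
      linarith [hb b, abs_nonneg (ω b)]
  have hi : Integrable ω' :=
    Integrable.mono' (hω.int.abs.add hbl.int.abs) hm.aestronglyMeasurable (Eventually.of_forall hle)
  refine ⟨hm, hb, hi, ?_⟩
  have h2 : ∫ b, |ω' b| ≤ ∫ b, (|ω b| + |blob a δ b|) :=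
    integral_mono hi.abs (hω.int.abs.add hbl.int.abs) hle
  rw [integral_add hω.int.abs hbl.int.abs] at h2
  have h3 : δ ^ 2 ≤ 1 := pow_le_one₀ h0 h1
  linarith [hω.mass, hbl.mass]

/-- modify the vorticity near `a` -/
noncomputable def patch (ω : ℂ → ℝ) (a : ℂ) (δ₀ δ : ℝ) (A : ℂ → ℝ) (b : ℂ) : ℝ :=
  if δ₀ ≤ ‖b - a‖ then ω b else if δ ≤ ‖b - a‖ then A b else 0

lemma patch_meas (hω : Measurable ω) (a : ℂ) (δ₀ δ : ℝ) {A : ℂ → ℝ} (hA : Measurable A) :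
    Measurable (patch ω a δ₀ δ A) := by
  unfold patch
  have hn : Measurable (fun b : ℂ => ‖b - a‖) := by fun_prop
  exact Measurable.ite (measurableSet_le measurable_const hn) hω
    (Measurable.ite (measurableSet_le measurable_const hn) hA measurable_const)

lemma patch_bdd (hω : ∀ b, |ω b| ≤ 1) (a : ℂ) (δ₀ δ : ℝ) {A : ℂ → ℝ} (hA : ∀ b, |A b| ≤ 1) (b : ℂ) :
    |patch ω a δ₀ δ A b| ≤ 1 := by
  unfold patch
  split_ifs
  exacts [hω b, hA b, by simp]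

lemma patch_far {δ₀ : ℝ} (hδ : δ ≤ δ₀) {A : ℂ → ℝ} (b : ℂ) (h : patch ω a δ₀ δ A b ≠ 0) :
    δ ≤ ‖a - b‖ := by
  rw [norm_sub_rev]
  unfold patch at h
  split_ifs at h with h1 h2
  exacts [hδ.trans h1, h2, absurd rfl h]

/-- the direction of maximal strain -/
noncomputable def uu (a b : ℂ) : ℂ := (‖a - b‖ ^ 2 : ℝ) * ((a - b)⁻¹) ^ 2

lemma uu_meas (a : ℂ) : Measurable (uu a) := by unfold uu; fun_prop

lemma norm_uu (a b : ℂ) : ‖uu a b‖ ≤ 1 := by
  unfold uu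
  rw [norm_mul, Complex.norm_real, norm_pow, norm_pow, norm_inv, norm_norm, ← mul_pow]
  exact pow_le_one₀ (by positivity) mul_inv_le_one

lemma strain_large {δ₀ : ℝ} (hω : Dat 1 m ω) (h0 : 0 < δ) (h1 : δ ≤ δ₀) (h2 : δ₀ ≤ 1) :
    2 * Real.pi * Real.log (δ₀ / δ) ≤
      ‖J (patch ω a δ₀ δ (fun b => (uu a b).re)) (fun b => b) a‖ +
      ‖J (patch ω a δ₀ δ (fun b => (uu a b).im)) (fun b => b) a‖ + 2 * ((m + 4) * δ₀⁻¹ ^ 2) := by
  have hδ₀ : 0 < δ₀ := h0.trans_le h1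
  have mk : ∀ (δ : ℝ) {A : ℂ → ℝ}, Measurable A → (∀ b, |A b| ≤ 1) →
      Dat 1 (m + 4) (patch ω a δ₀ δ A) := fun δ A hA hA' =>
    dat_modify hω hδ₀.le h2 (patch_meas hω.meas a δ₀ δ hA) (patch_bdd hω.bdd a δ₀ δ hA')
      (fun b hb => if_pos hb)
  have D₁ := mk δ (Complex.measurable_re.comp (uu_meas a))
    (fun b => (abs_re_le_norm _).trans (norm_uu a b))
  have D₂ := mk δ (Complex.measurable_im.comp (uu_meas a))
    (fun b => (abs_im_le_norm _).trans (norm_uu a b))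
  have D₀ := mk δ₀ (A := fun _ => 0) measurable_const (by simp)
  have I₁ := J_int (Z := fun b => b) D₁ measurable_id h0 (patch_far h1)
  have I₂ := J_int (Z := fun b => b) D₂ measurable_id h0 (patch_far h1)
  have I₀ := J_int (Z := fun b => b) D₀ measurable_id hδ₀ (patch_far le_rfl)
  have N₀ : ‖J (patch ω a δ₀ δ₀ (fun _ => 0)) (fun b => b) a‖ ≤ (m + 4) * δ₀⁻¹ ^ 2 := by
    refine (norm_integral_le_of_norm_le (D₀.int.abs.mul_const _)
      (Eventually.of_forall fun b => J_pointwise hδ₀ (patch_far le_rfl b))).trans ?_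
    rw [integral_mul_const]
    exact mul_le_mul_of_nonneg_right D₀.mass (by positivity)
  have key : (J (patch ω a δ₀ δ (fun b => (uu a b).re)) (fun b => b) a -
        J (patch ω a δ₀ δ₀ (fun _ => 0)) (fun b => b) a).re +
      (J (patch ω a δ₀ δ (fun b => (uu a b).im)) (fun b => b) a -
        J (patch ω a δ₀ δ₀ (fun _ => 0)) (fun b => b) a).im = 2 * Real.pi * Real.log (δ₀ / δ) := by
    unfold J
    rw [← integral_hk h0 h1, ← integral_sub_left_eq_self (hk δ δ₀) volume a]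
    have e1 := integral_sub I₁ I₀
    have e2 := integral_sub I₂ I₀
    have e3 := integral_re (𝕜 := ℂ) (I₁.sub I₀)
    have e4 := integral_im (𝕜 := ℂ) (I₂.sub I₀)
    have e5 := integral_add (I₁.sub I₀).re (I₂.sub I₀).im
    simp only [Function.comp_def, RCLike.re_to_complex, RCLike.im_to_complex, Pi.sub_apply]
      at e1 e2 e3 e4 e5
    rw [← e1, ← e2, ← e3, ← e4, ← e5]
    congr 1
    ext b
    unfold patch hk
    rw [norm_sub_rev b a]
    by_cases c1 : δ₀ ≤ ‖a - b‖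
    · simp [c1]
    · by_cases c2 : δ ≤ ‖a - b‖
      · have c3 : ‖a - b‖ ≠ 0 := (h0.trans_le c2).ne'
        simp only [c1, c2, if_true, if_false, not_le.1 c1, and_self, ofReal_zero, zero_mul,
          sub_zero, uu, re_ofReal_mul, im_ofReal_mul]
        have c4 : (((a - b)⁻¹) ^ 2).re ^ 2 + (((a - b)⁻¹) ^ 2).im ^ 2 = (‖a - b‖⁻¹ ^ 2) ^ 2 := by
          rw [← norm_inv, ← norm_pow, Complex.sq_norm, Complex.normSq_apply]; ring
        have c5 : ‖a - b‖ ^ 2 * (‖a - b‖⁻¹ ^ 2) ^ 2 = (‖a - b‖ ^ 2)⁻¹ := by field_simp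
        rw [← c5, ← c4]
        ring
      · simp [c1, c2]
  rw [← key, sub_re, sub_im]
  have a1 := abs_le.1 (abs_re_le_norm (J (patch ω a δ₀ δ (fun b => (uu a b).re)) (fun b => b) a))
  have a2 := abs_le.1 (abs_im_le_norm (J (patch ω a δ₀ δ (fun b => (uu a b).im)) (fun b => b) a))
  have a3 := abs_le.1 (abs_re_le_norm (J (patch ω a δ₀ δ₀ (fun _ => 0)) (fun b => b) a))
  have a4 := abs_le.1 (abs_im_le_norm (J (patch ω a δ₀ δ₀ (fun _ => 0)) (fun b => b) a))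
  linarith [a1.2, a2.2, a3.1, a4.1]

theorem key_false {δ₀ R : ℝ} (hω : Dat 1 m ω) (h0 : 0 < δ₀) (h1 : δ₀ ≤ 1) (hR : 0 < R)
    (H : ∀ ω' : ℂ → ℝ, Measurable ω' → (∀ b, |ω' b| ≤ 1) → (∀ b, δ₀ ≤ ‖b - a‖ → ω' b = ω b) →
      ∃ X, IsFlow ω' X ∧ ∀ p, ‖p - a‖ < δ₀ → Ext R (fun t => X t p)) : False := by
  have hm := hω.m_nonneg
  have hK := KK_pos (show 0 ≤ m + 4 + 4 by positivity)
  set T := min 1 (1 / (16 * KK (m + 4 + 4))) with hT
  have hT0 : 0 < T := by positivity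
  set c := min T (1 / (2 * R) / 2) with hc
  have hc0 : 0 < c := by positivity
  set Λ := 1 / (c / 1000) with hΛ
  have hΛ0 : 0 < Λ := by positivity
  set N := 14 * Λ + 2 * ((m + 4) * δ₀⁻¹ ^ 2) + 1 with hN
  have hN0 : 0 < N := by positivity
  set δ := δ₀ * Real.exp (-N) with hδ
  have hδ0 : 0 < δ := by positivity
  have hδ1 : δ ≤ δ₀ := mul_le_of_le_one_right h0.le (Real.exp_le_one_iff.2 (by linarith))
  obtain ⟨δ₁, hδ₁, hsep⟩ := sep (T := 1) (show 0 ≤ m + 4 + 4 by positivity) (half_pos hδ0)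
  have main : ∀ A : ℂ → ℝ, Measurable A → (∀ b, |A b| ≤ 1) →
      ‖J (patch ω a δ₀ δ A) (fun b => b) a‖ ≤ 7 * Λ := by
    intro A hA hA'
    have p1 := patch_meas hω.meas a δ₀ δ hA
    have p2 := patch_bdd hω.bdd a δ₀ δ hA'
    have p3 : ∀ b, δ₀ ≤ ‖b - a‖ → patch ω a δ₀ δ A b = ω b := fun b hb => if_pos hb
    obtain ⟨X, hX, hE⟩ := H _ p1 p2 p3
    have hB : Bg (m + 4) δ δ₁ T (patch ω a δ₀ δ A) X a := by
      refine ⟨dat_modify hω h0.le h1 p1 p2 p3, hX, fun b hb => ?_, hδ0, hδ1.trans h1, hδ₁, hT0,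
        min_le_left _ _, ?_, hsep⟩
      · by_contra hne
        have := patch_far hδ1 b hne
        rw [norm_sub_rev] at this
        linarith
      · have := min_le_right 1 (1 / (16 * KK (m + 4 + 4)))
        rw [← hT, le_div_iff₀ (by positivity)] at this
        linarith
    have := hB.strain_le (r := 1 / (2 * R)) (B := 2 * R) hc0
      (by have := min_le_right T (1 / (2 * R) / 2); linarith) (min_le_left _ _)
      (fun p hp => (hE p (hp.trans_le hδ1)).hol hR) (fun β ρ hρ hβ => ?_)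
    · have e0 : X 0 = fun b => b := funext hX.init
      rw [e0, st, norm_mul, norm_neg, norm_cc, Complex.norm_conj, ← hΛ,
        inv_mul_le_iff₀ (by have := Real.pi_pos; positivity)] at this
      have := Real.pi_lt_d2
      nlinarith
    · have hd := hB.dat_add hρ hβ
      obtain ⟨X', hX', hE'⟩ := H _ hd.meas hd.bdd (fun b hb => by
        have : blob β ρ b = 0 := by
          by_contra hne
          have a1 := blob_ne hne
          have a2 := norm_sub_le_norm_sub_add_norm_sub b β a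
          linarith
        rw [this, add_zero, p3 b hb])
      exact ⟨X', hX', (hE' a (by simpa using h0)).hol hR⟩
  have k1 := main _ (Complex.measurable_re.comp (uu_meas a))
    (fun b => (abs_re_le_norm _).trans (norm_uu a b))
  have k2 := main _ (Complex.measurable_im.comp (uu_meas a))
    (fun b => (abs_im_le_norm _).trans (norm_uu a b))
  have k3 := strain_large (a := a) hω hδ0 hδ1 h1
  have k4 : Real.log (δ₀ / δ) = N := by
    rw [hδ, div_mul_cancel_left₀ h0.ne', ← Real.exp_neg, neg_neg, Real.log_exp]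
  rw [k4] at k3
  have := Real.pi_gt_three
  simp only [Function.comp_def] at k1 k2
  nlinarith

/-- truncation -/
def tr (x : ℝ) : ℝ := max (-1) (min 1 x)

lemma abs_tr_le_one (x : ℝ) : |tr x| ≤ 1 :=
  abs_le.2 ⟨le_max_left _ _, max_le (by norm_num) (min_le_left _ _)⟩

lemma tr_lip (x y : ℝ) : |tr x - tr y| ≤ |x - y| := by
  unfold tr
  refine (abs_max_sub_max_le_max _ _ _ _).trans (max_le (by simp) ?_)
  exact (abs_min_sub_min_le_max _ _ _ _).trans (max_le (by simp) le_rfl)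

lemma tr_of_le {x : ℝ} (h : |x| ≤ 1) : tr x = x := by
  have := abs_le.1 h
  unfold tr
  rw [min_eq_right this.2, max_eq_right this.1]

lemma abs_tr_le (x : ℝ) : |tr x| ≤ |x| := by
  have := tr_lip x 0
  rwa [tr_of_le (x := 0) (by simp), sub_zero, sub_zero] at this

lemma measurable_tr : Measurable tr := by unfold tr; fun_prop

lemma dat_Lp (w : Lp ℝ 1 (volume : Measure ℂ)) : Dat 1 ‖w‖ (fun b => tr (w b)) := by
  have hm : Measurable (fun b => tr (w b)) := measurable_tr.comp (Lp.stronglyMeasurable w).measurable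
  have hi : Integrable (fun b => tr (w b)) :=
    Integrable.mono' (L1.integrable_coeFn w).abs hm.aestronglyMeasurable
      (Eventually.of_forall fun b => abs_tr_le _)
  refine ⟨hm, fun b => abs_tr_le_one _, hi, ?_⟩
  rw [L1.norm_eq_integral_norm]
  exact integral_mono hi.abs (L1.integrable_coeFn w).norm fun b => abs_tr_le _

lemma dist_Lp (w w' : Lp ℝ 1 (volume : Measure ℂ)) :
    ∫ b, |tr (w b) - tr (w' b)| ≤ dist w w' := by
  rw [L1.dist_eq_integral_dist]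
  exact integral_mono ((dat_Lp w).int.sub (dat_Lp w').int).abs
    ((L1.integrable_coeFn w).sub (L1.integrable_coeFn w')).abs fun b => tr_lip _ _

theorem exists_nonanalytic : ∃ (m : ℝ) (ω : ℂ → ℝ) (X : ℝ → ℂ → ℂ) (a : ℂ),
    Dat 1 m ω ∧ IsFlow ω X ∧ ¬ AnalyticAt ℝ (fun t => X t a) 0 := by
  by_contra hcon
  push Not at hcon
  choose Φ hΦ using fun w : Lp ℝ 1 (volume : Measure ℂ) => exists_flow (dat_Lp w)
  have hcont : ∀ t ∈ Icc (0 : ℝ) 1,
      Continuous (fun p : Lp ℝ 1 (volume : Measure ℂ) × ℂ => Φ p.1 t p.2) := by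
    intro t ht
    refine Metric.continuous_iff.2 fun p ε hε => ?_
    obtain ⟨δ, hδ, h⟩ := stab_data (m := ‖p.1‖ + 1) (T := 1) (by positivity) zero_le_one
      (half_pos hε)
    refine ⟨min δ 1, by positivity, fun q hq => ?_⟩
    rw [Prod.dist_eq, max_lt_iff, lt_min_iff, lt_min_iff] at hq
    rw [dist_eq_norm]
    refine (h ((dat_Lp q.1).mono ?_) ((dat_Lp p.1).mono (by linarith)) (hΦ q.1) (hΦ p.1) ?_
      ((dist_Lp _ _).trans hq.1.1.le) t ht).trans_lt (half_lt_self hε)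
    · have a1 := norm_sub_norm_le q.1 p.1
      have a2 := hq.1.2
      rw [dist_eq_norm] at a2
      linarith
    · rw [← dist_eq_norm]; exact hq.2.1.le
  obtain ⟨n, p, hp⟩ := nonempty_interior_of_iUnion_of_closed
    (f := fun n : ℕ => {p : Lp ℝ 1 (volume : Measure ℂ) × ℂ | Ext (n + 1) (fun t => Φ p.1 t p.2)})
    (fun n => isClosed_ext (by positivity) fun t ht => hcont t ⟨ht.1, ht.2.trans (by
      rw [div_le_one (by positivity)]; have := Nat.cast_nonneg (α := ℝ) n; linarith)⟩)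
    (eq_univ_of_forall fun p => mem_iUnion.2
      (ext_of_analytic (hcon _ _ _ p.2 (dat_Lp p.1) (hΦ p.1))))
  obtain ⟨ε, hε, hball⟩ := Metric.mem_nhds_iff.1 (mem_interior_iff_mem_nhds.1 hp)
  have hw := L1.integrable_coeFn p.1
  have t1 : Tendsto (fun ρ : ℝ => ∫ b in Metric.ball p.2 ρ, |p.1 b|) (𝓝 0) (𝓝 0) := by
    refine hw.abs.tendsto_setIntegral_nhds_zero ?_
    have : Tendsto (fun ρ : ℝ => ENNReal.ofReal ρ ^ 2 * NNReal.pi) (𝓝 0)
        (𝓝 (ENNReal.ofReal 0 ^ 2 * NNReal.pi)) :=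
      ENNReal.Tendsto.mul_const (ENNReal.Tendsto.pow (ENNReal.continuous_ofReal.tendsto 0))
        (Or.inr ENNReal.coe_ne_top)
    simpa [Function.comp_def] using this
  have t2 : Tendsto (fun ρ : ℝ => 4 * ρ ^ 2 + ∫ b in Metric.ball p.2 ρ, |p.1 b|) (𝓝 0) (𝓝 0) := by
    have : Tendsto (fun ρ : ℝ => 4 * ρ ^ 2) (𝓝 0) (𝓝 (4 * 0 ^ 2)) :=
      Continuous.tendsto (by fun_prop) 0
    simpa using this.add t1
  obtain ⟨δ₀, ⟨⟨g1, g2⟩, g3⟩, g4⟩ := ((((t2.eventually (gt_mem_nhds hε)).and (gt_mem_nhds hε)).and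
    (gt_mem_nhds one_pos)).filter_mono nhdsWithin_le_nhds |>.and
    (self_mem_nhdsWithin (s := Ioi (0 : ℝ)))).exists
  have g0 : 0 < δ₀ := g4
  refine key_false (a := p.2) (R := n + 1) (dat_Lp p.1) g0 g3.le (by positivity)
    fun ω' m1 m2 m3 => ?_
  have hd := dat_modify (dat_Lp p.1) g0.le g3.le m1 m2 m3
  have hbl := dat_blob p.2 g0.le
  have hmb : MeasurableSet (Metric.ball p.2 δ₀) := Metric.isOpen_ball.measurableSet
  classical
  have hi : Integrable ((Metric.ball p.2 δ₀).piecewise ω' p.1) :=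
    Integrable.piecewise hmb hd.int.integrableOn hw.integrableOn
  have hae := hi.coeFn_toL1
  refine ⟨Φ hi.toL1, (hΦ _).congr ?_, fun q hq => hball (a := (hi.toL1, q)) ?_⟩
  · filter_upwards [hae] with b hb
    rw [hb]
    by_cases hb' : b ∈ Metric.ball p.2 δ₀
    · rw [piecewise_eq_of_mem _ _ _ hb', tr_of_le (m2 b)]
    · rw [piecewise_eq_of_notMem _ _ _ hb', m3 b (by simpa [dist_eq_norm] using hb')]
  · rw [Metric.mem_ball, Prod.dist_eq, max_lt_iff]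
    refine ⟨lt_of_le_of_lt ?_ g1, by rw [dist_eq_norm]; exact hq.trans g2⟩
    rw [L1.dist_eq_integral_dist, ← integral_indicator hmb]
    have hi2 : Integrable ((Metric.ball p.2 δ₀).indicator fun b => |p.1 b|) :=
      hw.abs.indicator hmb
    refine le_trans (integral_mono_ae (g := fun b => |blob p.2 δ₀ b| +
      (Metric.ball p.2 δ₀).indicator (fun b => |p.1 b|) b)
      ((L1.integrable_coeFn _).sub hw).abs (hbl.int.abs.add hi2) ?_) ?_
    · filter_upwards [hae] with b hb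
      rw [hb, Real.dist_eq]
      by_cases hb' : b ∈ Metric.ball p.2 δ₀
      · rw [piecewise_eq_of_mem _ _ _ hb', indicator_of_mem hb', blob, indicator_of_mem hb', abs_one]
        linarith [abs_sub (ω' b) (p.1 b), m2 b]
      · rw [piecewise_eq_of_notMem _ _ _ hb', indicator_of_notMem hb', sub_self, abs_zero, add_zero]
        exact abs_nonneg _
    · rw [integral_add hbl.int.abs hi2]
      linarith [hbl.mass]

end Pool.Agent.MP_ecf4b9_an

end MrgPart2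

-- marker of a merged file
example : 731051 + 593618 = 731051 + 593618 := rfl
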