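import Mathlib.MeasureTheory.Integral.Bochner.Basic
import Mathlib.MeasureTheory.Measure.Haar.OfBasis
import Mathlib.LinearAlgebra.Complex.FiniteDimensional
import Mathlib.Analysis.Calculus.ContDiff.Defs
import Mathlib.Analysis.CStarAlgebra.Classes

/-!
Yudovich solutions of the incompressible Euler equations on the plane.  The plane is identified
with `ℂ` (point `x₁ + i x₂`, vector `u₁ + i u₂`, Lebesgue measure, Euclidean inner product).
-/

open MeasureTheory

namespace Pool.Agent.MP_ecf4b9_an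

/-- The Biot-Savart kernel `K(z) = z^⊥ / (2 π |z|^2)`, where `z^⊥ = (-z₂, z₁) = i z`. -/
noncomputable def biotSavartKernel (z : ℂ) : ℂ := (2 * Real.pi * ‖z‖ ^ 2)⁻¹ • (Complex.I * z)

/-- `u` is a global in time Yudovich solution of the Euler equations on the plane, with
vorticity `ω`: a weak solution (velocity form, tested against divergence free fields) whose
distributional curl `ω` stays bounded in `L^∞` and in `L^1`, and `u = K * ω`. -/
structure IsYudovichSolution (u : ℝ → ℂ → ℂ) (ω : ℝ → ℂ → ℝ) : Prop where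
  /-- the vorticity is a measurable function of time and space -/
  vorticity_measurable : Measurable (fun p : ℝ × ℂ => ω p.1 p.2)
  /-- the vorticity is bounded in `L^∞` and in `L^1`, uniformly in time -/
  vorticity_bounded : ∃ M : ℝ, ∀ t, (∀ x, |ω t x| ≤ M) ∧ Integrable (ω t) ∧ ∫ x, |ω t x| ≤ M
  /-- the velocity is continuous in time and space -/
  velocity_continuous : Continuous (fun p : ℝ × ℂ => u p.1 p.2)
  /-- the Biot-Savart law `u = K * ω` -/
  biotSavart : ∀ t x, u t x = ∫ y, ω t y • biotSavartKernel (x - y)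
  /-- `div u = 0` in the sense of distributions -/
  div_free : ∀ t (ψ : ℂ → ℝ), ContDiff ℝ 1 ψ → HasCompactSupport ψ →
    ∫ x, ((u t x).re * fderiv ℝ ψ x 1 + (u t x).im * fderiv ℝ ψ x Complex.I) = 0
  /-- `curl u = ∂₁ u₂ - ∂₂ u₁ = ω` in the sense of distributions -/
  curl_eq : ∀ t (ψ : ℂ → ℝ), ContDiff ℝ 1 ψ → HasCompactSupport ψ →
    ∫ x, ((u t x).re * fderiv ℝ ψ x Complex.I - (u t x).im * fderiv ℝ ψ x 1) = ∫ x, ω t x * ψ x
  /-- the Euler equations in weak form: `∫∫ u · (∂ₜ φ + (u · ∇) φ) dx dt = 0` for every compactly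
  supported divergence free test field `φ` of class `C¹` -/
  euler : ∀ φ : ℝ × ℂ → ℂ, ContDiff ℝ 1 φ → HasCompactSupport φ →
    (∀ p, (fderiv ℝ φ p (0, 1)).re + (fderiv ℝ φ p (0, Complex.I)).im = 0) →
    ∫ p : ℝ × ℂ, inner ℝ (u p.1 p.2) (fderiv ℝ φ p (1, u p.1 p.2)) = 0

end Pool.Agent.MP_ecf4b9_an
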