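import Mathlib.Analysis.Complex.Polynomial.Basic
import Mathlib.Analysis.Calculus.Deriv.Star
import Mathlib.Analysis.Complex.LocallyUniformLimit
import Mathlib.Analysis.Complex.Schwarz
import Mathlib.Analysis.Complex.ExponentialBounds
import Mathlib.Analysis.Complex.Hadamard
import Mathlib.Analysis.SpecialFunctions.Trigonometric.DerivHyp
import Mathlib.Combinatorics.SimpleGraph.Basic
import Mathlib.Topology.Separation.CompletelyRegular
import Pool.Agent.MP_ecf4b9_an.Scheme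
import Pool.Agent.MP_ecf4b9_an.Defs

-- ======== part 0: formerly Pool.Agent.MP_ecf4b9_an.Flow
section MrgPart0

/-!
Existence of the global measure preserving flow for bounded integrable vorticity.
-/

open MeasureTheory Set Complex Filter Topology
open scoped ComplexConjugate

namespace Pool.Agent.MP_ecf4b9_an

/-- uniform continuity of the velocity in the point and the transporting map -/
lemma V_unif {m ε : ℝ} (hm : 0 ≤ m) (hε : 0 < ε) : ∃ δ > 0, ∀ {ω : ℂ → ℝ} {Z Z' : ℂ → ℂ} {x x' : ℂ},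
    Dat 1 m ω → Incomp Z → Incomp Z' → ‖x - x'‖ ≤ δ → (∀ b, ‖Z b - Z' b‖ ≤ δ) →
      ‖V ω Z x - V ω Z' x'‖ ≤ ε := by
  have hK := KK_pos hm
  have h1 : Tendsto (fun σ : ℝ => KK m * 2 * Real.negMulLog σ) (𝓝 0) (𝓝 0) := by
    have := (Real.continuous_negMulLog.tendsto 0).const_mul (KK m * 2)
    simpa using this
  have h2 : ∀ᶠ σ : ℝ in 𝓝 0, KK m * 2 * Real.negMulLog σ < ε := h1.eventually (gt_mem_nhds hε)
  have h3 : ∀ᶠ σ : ℝ in 𝓝 0, σ < Real.exp (-1) := gt_mem_nhds (Real.exp_pos _)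
  obtain ⟨σ, ⟨h4, h5⟩, h6⟩ := (((h2.and h3).filter_mono nhdsWithin_le_nhds).and
    (self_mem_nhdsWithin (s := Ioi (0 : ℝ)))).exists
  have hσ : 0 < σ := h6
  refine ⟨σ, hσ, fun hω hZ hZ' hx hD => ?_⟩
  have h7 : 1 ≤ -Real.log σ := by
    have := Real.log_le_log hσ h5.le
    rw [Real.log_exp] at this
    linarith
  refine (V_sub_V_le hω hZ hZ' hσ h7 hx fun b _ => hD b).trans ?_
  rw [Real.negMulLog] at h4
  linarith

lemma continuous_V {m : ℝ} {ω : ℂ → ℝ} (hω : Dat 1 m ω) {X : ℝ → ℂ → ℂ} (hX : ∀ t, Incomp (X t))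
    {C : ℝ} (hC : 0 < C) (hlip : ∀ s t a, ‖X t a - X s a‖ ≤ C * |t - s|) :
    Continuous (fun p : ℝ × ℂ => V ω (X p.1) p.2) := by
  refine Metric.continuous_iff.2 fun p ε hε => ?_
  obtain ⟨δ, hδ, h⟩ := V_unif hω.m_nonneg (half_pos hε)
  refine ⟨min δ (δ / C), by positivity, fun q hq => ?_⟩
  rw [Prod.dist_eq, max_lt_iff, lt_min_iff, lt_min_iff] at hq
  rw [dist_eq_norm]
  refine (h hω (hX _) (hX _) ?_ fun b => ?_).trans_lt (half_lt_self hε)
  · rw [← dist_eq_norm]; exact hq.2.1.le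
  · refine (hlip _ _ b).trans ?_
    have := hq.1.2
    rw [Real.dist_eq, lt_div_iff₀ hC] at this
    linarith

lemma continuous_of_lip {X : ℝ → ℂ → ℂ} (hX : ∀ t, Continuous (X t))
    {C : ℝ} (hlip : ∀ s t a, ‖X t a - X s a‖ ≤ C * |t - s|) :
    Continuous (fun p : ℝ × ℂ => X p.1 p.2) := by
  refine continuous_prod_of_continuous_lipschitzWith _ (Real.toNNReal C) hX fun a => ?_
  refine LipschitzWith.of_dist_le_mul fun s t => ?_
  rw [dist_eq_norm, Real.dist_eq]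
  exact (hlip _ _ _).trans (mul_le_mul_of_nonneg_right (Real.le_coe_toNNReal C) (abs_nonneg _))

/-- forward flows -/
structure Fwd (ω : ℂ → ℝ) (C : ℝ) (X : ℝ → ℂ → ℂ) : Prop where
  cont : ∀ t, Continuous (X t)
  mp : ∀ t, MeasurePreserving (X t) volume volume
  neg : ∀ t ≤ 0, ∀ a, X t a = a
  lip : ∀ s t a, ‖X t a - X s a‖ ≤ C * |t - s|
  eq : ∀ a, ∀ t, 0 ≤ t → X t a = a + ∫ s in (0 : ℝ)..t, V ω (X s) (X s a)

lemma exists_fwd {m : ℝ} {ω : ℂ → ℝ} (hω : Dat 1 m ω) : ∃ X, Fwd ω (13 + m) X := by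
  have hm := hω.m_nonneg
  have hη : ∀ n : ℕ, 1 / ((n : ℝ) + 2) ≤ 1 / 2 := fun n =>
    one_div_le_one_div_of_le two_pos (by have := Nat.cast_nonneg (α := ℝ) n; linarith)
  choose Y hY using fun n : ℕ =>
    exists_approx (T := n) (η := 1 / ((n : ℝ) + 2)) hω (Nat.cast_nonneg n) (by positivity) (hη n)
  have hY' : ∀ T η : ℝ, 0 ≤ T → 0 < η → ∃ N : ℕ, ∀ n ≥ N, Approx ω T η (Y n) := by
    intro T η hT h0
    obtain ⟨N, hN⟩ := exists_nat_ge (max T (1 / η))
    refine ⟨N, fun n hn => (hY n).mono hT ?_ ?_⟩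
    · exact ((le_max_left _ _).trans hN).trans (Nat.cast_le.2 hn)
    · have h1 : 1 / η ≤ n := ((le_max_right _ _).trans hN).trans (Nat.cast_le.2 hn)
      rw [div_le_iff₀ h0] at h1
      rw [div_le_iff₀ (by positivity)]
      nlinarith
  have hC : ∀ T ε : ℝ, 0 ≤ T → 0 < ε → ∃ N : ℕ, ∀ n ≥ N, ∀ k ≥ N, ∀ t ∈ Icc 0 T, ∀ a,
      ‖Y n t a - Y k t a‖ ≤ ε := by
    intro T ε hT hε
    obtain ⟨η₀, h0, h1⟩ := osg_small (T := T) (KK_pos hm) hε
    set η := min (η₀ / 2) (1 / 2) with hηdef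
    have hη0 : 0 < η := by positivity
    obtain ⟨N, hN⟩ := hY' T η hT hη0
    have h2 := h1 (2 * η) (by positivity) (by have := min_le_left (η₀ / 2) (1 / 2); linarith)
    exact ⟨N, fun n hn k hk t ht a =>
      ((hN n hn).close hω (hN k hk) hη0 (min_le_right _ _) h2.1 a t ht).trans (h2.2 t ht.2)⟩
  have hcau : ∀ t, 0 ≤ t → ∀ a, CauchySeq (fun n => Y n t a) := by
    intro t ht a
    refine Metric.cauchySeq_iff.2 fun ε hε => ?_
    obtain ⟨N, hN⟩ := hC t (ε / 2) ht (half_pos hε)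
    refine ⟨N, fun n hn k hk => ?_⟩
    rw [dist_eq_norm]
    exact (hN n hn k hk t ⟨ht, le_rfl⟩ a).trans_lt (half_lt_self hε)
  set X : ℝ → ℂ → ℂ := fun t a => limUnder atTop (fun n => Y n (max t 0) a) with hX
  have hlim : ∀ t a, Tendsto (fun n => Y n (max t 0) a) atTop (𝓝 (X t a)) := fun t a =>
    (hcau _ (le_max_right _ _) a).tendsto_limUnder
  have hconv : ∀ T ε : ℝ, 0 ≤ T → 0 < ε → ∃ N : ℕ, ∀ n ≥ N, ∀ t ≤ T, ∀ a,
      ‖Y n (max t 0) a - X t a‖ ≤ ε := by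
    intro T ε hT hε
    obtain ⟨N, hN⟩ := hC T ε hT hε
    refine ⟨N, fun n hn t ht a => ?_⟩
    refine le_of_tendsto (((hlim t a).const_sub (Y n (max t 0) a)).norm) ?_
    filter_upwards [eventually_ge_atTop N] with k hk
    exact hN n hn k hk _ ⟨le_max_right _ _, max_le ht hT⟩ a
  have hnear : ∀ t, ∀ η > 0, ∃ Z, Near η Z ∧ ∀ a, ‖Z a - X t a‖ ≤ η := by
    intro t η h0
    obtain ⟨N, hN⟩ := hconv (max t 0) η (le_max_right _ _) h0
    obtain ⟨N', hN'⟩ := hY' (max t 0) η (le_max_right _ _) h0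
    exact ⟨Y (max N N') (max t 0), (hN' _ (le_max_right _ _)).near _ ⟨le_max_right _ _, le_rfl⟩,
      hN _ (le_max_left _ _) t (le_max_left _ _)⟩
  have hcont : ∀ t, Continuous (X t) := by
    intro t
    refine continuous_of_uniform_approx_of_continuous fun u hu => ?_
    obtain ⟨ε, hε, h⟩ := Metric.mem_uniformity_dist.1 hu
    obtain ⟨Z, hZ, hZ'⟩ := hnear t (ε / 2) (half_pos hε)
    refine ⟨Z, hZ.cont, fun a => h ?_⟩
    rw [dist_comm, dist_eq_norm]
    exact (hZ' a).trans_lt (half_lt_self hε)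
  have hmp : ∀ t, MeasurePreserving (X t) volume volume := fun t => mp_of_near (hcont t) (hnear t)
  have hlip : ∀ s t a, ‖X t a - X s a‖ ≤ (13 + m) * |t - s| := by
    intro s t a
    refine le_of_forall_pos_le_add fun ε hε => ?_
    set T := max (max t 0) (max s 0) with hT
    have hT0 : 0 ≤ T := (le_max_right _ _).trans (le_max_left _ _)
    obtain ⟨N, hN⟩ := hY' T (min (ε / 2) (1 / 2)) hT0 (by positivity)
    refine le_of_tendsto (((hlim t a).sub (hlim s a)).norm) ?_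
    filter_upwards [eventually_ge_atTop N] with n hn
    refine ((hN n hn).lip hω (min_le_right _ _) a ⟨le_max_right _ _, le_max_right _ _⟩
      ⟨le_max_right _ _, le_max_left _ _⟩).trans ?_
    have h1 := min_le_left (ε / 2) (1 / 2)
    have h2 : (13 + m) * |max t 0 - max s 0| ≤ (13 + m) * |t - s| :=
      mul_le_mul_of_nonneg_left (abs_max_sub_max_le_abs _ _ _) (by positivity)
    linarith
  have hjoint := continuous_of_lip hcont hlip
  have hVc := continuous_V hω (fun t => Incomp.of_mp (hmp t)) (by positivity) hlip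
  have hVa : ∀ a, Continuous (fun s => V ω (X s) (X s a)) := fun a =>
    hVc.comp (f := fun s : ℝ => (s, X s a))
      (continuous_id.prodMk (hjoint.comp (f := fun s : ℝ => (s, a)) (by fun_prop)))
  have heq : ∀ a, ∀ t, 0 ≤ t → X t a = a + ∫ s in (0 : ℝ)..t, V ω (X s) (X s a) := by
    intro a t ht
    have : ‖X t a - a - ∫ s in (0 : ℝ)..t, V ω (X s) (X s a)‖ ≤ 0 := by
      refine le_of_forall_pos_le_add fun ε hε => ?_
      set ε' := ε / (t + 2) with hε'
      have hε'0 : 0 < ε' := by positivity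
      obtain ⟨δ, hδ, hV⟩ := V_unif hm hε'0
      obtain ⟨N, hN⟩ := hconv t (min δ ε') ht (by positivity)
      obtain ⟨N', hN'⟩ := hY' t (min ε' (1 / 2)) ht (by positivity)
      set n := max N N'
      have hA := hN' n (le_max_right _ _)
      have hB := hN n (le_max_left _ _)
      have h1 := (hA.eq a t ⟨ht, le_rfl⟩).trans (min_le_left _ _)
      have h2 := (hB t le_rfl a).trans (min_le_right _ _)
      rw [max_eq_left ht] at h2
      have h3 : ‖(∫ s in (0 : ℝ)..t, V ω (Y n s) (Y n s a)) -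
          ∫ s in (0 : ℝ)..t, V ω (X s) (X s a)‖ ≤ ε' * t := by
        rw [← intervalIntegral.integral_sub (hA.int a) ((hVa a).intervalIntegrable _ _)]
        refine (intervalIntegral.norm_integral_le_of_norm_le_const (C := ε')
          fun s hs => ?_).trans (by rw [sub_zero, abs_of_nonneg ht])
        rw [uIoc_of_le ht] at hs
        have h4 : ∀ b, ‖Y n s b - X s b‖ ≤ δ := fun b => by
          have := (hB s hs.2 b).trans (min_le_left _ _)
          rwa [max_eq_left hs.1.le] at this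
        exact hV hω ((hA.near s ⟨hs.1.le, hs.2⟩).incomp (min_le_right _ _))
          (Incomp.of_mp (hmp s)) (h4 a) h4
      have h5 : X t a - a - ∫ s in (0 : ℝ)..t, V ω (X s) (X s a) =
          (Y n t a - a - ∫ s in (0 : ℝ)..t, V ω (Y n s) (Y n s a)) - (Y n t a - X t a) +
          ((∫ s in (0 : ℝ)..t, V ω (Y n s) (Y n s a)) - ∫ s in (0 : ℝ)..t, V ω (X s) (X s a)) := by
        ring
      rw [h5]
      refine (norm_add_le _ _).trans ?_
      have h6 := norm_sub_le (Y n t a - a - ∫ s in (0 : ℝ)..t, V ω (Y n s) (Y n s a))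
        (Y n t a - X t a)
      have h7 : ε' * (t + 2) = ε := by rw [hε']; field_simp
      linarith
    have h := norm_le_zero_iff.1 this
    linear_combination h
  refine ⟨X, hcont, hmp, fun t ht a => ?_, hlip, heq⟩
  have h0 := heq a 0 le_rfl
  simp only [intervalIntegral.integral_same, add_zero] at h0
  refine Eq.trans ?_ h0
  simp only [hX, max_eq_right ht, max_self]

/-- global flows of the Euler equations in Lagrangian form -/
structure IsFlow (ω : ℂ → ℝ) (X : ℝ → ℂ → ℂ) : Prop where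
  cont : Continuous (fun p : ℝ × ℂ => X p.1 p.2)
  mp : ∀ t, MeasurePreserving (X t) volume volume
  init : ∀ a, X 0 a = a
  deriv : ∀ a t, HasDerivAt (fun s => X s a) (V ω (X t) (X t a)) t

lemma V_neg (ω : ℂ → ℝ) (Z : ℂ → ℂ) (x : ℂ) : V (fun b => -ω b) Z x = -V ω Z x := by
  simp [V, W, integral_neg]

theorem exists_flow {m : ℝ} {ω : ℂ → ℝ} (hω : Dat 1 m ω) : ∃ X, IsFlow ω X := by
  have hm := hω.m_nonneg
  obtain ⟨P, hP⟩ := exists_fwd hω
  obtain ⟨Q, hQ⟩ := exists_fwd hω.neg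
  set X : ℝ → ℂ → ℂ := fun t a => P t a + Q (-t) a - a with hX
  have h1 : ∀ t, 0 ≤ t → X t = P t := fun t ht => by
    ext a
    simp only [hX, hQ.neg (-t) (by linarith) a, add_sub_cancel_right]
  have h2 : ∀ t, t ≤ 0 → X t = Q (-t) := fun t ht => by
    ext a
    simp only [hX, hP.neg t ht a, add_sub_cancel_left]
  have hmp : ∀ t, MeasurePreserving (X t) volume volume := fun t => by
    rcases le_total 0 t with h | h
    · rw [h1 t h]; exact hP.mp t
    · rw [h2 t h]; exact hQ.mp _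
  have hcont : ∀ t, Continuous (X t) := fun t =>
    ((hP.cont t).add (hQ.cont (-t))).sub continuous_id
  have hlip : ∀ s t a, ‖X t a - X s a‖ ≤ (2 * (13 + m)) * |t - s| := fun s t a => by
    have e : X t a - X s a = (P t a - P s a) + (Q (-t) a - Q (-s) a) := by simp only [hX]; ring
    rw [e]
    refine (norm_add_le _ _).trans ?_
    have a1 := hP.lip s t a
    have a2 := hQ.lip (-s) (-t) a
    rw [show -t - -s = -(t - s) by ring, abs_neg] at a2
    linarith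
  have hjoint := continuous_of_lip hcont hlip
  have hVc := continuous_V hω (fun t => Incomp.of_mp (hmp t)) (by positivity) hlip
  have hVa : ∀ a, Continuous (fun s => V ω (X s) (X s a)) := fun a =>
    hVc.comp (f := fun s : ℝ => (s, X s a))
      (continuous_id.prodMk (hjoint.comp (f := fun s : ℝ => (s, a)) (by fun_prop)))
  have heq : ∀ a t, X t a = a + ∫ s in (0 : ℝ)..t, V ω (X s) (X s a) := by
    intro a t
    rcases le_total 0 t with h | h
    · rw [h1 t h, hP.eq a t h]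
      congr 1
      refine intervalIntegral.integral_congr fun s hs => ?_
      rw [uIcc_of_le h] at hs
      simp only [h1 s hs.1]
    · rw [h2 t h, hQ.eq a (-t) (by linarith)]
      congr 1
      have e := intervalIntegral.integral_comp_neg (a := 0) (b := -t)
        (fun s => V ω (X s) (X s a))
      simp only [neg_neg, neg_zero] at e
      rw [intervalIntegral.integral_symm t 0, ← e, ← intervalIntegral.integral_neg]
      refine intervalIntegral.integral_congr fun s hs => ?_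
      rw [uIcc_of_le (by linarith)] at hs
      simp only [V_neg, h2 (-s) (by linarith [hs.1]), neg_neg]
  refine ⟨X, hjoint, hmp, fun a => by simpa using heq a 0, fun a t => ?_⟩
  have h3 := (intervalIntegral.integral_hasDerivAt_right ((hVa a).intervalIntegrable 0 t)
    ((hVa a).stronglyMeasurableAtFilter _ _) (hVa a).continuousAt).const_add a
  refine h3.congr_of_eventuallyEq (Eventually.of_forall fun s => heq a s)

end Pool.Agent.MP_ecf4b9_an

end MrgPart0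

-- ======== part 1: formerly Pool.Agent.MP_ecf4b9_an.Stab
section MrgPart1

/-!
Stability and separation estimates for flows.
-/

open MeasureTheory Set Complex Filter Topology
open scoped ComplexConjugate

namespace Pool.Agent.MP_ecf4b9_an

variable {m : ℝ} {ω ω' : ℂ → ℝ} {X X' : ℝ → ℂ → ℂ}

lemma IsFlow.incomp (h : IsFlow ω X) (t : ℝ) : Incomp (X t) := Incomp.of_mp (h.mp t)

lemma IsFlow.lip (hω : Dat 1 m ω) (h : IsFlow ω X) (s t : ℝ) (a : ℂ) :
    ‖X t a - X s a‖ ≤ (13 + m) * |t - s| :=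
  Convex.norm_image_sub_le_of_norm_hasDerivWithin_le (s := univ) (f := fun s => X s a)
    (fun r _ => (h.deriv a r).hasDerivWithinAt) (fun r _ => norm_V_le hω (h.incomp r) _)
    convex_univ trivial trivial

lemma IsFlow.contV (hω : Dat 1 m ω) (h : IsFlow ω X) :
    Continuous (fun p : ℝ × ℂ => V ω (X p.1) p.2) :=
  continuous_V hω h.incomp (by have := hω.m_nonneg; positivity) (h.lip hω)

lemma IsFlow.cont_t (h : IsFlow ω X) (a : ℂ) : Continuous (fun s => X s a) :=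
  h.cont.comp (f := fun s : ℝ => (s, a)) (by fun_prop)

lemma IsFlow.cont_x (h : IsFlow ω X) (t : ℝ) : Continuous (X t) :=
  h.cont.comp (f := fun a : ℂ => (t, a)) (by fun_prop)

lemma IsFlow.contVa (hω : Dat 1 m ω) (h : IsFlow ω X) (a : ℂ) :
    Continuous (fun s => V ω (X s) (X s a)) :=
  (h.contV hω).comp (f := fun s : ℝ => (s, X s a)) (continuous_id.prodMk (h.cont_t a))

lemma IsFlow.congr (h : IsFlow ω X) (hae : ω =ᵐ[volume] ω') : IsFlow ω' X := by
  refine ⟨h.cont, h.mp, h.init, fun a t => ?_⟩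
  have : V ω' (X t) (X t a) = V ω (X t) (X t a) := by
    unfold V W
    congr 2
    refine integral_congr_ae ?_
    filter_upwards [hae] with b hb
    rw [hb]
  rw [this]
  exact h.deriv a t

lemma osgood' {ι : Type*} (F G : ι → ℝ → ℂ) {T K η η₁ η₂ : ℝ} (hK : 0 < K)
    (hb : ∃ B, ∀ i, ∀ t ∈ Icc 0 T, ‖F i t‖ ≤ B)
    (hd : ∀ i t, HasDerivAt (F i) (G i t) t) (hc : ∀ i, Continuous (G i))
    (hF : ∀ i, ‖F i 0‖ ≤ η₁)
    (hG : ∀ s ∈ Icc 0 T, ∀ σ D, 0 < σ → 1 ≤ -Real.log σ → (∀ j, ‖F j s‖ ≤ D) →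
      ∀ i, ‖G i s‖ ≤ η₂ + K * (σ + D) * (-Real.log σ))
    (hη₂ : 0 ≤ η₂) (hη : η₁ + T * η₂ ≤ η) (hη0 : 0 < η)
    (hsmall : 1 ≤ -Real.log η * Real.exp (-(2 * K * T))) :
    ∀ i, ∀ t ∈ Icc 0 T, ‖F i t‖ ≤ 3 * osg K η t := by
  refine osgood F G hK hb (fun i t _ => ?_) hG hη₂ hη hη0 hsmall
  rw [intervalIntegral.integral_eq_sub_of_hasDerivAt (fun s _ => hd i s)
    ((hc i).intervalIntegrable _ _)]
  simpa using hF i

lemma W_sub_data {A m' : ℝ} {Z : ℂ → ℂ} (hω : Dat 1 m ω) (hω' : Dat A m' ω') (hZ : Incomp Z)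
    (x : ℂ) : W ω Z x - W ω' Z x = W (fun b => ω b - ω' b) Z x := by
  unfold W
  rw [← integral_sub (W_int hω hZ x) (W_int hω' hZ x)]
  congr 1
  ext b
  push_cast
  ring

/-- the general stability estimate -/
lemma stab (hω : Dat 1 m ω) (hω' : Dat 1 m ω') (h : IsFlow ω X) (h' : IsFlow ω' X')
    (P : Set (ℂ × ℂ)) (hP : ∀ b, ω b ≠ 0 → (b, b) ∈ P) {T η η₁ η₂ : ℝ}
    (h1 : ∀ p ∈ P, ‖p.1 - p.2‖ ≤ η₁)
    (h2 : ∀ p ∈ P, ∀ s ∈ Icc 0 T, ‖W (fun b => ω b - ω' b) (X' s) (X' s p.2)‖ ≤ η₂)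
    (hη₂ : 0 ≤ η₂) (hη : η₁ + T * η₂ ≤ η) (hη0 : 0 < η)
    (hsmall : 1 ≤ -Real.log η * Real.exp (-(2 * KK m * T))) :
    ∀ p ∈ P, ∀ t ∈ Icc 0 T, ‖X t p.1 - X' t p.2‖ ≤ 3 * osg (KK m) η t := by
  intro p hp
  refine osgood' (ι := P) (fun p t => X t p.1.1 - X' t p.1.2)
    (fun p s => V ω (X s) (X s p.1.1) - V ω' (X' s) (X' s p.1.2)) (η₁ := η₁) (η₂ := η₂)
    (KK_pos hω.m_nonneg) ⟨η₁ + 2 * ((13 + m) * T), fun p t ht => ?_⟩
    (fun p t => (h.deriv _ t).sub (h'.deriv _ t)) (fun p => (h.contVa hω _).sub (h'.contVa hω' _))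
    (fun p => ?_) (fun s hs σ D hσ hσ1 hD p => ?_) hη₂ hη hη0 hsmall ⟨p, hp⟩
  · have a1 := h.lip hω 0 t p.1.1
    have a2 := h'.lip hω' 0 t p.1.2
    rw [h.init] at a1
    rw [h'.init] at a2
    rw [sub_zero, abs_of_nonneg ht.1] at a1 a2
    have a3 := h1 p.1 p.2
    have a4 : (13 + m) * t ≤ (13 + m) * T :=
      mul_le_mul_of_nonneg_left ht.2 (by have := hω.m_nonneg; positivity)
    have e : X t p.1.1 - X' t p.1.2 = (X t p.1.1 - p.1.1) + (p.1.1 - p.1.2) - (X' t p.1.2 - p.1.2) := by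
      ring
    rw [e]
    refine (norm_sub_le _ _).trans ?_
    have := norm_add_le (X t p.1.1 - p.1.1) (p.1.1 - p.1.2)
    linarith
  · simp only [h.init, h'.init]
    exact h1 p.1 p.2
  · have a1 := V_sub_V_le hω (h.incomp s) (h'.incomp s) hσ hσ1 (hD p)
      (fun b hb => hD ⟨(b, b), hP b hb⟩)
    have a2 := norm_V_sub_le_W ω ω' (X' s) (X' s) (X' s p.1.2) (X' s p.1.2)
    rw [W_sub_data hω hω' (h'.incomp s)] at a2
    have a3 := h2 p.1 p.2 s hs
    have a4 := norm_sub_le_norm_sub_add_norm_sub (V ω (X s) (X s p.1.1))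
      (V ω (X' s) (X' s p.1.2)) (V ω' (X' s) (X' s p.1.2))
    linarith

/-- continuity of trajectories in the data -/
lemma stab_data {T ε : ℝ} (hm : 0 ≤ m) (hT : 0 ≤ T) (hε : 0 < ε) :
    ∃ δ > 0, ∀ {ω ω' : ℂ → ℝ} {X X' : ℝ → ℂ → ℂ} {a a' : ℂ}, Dat 1 m ω → Dat 1 m ω' →
      IsFlow ω X → IsFlow ω' X' → ‖a - a'‖ ≤ δ → ∫ b, |ω b - ω' b| ≤ δ →
      ∀ t ∈ Icc 0 T, ‖X t a - X' t a'‖ ≤ ε := by
  obtain ⟨η, h0, h1⟩ := osg_small (T := T) (KK_pos hm) hε
  set σ := min 1 (η / (1 + 27 * T)) with hσ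
  have hσ0 : 0 < σ := by positivity
  have hσ1 : σ ≤ 1 := min_le_left _ _
  have hσ2 : σ * (1 + 27 * T) ≤ η := by
    rw [← le_div_iff₀ (by positivity)]; exact min_le_right _ _
  refine ⟨σ ^ 2, by positivity, fun {ω ω' X X' a a'} hω hω' h h' ha hd t ht => ?_⟩
  have hD : Dat 2 (σ ^ 2) (fun b => ω b - ω' b) :=
    ⟨hω.meas.sub hω'.meas, fun b => by
      have := abs_sub (ω b) (ω' b)
      linarith [hω.bdd b, hω'.bdd b], hω.int.sub hω'.int, hd⟩
  have := stab hω hω' h h' (insert (a, a') {p | p.1 = p.2}) (fun b _ => Or.inr rfl)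
    (T := T) (η := η) (η₁ := σ) (η₂ := 27 * σ) ?_ ?_ (by positivity) (by nlinarith) h0
    (h1 η h0 le_rfl).1 (a, a') (Or.inl rfl) t ht
  · exact this.trans ((h1 η h0 le_rfl).2 t ht.2)
  · rintro p (rfl | hp)
    · exact ha.trans (by nlinarith)
    · rw [show p.1 = p.2 from hp]; simpa using hσ0.le
  · intro p _ s _
    refine (norm_W_le hD (h'.incomp s) _ hσ0).trans (le_of_eq ?_)
    field_simp
    ring

/-- particles stay separated -/
lemma sep {T δ : ℝ} (hm : 0 ≤ m) (hδ : 0 < δ) :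
    ∃ δ₁ > 0, ∀ {ω : ℂ → ℝ} {X : ℝ → ℂ → ℂ}, Dat 1 m ω → IsFlow ω X → ∀ p q, δ ≤ ‖p - q‖ →
      ∀ t, |t| ≤ T → δ₁ ≤ ‖X t p - X t q‖ := by
  obtain ⟨η, h0, h1⟩ := osg_small (T := T) (KK_pos hm) (half_pos hδ)
  refine ⟨η, h0, fun {ω X} hω h p q hpq t ht => ?_⟩
  by_contra hcon
  have hlt := (not_le.1 hcon).le
  obtain ⟨e, he, he2⟩ : ∃ e : ℝ, |e| = 1 ∧ t + e * |t| = 0 := by
    rcases le_total 0 t with h | h
    · exact ⟨-1, by simp, by rw [abs_of_nonneg h]; ring⟩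
    · exact ⟨1, by simp, by rw [abs_of_nonpos h]; ring⟩
  have hT : 0 ≤ T := (abs_nonneg _).trans ht
  have hd : ∀ a s, HasDerivAt (fun s => X (t + e * s) a)
      (e • V ω (X (t + e * s)) (X (t + e * s) a)) s := fun a s => by
    have h2 : HasDerivAt (fun s : ℝ => t + e * s) e s := by
      simpa using ((hasDerivAt_id s).const_mul e).const_add t
    exact (h.deriv a (t + e * s)).scomp s h2
  have hc : ∀ a, Continuous (fun s => e • V ω (X (t + e * s)) (X (t + e * s) a)) := fun a =>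
    ((h.contVa hω a).comp (f := fun s : ℝ => t + e * s) (by fun_prop)).const_smul e
  have := osgood' (ι := Unit) (fun _ s => X (t + e * s) p - X (t + e * s) q)
    (fun _ s => e • V ω (X (t + e * s)) (X (t + e * s) p) -
      e • V ω (X (t + e * s)) (X (t + e * s) q)) (T := T) (η := η) (η₁ := η) (η₂ := 0)
    (KK_pos hm) ⟨η + 2 * ((13 + m) * T), fun _ s hs => ?_⟩
    (fun _ s => (hd p s).sub (hd q s)) (fun _ => (hc p).sub (hc q))
    (fun _ => by simpa using hlt) (fun s hs σ D hσ hσ1 hD _ => ?_) le_rfl (by simp) h0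
    (h1 η h0 le_rfl).1 () |t| ⟨abs_nonneg _, ht⟩
  · simp only [he2, h.init] at this
    have := this.trans ((h1 η h0 le_rfl).2 _ ht)
    linarith
  · have a1 := h.lip hω t (t + e * s) p
    have a2 := h.lip hω t (t + e * s) q
    rw [add_sub_cancel_left, abs_mul, he, one_mul, abs_of_nonneg hs.1] at a1 a2
    have a4 : (13 + m) * s ≤ (13 + m) * T := mul_le_mul_of_nonneg_left hs.2 (by positivity)
    have e1 : X (t + e * s) p - X (t + e * s) q =
        (X (t + e * s) p - X t p) + (X t p - X t q) - (X (t + e * s) q - X t q) := by ring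
    rw [e1]
    refine (norm_sub_le _ _).trans ?_
    have := norm_add_le (X (t + e * s) p - X t p) (X t p - X t q)
    linarith
  · rw [← smul_sub, norm_smul, Real.norm_eq_abs, he, one_mul, zero_add]
    exact V_sub_V_le hω (h.incomp _) (h.incomp _) hσ hσ1 (hD ())
      (fun b _ => by simpa using (norm_nonneg _).trans (hD ()))

lemma IsFlow.inj (hω : Dat 1 m ω) (h : IsFlow ω X) (t : ℝ) : Function.Injective (X t) := by
  intro p q hpq
  by_contra hne
  obtain ⟨δ₁, h0, h1⟩ := sep (T := |t|) hω.m_nonneg (norm_pos_iff.2 (sub_ne_zero.2 hne))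
  have := h1 hω h p q le_rfl t le_rfl
  rw [hpq, sub_self, norm_zero] at this
  linarith

end Pool.Agent.MP_ecf4b9_an

end MrgPart1

-- ======== part 2: formerly Pool.Agent.MP_ecf4b9_an.Lin
section MrgPart2

/-!
Linearisation of the velocity away from the support, and linear ordinary differential equations.
-/

open MeasureTheory Set Complex Filter Topology
open scoped ComplexConjugate

namespace Pool.Agent.MP_ecf4b9_an

/-- the complex derivative of the Cauchy transform, up to sign -/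
noncomputable def J (ω : ℂ → ℝ) (Z : ℂ → ℂ) (x : ℂ) : ℂ := ∫ b, (ω b : ℂ) * ((x - Z b)⁻¹) ^ 2

/-- the strain -/
noncomputable def st (ω : ℂ → ℝ) (Z : ℂ → ℂ) (x : ℂ) : ℂ := -cc * conj (J ω Z x)

lemma norm_inv_le {δ : ℝ} (hδ : 0 < δ) {p : ℂ} (hp : δ ≤ ‖p‖) : ‖p⁻¹‖ ≤ δ⁻¹ := by
  rw [norm_inv]; exact inv_anti₀ hδ hp

lemma J_pointwise {δ : ℝ} (hδ : 0 < δ) {w : ℝ} {p : ℂ} (hp : w ≠ 0 → δ ≤ ‖p‖) :
    ‖(w : ℂ) * (p⁻¹) ^ 2‖ ≤ |w| * δ⁻¹ ^ 2 := by
  by_cases hw : w = 0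
  · simp [hw]
  · rw [norm_mul, Complex.norm_real, Real.norm_eq_abs, norm_pow]
    gcongr
    exact norm_inv_le hδ (hp hw)

lemma J_int {A m δ : ℝ} {ω : ℂ → ℝ} {Z : ℂ → ℂ} {x : ℂ} (hω : Dat A m ω) (hZ : Measurable Z)
    (hδ : 0 < δ) (h : ∀ b, ω b ≠ 0 → δ ≤ ‖x - Z b‖) :
    Integrable (fun b => (ω b : ℂ) * ((x - Z b)⁻¹) ^ 2) :=
  Integrable.mono' (hω.int.abs.mul_const _) ((Complex.measurable_ofReal.comp hω.meas).mul
    ((measurable_const.sub hZ).inv.pow_const 2)).aestronglyMeasurable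
    (Eventually.of_forall fun b => J_pointwise hδ (h b))

lemma norm_st_le {A m δ : ℝ} {ω : ℂ → ℝ} {Z : ℂ → ℂ} {x : ℂ} (hω : Dat A m ω)
    (hδ : 0 < δ) (h : ∀ b, ω b ≠ 0 → δ ≤ ‖x - Z b‖) : ‖st ω Z x‖ ≤ m * δ⁻¹ ^ 2 := by
  unfold st
  rw [neg_mul, norm_neg]
  refine (norm_cc_conj_le _).trans ((norm_integral_le_of_norm_le (hω.int.abs.mul_const _)
    (Eventually.of_forall fun b => J_pointwise hδ (h b))).trans ?_)
  rw [integral_mul_const]
  exact mul_le_mul_of_nonneg_right hω.mass (by positivity)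

lemma W_far {A m δ : ℝ} {ω : ℂ → ℝ} {Z : ℂ → ℂ} {x : ℂ} (hω : Dat A m ω)
    (hδ : 0 < δ) (h : ∀ b, ω b ≠ 0 → δ ≤ ‖x - Z b‖) : ‖W ω Z x‖ ≤ m * δ⁻¹ := by
  refine (norm_integral_le_of_norm_le (hω.int.abs.mul_const δ⁻¹)
    (Eventually.of_forall fun b => ?_)).trans ?_
  · by_cases hw : ω b = 0
    · simp [hw]
    · rw [norm_mul, Complex.norm_real, Real.norm_eq_abs]
      gcongr
      exact norm_inv_le hδ (h b hw)
  · rw [integral_mul_const]
    exact mul_le_mul_of_nonneg_right hω.mass (by positivity)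

lemma expand_pt {δ D₁ D₂ : ℝ} (hδ : 0 < δ) {p q₁ q₂ y : ℂ} (hp : δ ≤ ‖p‖) (h₁ : δ ≤ ‖q₁‖)
    (h₂ : δ ≤ ‖q₂‖) (a : ‖q₁ - q₂ - y‖ ≤ D₁) (b₁ : ‖q₁ - p‖ ≤ D₂) (b₂ : ‖q₂ - p‖ ≤ D₂) :
    ‖q₁⁻¹ - q₂⁻¹ + y * (p⁻¹) ^ 2‖ ≤ D₁ * δ⁻¹ ^ 2 + 2 * ‖y‖ * D₂ * δ⁻¹ ^ 3 := by
  have hp0 : p ≠ 0 := norm_pos_iff.1 (hδ.trans_le hp)
  have h10 : q₁ ≠ 0 := norm_pos_iff.1 (hδ.trans_le h₁)
  have h20 : q₂ ≠ 0 := norm_pos_iff.1 (hδ.trans_le h₂)
  have e : q₁⁻¹ - q₂⁻¹ + y * (p⁻¹) ^ 2 = -((q₁ - q₂ - y) * q₁⁻¹ * q₂⁻¹) +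
      (y * (q₂ - p) * q₁⁻¹ * q₂⁻¹ * p⁻¹ + y * (q₁ - p) * q₁⁻¹ * p⁻¹ * p⁻¹) := by
    field_simp
    ring
  have i₁ := norm_inv_le hδ h₁
  have i₂ := norm_inv_le hδ h₂
  have i₃ := norm_inv_le hδ hp
  have hD₁ : 0 ≤ D₁ := (norm_nonneg _).trans a
  have hD₂ : 0 ≤ D₂ := (norm_nonneg _).trans b₁
  have c1 : ‖-((q₁ - q₂ - y) * q₁⁻¹ * q₂⁻¹)‖ ≤ D₁ * δ⁻¹ * δ⁻¹ := by
    rw [norm_neg, norm_mul, norm_mul]; gcongr
  have c2 : ‖y * (q₂ - p) * q₁⁻¹ * q₂⁻¹ * p⁻¹‖ ≤ ‖y‖ * D₂ * δ⁻¹ * δ⁻¹ * δ⁻¹ := by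
    rw [norm_mul, norm_mul, norm_mul, norm_mul]; gcongr
  have c3 : ‖y * (q₁ - p) * q₁⁻¹ * p⁻¹ * p⁻¹‖ ≤ ‖y‖ * D₂ * δ⁻¹ * δ⁻¹ * δ⁻¹ := by
    rw [norm_mul, norm_mul, norm_mul, norm_mul]; gcongr
  rw [e]
  refine (norm_add_le _ _).trans ?_
  have := norm_add_le (y * (q₂ - p) * q₁⁻¹ * q₂⁻¹ * p⁻¹) (y * (q₁ - p) * q₁⁻¹ * p⁻¹ * p⁻¹)
  nlinarith

lemma expand {m δ D₁ D₂ : ℝ} {ω : ℂ → ℝ} {Z Z₁ Z₂ : ℂ → ℂ} {x x₁ x₂ y : ℂ} (hω : Dat 1 m ω)
    (hZ : Incomp Z) (hZ₁ : Incomp Z₁) (hZ₂ : Incomp Z₂) (hδ : 0 < δ) (hD₁ : 0 ≤ D₁) (hD₂ : 0 ≤ D₂)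
    (hp : ∀ b, ω b ≠ 0 → δ ≤ ‖x - Z b‖) (h₁ : ∀ b, ω b ≠ 0 → δ ≤ ‖x₁ - Z₁ b‖)
    (h₂ : ∀ b, ω b ≠ 0 → δ ≤ ‖x₂ - Z₂ b‖)
    (a : ∀ b, ω b ≠ 0 → ‖(x₁ - Z₁ b) - (x₂ - Z₂ b) - y‖ ≤ D₁)
    (b₁ : ∀ b, ω b ≠ 0 → ‖(x₁ - Z₁ b) - (x - Z b)‖ ≤ D₂)
    (b₂ : ∀ b, ω b ≠ 0 → ‖(x₂ - Z₂ b) - (x - Z b)‖ ≤ D₂) :
    ‖V ω Z₁ x₁ - V ω Z₂ x₂ - st ω Z x * conj y‖ ≤
      m * δ⁻¹ ^ 2 * D₁ + 2 * (m * δ⁻¹ ^ 3) * ‖y‖ * D₂ := by
  have e : V ω Z₁ x₁ - V ω Z₂ x₂ - st ω Z x * conj y =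
      cc * conj (W ω Z₁ x₁ - W ω Z₂ x₂ + y * J ω Z x) := by
    simp only [V, st, map_add, map_sub, map_mul]; ring
  rw [e]
  refine (norm_cc_conj_le _).trans ?_
  have i₁ : Integrable (fun b => (ω b : ℂ) * (x₁ - Z₁ b)⁻¹ - (ω b : ℂ) * (x₂ - Z₂ b)⁻¹) :=
    (W_int hω hZ₁ x₁).sub (W_int hω hZ₂ x₂)
  unfold W J
  rw [← integral_sub (W_int hω hZ₁ x₁) (W_int hω hZ₂ x₂), ← integral_const_mul,
    ← integral_add i₁ ((J_int hω hZ.meas hδ hp).const_mul y)]
  refine (norm_integral_le_of_norm_le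
    (hω.int.abs.mul_const (D₁ * δ⁻¹ ^ 2 + 2 * ‖y‖ * D₂ * δ⁻¹ ^ 3))
    (Eventually.of_forall fun b => ?_)).trans ?_
  · by_cases hw : ω b = 0
    · simp [hw]
    · have e2 : (ω b : ℂ) * (x₁ - Z₁ b)⁻¹ - (ω b : ℂ) * (x₂ - Z₂ b)⁻¹ +
          y * ((ω b : ℂ) * ((x - Z b)⁻¹) ^ 2) =
          (ω b : ℂ) * ((x₁ - Z₁ b)⁻¹ - (x₂ - Z₂ b)⁻¹ + y * ((x - Z b)⁻¹) ^ 2) := by ring
      rw [e2, norm_mul, Complex.norm_real, Real.norm_eq_abs]
      exact mul_le_mul_of_nonneg_left (expand_pt hδ (hp b hw) (h₁ b hw) (h₂ b hw) (a b hw)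
        (b₁ b hw) (b₂ b hw)) (abs_nonneg _)
  · rw [integral_mul_const]
    refine (mul_le_mul_of_nonneg_right hω.mass (by positivity)).trans (le_of_eq ?_)
    ring

lemma V_lip {m δ D : ℝ} {ω : ℂ → ℝ} {Z₁ Z₂ : ℂ → ℂ} {x₁ x₂ : ℂ} (hω : Dat 1 m ω)
    (hZ₁ : Incomp Z₁) (hZ₂ : Incomp Z₂) (hδ : 0 < δ) (hD : 0 ≤ D)
    (h₁ : ∀ b, ω b ≠ 0 → δ ≤ ‖x₁ - Z₁ b‖) (h₂ : ∀ b, ω b ≠ 0 → δ ≤ ‖x₂ - Z₂ b‖)
    (a : ∀ b, ω b ≠ 0 → ‖(x₁ - Z₁ b) - (x₂ - Z₂ b)‖ ≤ D) :
    ‖V ω Z₁ x₁ - V ω Z₂ x₂‖ ≤ m * δ⁻¹ ^ 2 * D := by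
  have := expand (y := 0) hω hZ₂ hZ₁ hZ₂ hδ hD hD h₂ h₁ h₂ (by simpa using a) a
    (fun b _ => by simpa using hD)
  simpa using this

lemma V_add {m m' : ℝ} {ω ω' : ℂ → ℝ} {Z : ℂ → ℂ} (hω : Dat 1 m ω) (hω' : Dat 1 m' ω')
    (hZ : Incomp Z) (x : ℂ) : V (fun b => ω b + ω' b) Z x = V ω Z x + V ω' Z x := by
  unfold V W
  rw [← mul_add, ← map_add, ← integral_add (W_int hω hZ x) (W_int hω' hZ x)]
  congr 3
  ext b
  push_cast
  ring

lemma gron' {f f' : ℝ → ℂ} {T L ε : ℝ} (hT : T ≤ 1) (hL : 0 ≤ L)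
    (hc : ContinuousOn f (Icc 0 T)) (hd : ∀ t ∈ Ioo 0 T, HasDerivAt f (f' t) t)
    (h0 : ‖f 0‖ ≤ ε) (hb : ∀ t ∈ Ioo 0 T, ‖f' t‖ ≤ L * ‖f t‖ + ε) :
    ∀ t ∈ Icc 0 T, ‖f t‖ ≤ 2 * Real.exp L * ε := by
  intro t ht
  have hε : 0 ≤ ε := (norm_nonneg _).trans h0
  have he : 1 ≤ Real.exp L := Real.one_le_exp hL
  rcases ht.1.eq_or_lt with h | h
  · rw [← h]; nlinarith
  refine le_of_forall_pos_le_add fun η hη => ?_
  set η' := η / (2 * Real.exp L) with hη'
  have hη'0 : 0 < η' := by positivity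
  have hT0 : 0 < T := h.trans_le ht.2
  have h1 : ∀ᶠ τ in 𝓝[Icc 0 T] 0, ‖f τ‖ < ε + η' :=
    (hc 0 ⟨le_rfl, hT0.le⟩).norm.eventually (gt_mem_nhds (by linarith))
  have h2 : ∀ᶠ τ in 𝓝[>] 0, ‖f τ‖ < ε + η' :=
    h1.filter_mono (nhdsWithin_le_iff.2 (mem_of_superset (Ioo_mem_nhdsGT hT0) Ioo_subset_Icc_self))
  obtain ⟨τ, h3, h4⟩ := (h2.and (Ioo_mem_nhdsGT h)).exists
  have h5 := gron (f := fun u => f (τ + u)) (f' := fun u => f' (τ + u)) (T := T - τ) (L := L)
    (ε := ε + η') (by linarith [h4.1]) hL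
    (hc.comp (by fun_prop) fun u hu => ⟨by linarith [hu.1, h4.1], by linarith [hu.2]⟩)
    (fun u hu => ((hd (τ + u) ⟨by linarith [hu.1, h4.1], by linarith [hu.2]⟩).comp_const_add
      τ u).hasDerivWithinAt) (by simpa using h3.le)
    (fun u hu => (hb (τ + u) ⟨by linarith [hu.1, h4.1], by linarith [hu.2]⟩).trans (by linarith))
    (t - τ) ⟨by linarith [h4.2], by linarith [ht.2]⟩
  simp only [add_sub_cancel] at h5
  refine h5.trans (le_of_eq ?_)
  rw [hη']
  field_simp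

lemma ode_limit {T L A : ℝ} (hT : T ≤ 1) (hT0 : 0 ≤ T) {s g : ℝ → ℂ} {e : ℂ}
    (hs : ∀ t ∈ Icc 0 T, ‖s t‖ ≤ L) {f f' : ℕ → ℝ → ℂ} (hd : ∀ j t, HasDerivAt (f j) (f' j t) t)
    (h0 : ∀ j, f j 0 = e)
    (he : ∀ j, ∀ t ∈ Icc 0 T, ‖f' j t - (s t * conj (f j t) + g t)‖ ≤ A * (1 / 2) ^ j) :
    ∃ F : ℝ → ℂ, ContinuousOn F (Icc 0 T) ∧ F 0 = e ∧
      (∀ t ∈ Ioo 0 T, HasDerivAt F (s t * conj (F t) + g t) t) ∧
      ∀ j, ∀ t ∈ Icc 0 T, ‖f j t - F t‖ ≤ 2 * Real.exp L * A * (1 / 2) ^ j := by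
  have hL : 0 ≤ L := (norm_nonneg _).trans (hs 0 ⟨le_rfl, hT0⟩)
  have hA : 0 ≤ A := by simpa using (norm_nonneg _).trans (he 0 0 ⟨le_rfl, hT0⟩)
  have hc : ∀ j, Continuous (f j) := fun j =>
    continuous_iff_continuousAt.2 fun t => (hd j t).continuousAt
  have h1 : ∀ j k, ∀ t ∈ Icc 0 T, ‖f j t - f k t‖ ≤
      2 * Real.exp L * (A * (1 / 2) ^ j + A * (1 / 2) ^ k) := by
    intro j k
    refine gron' (f' := fun t => f' j t - f' k t) hT hL ((hc j).sub (hc k)).continuousOn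
      (fun t _ => (hd j t).sub (hd k t)) (by rw [h0, h0, sub_self, norm_zero]; positivity)
      fun t ht => ?_
    have ht' := Ioo_subset_Icc_self ht
    have e1 : f' j t - f' k t = s t * conj (f j t - f k t) +
        ((f' j t - (s t * conj (f j t) + g t)) - (f' k t - (s t * conj (f k t) + g t))) := by
      rw [map_sub]; ring
    rw [e1]
    refine (norm_add_le _ _).trans (add_le_add ?_ ((norm_sub_le _ _).trans
      (add_le_add (he j t ht') (he k t ht'))))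
    rw [norm_mul, Complex.norm_conj]
    exact mul_le_mul_of_nonneg_right (hs t ht') (norm_nonneg _)
  have hz : Tendsto (fun j : ℕ => (1 / 2 : ℝ) ^ j) atTop (𝓝 0) :=
    tendsto_pow_atTop_nhds_zero_of_lt_one (by norm_num) (by norm_num)
  have hcau : ∀ t ∈ Icc 0 T, CauchySeq (fun j => f j t) := by
    intro t ht
    refine cauchySeq_of_le_tendsto_0' (fun j => 2 * Real.exp L * (2 * A * (1 / 2) ^ j))
      (fun j k hjk => ?_) ?_
    · rw [dist_eq_norm]
      refine (h1 j k t ht).trans ?_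
      have : (1 / 2 : ℝ) ^ k ≤ (1 / 2) ^ j := pow_le_pow_of_le_one (by norm_num) (by norm_num) hjk
      have h2 : A * (1 / 2 : ℝ) ^ k ≤ A * (1 / 2) ^ j := mul_le_mul_of_nonneg_left this hA
      gcongr
      linarith
    · simpa using (hz.const_mul (2 * A)).const_mul (2 * Real.exp L)
  set F : ℝ → ℂ := fun t => limUnder atTop (fun j => f j t) with hF
  have hlim : ∀ t ∈ Icc 0 T, Tendsto (fun j => f j t) atTop (𝓝 (F t)) := fun t ht =>
    (hcau t ht).tendsto_limUnder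
  have h2 : ∀ j, ∀ t ∈ Icc 0 T, ‖f j t - F t‖ ≤ 2 * Real.exp L * A * (1 / 2) ^ j := by
    intro j t ht
    have a1 := ((hlim t ht).const_sub (f j t)).norm
    have a2 := ((hz.const_mul A).const_add (A * (1 / 2) ^ j)).const_mul (2 * Real.exp L)
    have := le_of_tendsto_of_tendsto' a1 a2 (fun k => h1 j k t ht)
    linarith
  have unif : ∀ {u : ℕ → ℝ → ℂ} {U : ℝ → ℂ} {C : ℝ} {S : Set ℝ},
      (∀ j, ∀ t ∈ S, ‖u j t - U t‖ ≤ C * (1 / 2) ^ j) → TendstoUniformlyOn u U atTop S := by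
    intro u U C S h
    refine Metric.tendstoUniformlyOn_iff.2 fun ε hε => ?_
    have a1 : Tendsto (fun j : ℕ => C * (1 / 2 : ℝ) ^ j) atTop (𝓝 0) := by
      simpa using hz.const_mul C
    filter_upwards [a1.eventually (gt_mem_nhds hε)] with j hj t ht
    rw [dist_comm, dist_eq_norm]
    exact (h j t ht).trans_lt hj
  refine ⟨F, (unif h2).continuousOn (Frequently.of_forall fun j => (hc j).continuousOn), ?_,
    fun t ht => ?_, h2⟩
  · have := hlim 0 ⟨le_rfl, hT0⟩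
    simp only [h0] at this
    exact (tendsto_nhds_unique tendsto_const_nhds this).symm
  · refine hasDerivAt_of_tendstoUniformlyOn (g' := fun t => s t * conj (F t) + g t) (f' := f')
      isOpen_Ioo (unif (C := A + L * (2 * Real.exp L * A)) fun j t ht => ?_)
      (Eventually.of_forall fun j t _ => hd j t)
      (fun t ht => hlim t (Ioo_subset_Icc_self ht)) ht
    have ht' := Ioo_subset_Icc_self ht
    have e1 : f' j t - (s t * conj (F t) + g t) = (f' j t - (s t * conj (f j t) + g t)) +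
        s t * conj (f j t - F t) := by rw [map_sub]; ring
    rw [e1]
    refine (norm_add_le _ _).trans ?_
    rw [norm_mul, Complex.norm_conj]
    have a1 := he j t ht'
    have a2 := mul_le_mul (hs t ht') (h2 j t ht') (norm_nonneg _) hL
    linarith

lemma det_const {T : ℝ} (hT : T ≤ 1) {s y₁ y₂ : ℝ → ℂ} (c₁ : ContinuousOn y₁ (Icc 0 T))
    (c₂ : ContinuousOn y₂ (Icc 0 T))
    (d₁ : ∀ t ∈ Ioo 0 T, HasDerivAt y₁ (s t * conj (y₁ t)) t)
    (d₂ : ∀ t ∈ Ioo 0 T, HasDerivAt y₂ (s t * conj (y₂ t)) t) (i₁ : y₁ 0 = 1) (i₂ : y₂ 0 = I) :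
    ∀ t ∈ Icc 0 T, conj (y₁ t) * y₂ t - y₁ t * conj (y₂ t) = 2 * I := by
  intro t ht
  have := gron' (f := fun t => conj (y₁ t) * y₂ t - y₁ t * conj (y₂ t) - 2 * I) (f' := fun _ => 0)
    (L := 0) (ε := 0) hT le_rfl
    ((((continuous_conj.comp_continuousOn c₁).mul c₂).sub
      (c₁.mul (continuous_conj.comp_continuousOn c₂))).sub continuousOn_const)
    (fun t ht => ?_) (by simp only [i₁, i₂, map_one, conj_I]; ring_nf; simp) (by simp) t ht
  · simpa [sub_eq_zero] using this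
  · have a := ((((d₁ t ht).star).mul (d₂ t ht)).sub ((d₁ t ht).mul (d₂ t ht).star)).sub_const (2 * I)
    refine a.congr_deriv ?_
    simp only [star_def, map_mul, conj_conj]
    ring

lemma ne_zero_of_det {y₁ y₂ e : ℂ} (h : conj y₁ * y₂ - y₁ * conj y₂ = 2 * I) (he : ‖e‖ = 1) :
    e.re * y₁ + e.im * y₂ ≠ 0 := by
  intro h0
  have h1 : e.re * conj y₁ + e.im * conj y₂ = 0 := by simpa using congrArg conj h0
  have h2 : (e.re : ℂ) * (2 * I) = 0 := by linear_combination -e.re * h + y₂ * h1 - conj y₂ * h0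
  have h3 : (e.im : ℂ) * (2 * I) = 0 := by linear_combination -e.im * h - y₁ * h1 + conj y₁ * h0
  have hI : (2 * I : ℂ) ≠ 0 := by simp
  have h4 : e.re = 0 := by exact_mod_cast (mul_eq_zero.1 h2).resolve_right hI
  have h5 : e.im = 0 := by exact_mod_cast (mul_eq_zero.1 h3).resolve_right hI
  have : e = 0 := Complex.ext h4 h5
  rw [this, norm_zero] at he
  exact zero_ne_one he

end Pool.Agent.MP_ecf4b9_an

end MrgPart2

-- ======== part 3: formerly Pool.Agent.MP_ecf4b9_an.Holo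
section MrgPart3

/-!
Complex analytic tools: uniform analyticity, a two constants argument, and the final
Schwarz lemma argument.
-/

open Set Complex Filter Topology Metric
open scoped ComplexConjugate

namespace Pool.Agent.MP_ecf4b9_an

/-- `f` is given on `[0, 1 / (2 R)]` by a power series with coefficients bounded by `R ^ (k+1)` -/
def Ext (R : ℝ) (f : ℝ → ℂ) : Prop :=
  ∃ c : ℕ → ℂ, (∀ k, ‖c k‖ ≤ R ^ (k + 1)) ∧
    ∀ t ∈ Icc (0 : ℝ) (1 / (2 * R)), f t = ∑' k, c k * (t : ℂ) ^ k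

/-- `f` extends from `[0, r)` to a holomorphic function on the disc bounded by `B` -/
def Hol (r B : ℝ) (f : ℝ → ℂ) : Prop :=
  ∃ G : ℂ → ℂ, DifferentiableOn ℂ G (ball 0 r) ∧ (∀ z ∈ ball (0 : ℂ) r, ‖G z‖ ≤ B) ∧
    ∀ t : ℝ, 0 ≤ t → t < r → G t = f t

/-- `f` extends from `[0, r)` to a holomorphic function on the disc -/
def Hol' (r : ℝ) (f : ℝ → ℂ) : Prop :=
  ∃ G : ℂ → ℂ, DifferentiableOn ℂ G (ball 0 r) ∧ ∀ t : ℝ, 0 ≤ t → t < r → G t = f t

lemma ext_of_analytic {f : ℝ → ℂ} (hf : AnalyticAt ℝ f 0) : ∃ n : ℕ, Ext (n + 1) f := by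
  obtain ⟨p, r, hp⟩ := hf
  obtain ⟨ρ, h0, h1⟩ := ENNReal.lt_iff_exists_nnreal_btwn.1 hp.r_pos
  have hρ : (0 : ℝ) < ρ := by exact_mod_cast h0
  obtain ⟨C, hC, hb⟩ := p.norm_mul_pow_le_of_lt_radius (h1.trans_le hp.r_le)
  obtain ⟨n, hn⟩ := exists_nat_ge (max C (1 / ρ))
  have h2 : C ≤ n + 1 := by linarith [le_max_left C (1 / ρ)]
  have h3 : 1 ≤ (n + 1) * (ρ : ℝ) := by
    have := (le_max_right C (1 / ρ)).trans hn
    rw [div_le_iff₀ hρ] at this
    nlinarith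
  refine ⟨n, fun k => p.coeff k, fun k => ?_, fun t ht => ?_⟩
  · rw [← FormalMultilinearSeries.norm_apply_eq_norm_coef]
    have h4 := hb k
    have h5 : (1 : ℝ) ≤ ((n + 1) * (ρ : ℝ)) ^ k := one_le_pow₀ h3
    calc ‖p k‖ ≤ ‖p k‖ * ((n + 1) * (ρ : ℝ)) ^ k := le_mul_of_one_le_right (norm_nonneg _) h5
      _ = (n + 1) ^ k * (‖p k‖ * (ρ : ℝ) ^ k) := by rw [mul_pow]; ring
      _ ≤ (n + 1) ^ k * (n + 1) := by gcongr; exact h4.trans h2
      _ = _ := by ring
  · have h4 : t < ρ := by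
      refine ht.2.trans_lt ?_
      rw [div_lt_iff₀ (by positivity)]
      nlinarith
    have h5 : t ∈ Metric.eball (0 : ℝ) r := by
      refine Metric.eball_subset_eball h1.le ?_
      rw [Metric.eball_coe, mem_ball_zero_iff, Real.norm_eq_abs, abs_of_nonneg ht.1]
      exact h4
    have h6 := (hp.hasSum h5).tsum_eq
    rw [zero_add] at h6
    rw [← h6]
    congr 1
    ext k
    rw [FormalMultilinearSeries.apply_eq_pow_smul_coeff, real_smul]
    push_cast
    ring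

lemma term_le {R : ℝ} (hR : 0 < R) {c z : ℂ} {k : ℕ} (hc : ‖c‖ ≤ R ^ (k + 1))
    (hz : ‖z‖ ≤ 1 / (2 * R)) : ‖c * z ^ k‖ ≤ R * (1 / 2) ^ k := by
  rw [norm_mul, norm_pow]
  calc ‖c‖ * ‖z‖ ^ k ≤ R ^ (k + 1) * (1 / (2 * R)) ^ k := by gcongr
    _ = R * (R * (1 / (2 * R))) ^ k := by rw [mul_pow]; ring
    _ = R * (1 / 2) ^ k := by congr 2; field_simp

lemma isClosed_ext {P : Type*} [TopologicalSpace P] {R : ℝ} (hR : 0 < R) {x : P → ℝ → ℂ}
    (hx : ∀ t ∈ Icc (0 : ℝ) (1 / (2 * R)), Continuous (fun p => x p t)) :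
    IsClosed {p | Ext R (x p)} := by
  set K : Set (ℕ → ℂ) := Set.pi univ (fun k => closedBall (0 : ℂ) (R ^ (k + 1))) with hK
  have hKc : IsCompact K := isCompact_univ_pi fun k => isCompact_closedBall _ _
  have : CompactSpace K := isCompact_iff_compactSpace.1 hKc
  have hZ : IsClosed {q : K × P | ∀ t ∈ Icc (0 : ℝ) (1 / (2 * R)),
      x q.2 t = ∑' k, q.1.1 k * (t : ℂ) ^ k} := by
    simp only [Set.ofPred_forall]
    refine isClosed_iInter fun t => isClosed_iInter fun ht => ?_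
    refine isClosed_eq ((hx t ht).comp continuous_snd) ?_
    refine continuous_tsum (u := fun k => R * (1 / 2) ^ k) (fun k =>
      ((continuous_apply k).comp (continuous_subtype_val.comp continuous_fst)).mul continuous_const)
      (summable_geometric_two.mul_left R) fun k q => ?_
    refine term_le hR (by simpa using q.1.2 k trivial) ?_
    rw [Complex.norm_real, Real.norm_eq_abs, abs_of_nonneg ht.1]
    exact ht.2
  convert isClosedMap_snd_of_compactSpace _ hZ using 1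
  ext p
  constructor
  · rintro ⟨c, hc, h⟩
    exact ⟨(⟨c, fun k _ => by simpa using hc k⟩, p), h, rfl⟩
  · rintro ⟨q, h, rfl⟩
    exact ⟨q.1.1, fun k => by simpa using q.1.2 k trivial, h⟩

lemma Ext.hol {R : ℝ} (hR : 0 < R) {f : ℝ → ℂ} (h : Ext R f) : Hol (1 / (2 * R)) (2 * R) f := by
  obtain ⟨c, hc, h⟩ := h
  have hb : ∀ k, ∀ z ∈ ball (0 : ℂ) (1 / (2 * R)), ‖c k * z ^ k‖ ≤ R * (1 / 2) ^ k :=
    fun k z hz => term_le hR (hc k) (mem_ball_zero_iff.1 hz).le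
  refine ⟨fun z => ∑' k, c k * z ^ k, differentiableOn_tsum_of_summable_norm
    (summable_geometric_two.mul_left R) (fun k => by fun_prop) isOpen_ball hb, fun z hz => ?_,
    fun t h0 h1 => (h t ⟨h0, h1.le⟩).symm⟩
  have := tsum_of_norm_bounded (hasSum_geometric_two.mul_left R) (fun k => hb k z hz)
  linarith

lemma Hol.lin {r B B' : ℝ} {f g : ℝ → ℂ} (hf : Hol r B f) (hg : Hol r B' g) (c : ℂ) :
    Hol r (‖c‖ * (B + B')) (fun t => c * (f t - g t)) := by
  obtain ⟨F, hF, hFb, hFe⟩ := hf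
  obtain ⟨G, hG, hGb, hGe⟩ := hg
  refine ⟨fun z => c * (F z - G z), (hF.sub hG).const_mul c, fun z hz => ?_, fun t h0 h1 => ?_⟩
  · rw [norm_mul]
    exact mul_le_mul_of_nonneg_left ((norm_sub_le _ _).trans (add_le_add (hFb z hz) (hGb z hz)))
      (norm_nonneg _)
  · simp only [hFe t h0 h1, hGe t h0 h1]

lemma Hol.mono {r B B' : ℝ} {f : ℝ → ℂ} (hf : Hol r B f) (h : B ≤ B') : Hol r B' f := by
  obtain ⟨F, hF, hFb, hFe⟩ := hf
  exact ⟨F, hF, fun z hz => (hFb z hz).trans h, hFe⟩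

lemma exists_cosh {c : ℝ} (hc : 0 < c) {z : ℂ} (hz : ‖z‖ < c / 1000) :
    ∃ ζ : ℂ, 0 ≤ ζ.re ∧ ζ.re ≤ 1 / 14 ∧ (c / 2 : ℝ) * (1 - cosh ζ) = z := by
  set q : ℂ := 1 - 2 * z / c with hq
  have hc' : (c : ℂ) ≠ 0 := by exact_mod_cast hc.ne'
  obtain ⟨s, hs⟩ := IsAlgClosed.exists_pow_nat_eq (q ^ 2 - 1) two_pos
  obtain ⟨w, hw1, hw2, hw3⟩ : ∃ w : ℂ, 1 ≤ ‖w‖ ∧ w ≠ 0 ∧ w + w⁻¹ = 2 * q := by
    have hp : (q + s) * (q - s) = 1 := by linear_combination -hs
    have h1 : q + s ≠ 0 := left_ne_zero_of_mul_eq_one hp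
    have h2 : q - s ≠ 0 := right_ne_zero_of_mul_eq_one hp
    by_cases h : 1 ≤ ‖q + s‖
    · exact ⟨q + s, h, h1, by rw [← eq_inv_of_mul_eq_one_right hp]; ring⟩
    · refine ⟨q - s, ?_, h2, by rw [← eq_inv_of_mul_eq_one_left hp]; ring⟩
      have h3 : ‖q + s‖ * ‖q - s‖ = 1 := by rw [← norm_mul, hp, norm_one]
      by_contra h4
      have := mul_lt_one_of_nonneg_of_lt_one_left (norm_nonneg _) (not_le.1 h) (not_le.1 h4).le
      linarith
  refine ⟨Complex.log w, ?_, ?_, ?_⟩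
  · rw [Complex.log_re]; exact Real.log_nonneg hw1
  · rw [Complex.log_re]
    have h1 : (w - 1) ^ 2 = -(4 * z / c) * w := by
      have : w * w⁻¹ = 1 := mul_inv_cancel₀ hw2
      have h : w * (w + w⁻¹) = w * (2 * q) := by rw [hw3]
      rw [hq] at h
      linear_combination h - this
    have h2 : ‖w - 1‖ ^ 2 = 4 * ‖z‖ / c * ‖w‖ := by
      rw [← norm_pow, h1, norm_mul, norm_neg, norm_div, norm_mul, Complex.norm_real,
        Real.norm_eq_abs, abs_of_pos hc]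
      simp
    have h3 : 4 * ‖z‖ / c ≤ 4 / 1000 := by
      rw [div_le_iff₀ hc]; linarith
    have h4 : ‖w‖ - 1 ≤ ‖w - 1‖ := by simpa using norm_sub_norm_le w 1
    have h5 : (‖w‖ - 1) ^ 2 ≤ 4 / 1000 * ‖w‖ := by
      refine le_trans (pow_le_pow_left₀ (by linarith) h4 2) ?_
      rw [h2]
      exact mul_le_mul_of_nonneg_right h3 (norm_nonneg _)
    have h6 : ‖w‖ ≤ 1 + 1 / 14 := by nlinarith
    have h7 := Real.log_le_sub_one_of_pos (by linarith : 0 < ‖w‖)
    linarith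
  · rw [Complex.cosh, Complex.exp_neg, Complex.exp_log hw2, hw3, hq]
    push_cast
    field_simp
    ring

lemma norm_cosh_le {ζ : ℂ} (h0 : 0 ≤ ζ.re) (h1 : ζ.re ≤ 1) : ‖cosh ζ‖ ≤ 2 := by
  rw [Complex.cosh, norm_div]
  have a1 : ‖cexp ζ‖ ≤ 3 := by
    rw [Complex.norm_exp]
    exact (Real.exp_le_exp.2 h1).trans (Real.exp_one_lt_d9.le.trans (by norm_num))
  have a2 : ‖cexp (-ζ)‖ ≤ 1 := by
    rw [Complex.norm_exp, Real.exp_le_one_iff]
    simpa using h0
  have a3 := norm_add_le (cexp ζ) (cexp (-ζ))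
  simp only [Complex.norm_ofNat]
  linarith

/-- two constants estimate -/
lemma two_const {r c a b : ℝ} (hc : 0 < c) (hcr : 2 * c ≤ r) {H : ℂ → ℂ}
    (hH : DifferentiableOn ℂ H (ball 0 r)) (hb : ∀ z ∈ ball (0 : ℂ) r, ‖H z‖ ≤ b)
    (ha : ∀ t : ℝ, 0 ≤ t → t ≤ c → ‖H t‖ ≤ a) {z : ℂ} (hz : ‖z‖ < c / 1000) :
    ∃ x : ℝ, 0 ≤ x ∧ x ≤ 1 / 14 ∧ ‖H z‖ ≤ a ^ (1 - x) * b ^ x := by
  obtain ⟨ζ, h0, h1, h2⟩ := exists_cosh hc hz
  set φ : ℂ → ℂ := fun ζ => (c / 2 : ℝ) * (1 - cosh ζ) with hφ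
  have hφd : Differentiable ℂ φ := by simp only [hφ]; fun_prop
  have hmaps : MapsTo φ (HadamardThreeLines.verticalClosedStrip 0 1) (ball 0 r) := by
    intro w hw
    rw [mem_ball_zero_iff]
    simp only [hφ]
    rw [norm_mul, Complex.norm_real, Real.norm_eq_abs, abs_of_pos (half_pos hc)]
    have h3 := norm_cosh_le hw.1 hw.2
    have h4 := norm_sub_le 1 (cosh w)
    rw [norm_one] at h4
    nlinarith
  have hd : DiffContOnCl ℂ (H ∘ φ) (HadamardThreeLines.verticalStrip 0 1) := by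
    refine DifferentiableOn.diffContOnCl ?_
    have : closure (HadamardThreeLines.verticalStrip 0 1) ⊆
        HadamardThreeLines.verticalClosedStrip 0 1 :=
      closure_minimal (fun w hw => ⟨hw.1.le, hw.2.le⟩) (isClosed_Icc.preimage continuous_re)
    exact (hH.comp hφd.differentiableOn hmaps).mono this
  have := HadamardThreeLines.norm_le_interp_of_mem_verticalClosedStrip' (f := H ∘ φ) (z := ζ)
    (a := a) (b := b) one_pos ⟨h0, h1.trans (by norm_num)⟩ hd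
    ⟨b, by rintro _ ⟨w, hw, rfl⟩; exact hb _ (hmaps hw)⟩ ?_ ?_
  · refine ⟨ζ.re, h0, h1, ?_⟩
    simp only [Function.comp, hφ, h2, sub_zero, div_one] at this
    exact this
  · intro w hw
    have hw0 : w.re = 0 := hw
    have e : w = (w.im : ℂ) * I := by
      apply Complex.ext <;> simp [hw0]
    have e2 : φ w = ((c / 2 * (1 - Real.cos w.im) : ℝ) : ℂ) := by
      simp only [hφ]
      rw [e, Complex.cosh_mul_I]
      simp
    simp only [Function.comp, e2]
    have c1 := Real.cos_le_one w.im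
    have c2 := Real.neg_one_le_cos w.im
    exact ha _ (by nlinarith) (by nlinarith)
  · intro w hw
    have hw1 : w.re = 1 := hw
    exact hb _ (hmaps ⟨by rw [hw1]; norm_num, hw1.le⟩)

lemma interp_bound {A x : ℝ} (hA : 0 < A) (h1 : x ≤ 1 / 14) (j : ℕ) :
    (2 * A * (1 / 2) ^ j) ^ (1 - x) * (128 * A * 64 ^ j) ^ x ≤ 128 * A * (3 / 4) ^ j := by
  have ha : 0 < 2 * A * (1 / 2 : ℝ) ^ j := by positivity
  have e1 : 128 * A * 64 ^ j = (2 * A * (1 / 2 : ℝ) ^ j) * (64 * 128 ^ j) := by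
    have : (64 : ℝ) ^ j = (1 / 2) ^ j * 128 ^ j := by rw [← mul_pow]; norm_num
    rw [this]; ring
  rw [e1, Real.mul_rpow ha.le (by positivity), ← mul_assoc, ← Real.rpow_add ha, sub_add_cancel,
    Real.rpow_one, Real.mul_rpow (by positivity) (by positivity)]
  have b1 : (64 : ℝ) ^ x ≤ 64 := by
    simpa using Real.rpow_le_rpow_of_exponent_le (by norm_num : (1 : ℝ) ≤ 64)
      (h1.trans (by norm_num : (1 / 14 : ℝ) ≤ 1))
  have b2 : (128 : ℝ) ^ x ≤ 3 / 2 := by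
    refine (Real.rpow_le_rpow_of_exponent_le (by norm_num : (1 : ℝ) ≤ 128) h1).trans ?_
    have : (128 : ℝ) ≤ (3 / 2) ^ (14 : ℕ) := by norm_num
    refine (Real.rpow_le_rpow (by norm_num) this (by norm_num)).trans ?_
    rw [← Real.rpow_natCast, ← Real.rpow_mul (by norm_num)]
    norm_num
  have b3 : ((128 : ℝ) ^ j) ^ x ≤ (3 / 2) ^ j := by
    rw [← Real.rpow_natCast, ← Real.rpow_mul (by norm_num), mul_comm, Real.rpow_mul (by norm_num),
      Real.rpow_natCast]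
    exact pow_le_pow_left₀ (by positivity) b2 j
  calc 2 * A * (1 / 2 : ℝ) ^ j * (64 ^ x * (128 ^ j) ^ x)
      ≤ 2 * A * (1 / 2 : ℝ) ^ j * (64 * (3 / 2) ^ j) := by gcongr
    _ = 128 * A * ((1 / 2) ^ j * (3 / 2) ^ j) := by ring
    _ = _ := by rw [← mul_pow]; norm_num

/-- the extension lemma -/
lemma extend {r c A : ℝ} (hc : 0 < c) (hcr : 2 * c ≤ r) (hA : 0 < A) {f : ℕ → ℝ → ℂ} {g : ℝ → ℂ}
    (hf : ∀ j, Hol r (A * 64 ^ j) (f j))
    (hg : ∀ j, ∀ t ∈ Icc 0 c, ‖f j t - g t‖ ≤ A * (1 / 2) ^ j) : Hol' (c / 1000) g := by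
  choose G hG hGb hGe using hf
  have hsub : ball (0 : ℂ) (c / 1000) ⊆ ball 0 r := ball_subset_ball (by linarith)
  have hb : ∀ j, ∀ z ∈ ball (0 : ℂ) (c / 1000), ‖G (j + 1) z - G j z‖ ≤ 128 * A * (3 / 4) ^ j := by
    intro j z hz
    refine (two_const (a := 2 * A * (1 / 2) ^ j) (b := 128 * A * 64 ^ j) hc hcr
      ((hG (j + 1)).sub (hG j)) ?_ ?_ (mem_ball_zero_iff.1 hz)).elim
      fun x ⟨_, h1, h2⟩ => h2.trans (interp_bound hA h1 j)
    · intro w hw
      refine (norm_sub_le _ _).trans ?_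
      have a1 := hGb (j + 1) w hw
      have a2 := hGb j w hw
      have a3 : 0 < A * 64 ^ j := by positivity
      rw [pow_succ] at a1
      linarith
    · intro t h0 h1
      simp only [Pi.sub_apply]
      rw [hGe _ t h0 (by linarith), hGe _ t h0 (by linarith)]
      have a1 := hg (j + 1) t ⟨h0, h1⟩
      have a2 := hg j t ⟨h0, h1⟩
      have a3 : 0 < A * (1 / 2) ^ j := by positivity
      rw [pow_succ] at a1
      have a4 := norm_sub_le (f (j + 1) t - g t) (f j t - g t)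
      rw [sub_sub_sub_cancel_right] at a4
      linarith
  have hs : Summable (fun j : ℕ => 128 * A * (3 / 4 : ℝ) ^ j) :=
    (summable_geometric_of_lt_one (by norm_num) (by norm_num)).mul_left _
  refine ⟨fun z => G 0 z + ∑' j, (G (j + 1) z - G j z), ((hG 0).mono hsub).add
    (differentiableOn_tsum_of_summable_norm hs
      (fun j => ((hG (j + 1)).sub (hG j)).mono hsub) isOpen_ball hb), fun t h0 h1 => ?_⟩
  have ht : (t : ℂ) ∈ ball (0 : ℂ) (c / 1000) := by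
    rw [mem_ball_zero_iff, Complex.norm_real, Real.norm_eq_abs, abs_of_nonneg h0]; exact h1
  have h2 : Summable (fun j => G (j + 1) t - G j t) :=
    Summable.of_norm_bounded hs fun j => hb j _ ht
  have h3 := h2.hasSum.tendsto_sum_nat
  simp only [Finset.sum_range_sub (fun j => G j t)] at h3
  have h4 : Tendsto (fun j => G j t) atTop (𝓝 (g t)) := by
    rw [tendsto_iff_norm_sub_tendsto_zero]
    refine squeeze_zero (fun _ => norm_nonneg _) (g := fun j => A * (1 / 2) ^ j) (fun j => ?_) ?_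
    · rw [hGe j t h0 (by linarith)]
      exact hg j t ⟨h0, by linarith⟩
    · simpa using (tendsto_pow_atTop_nhds_zero_of_lt_one (r := (1 / 2 : ℝ)) (by norm_num)
        (by norm_num)).const_mul A
  have h5 := tendsto_nhds_unique h3 (h4.sub_const (G 0 t))
  simp only [h5]
  ring

end Pool.Agent.MP_ecf4b9_an

end MrgPart3

-- ======== part 4: formerly Pool.Agent.MP_ecf4b9_an.Schwarz
section MrgPart4

/-!
The Schwarz lemma argument bounding the strain.
-/

open Set Complex Filter Topology Metric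
open scoped ComplexConjugate

namespace Pool.Agent.MP_ecf4b9_an

lemma ofReal_mem_ball {r t : ℝ} (h0 : 0 ≤ t) (h1 : t < r) : (t : ℂ) ∈ ball (0 : ℂ) r := by
  rw [mem_ball_zero_iff, Complex.norm_real, Real.norm_eq_abs, abs_of_nonneg h0]; exact h1

lemma diff_star {r : ℝ} {G : ℂ → ℂ} (hG : DifferentiableOn ℂ G (ball 0 r)) :
    DifferentiableOn ℂ (fun z => conj (G (conj z))) (ball 0 r) := by
  intro z hz
  have hz' : conj z ∈ ball (0 : ℂ) r := by simpa using hz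
  have h1 := (hG.differentiableAt (isOpen_ball.mem_nhds hz')).conj_conj
  rw [conj_conj] at h1
  exact h1.differentiableWithinAt

lemma ident {r : ℝ} (hr : 0 < r) {F : ℂ → ℂ} (hF : DifferentiableOn ℂ F (ball 0 r))
    (h : ∀ t : ℝ, 0 < t → t < r → F t = 0) : ∀ z ∈ ball (0 : ℂ) r, F z = 0 := by
  refine (hF.analyticOnNhd isOpen_ball).eqOn_zero_of_preconnected_of_frequently_eq_zero
    (convex_ball 0 r).isPreconnected (mem_ball_self hr) ?_
  have h1 : Tendsto (fun t : ℝ => (t : ℂ)) (𝓝[>] 0) (𝓝[≠] 0) := by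
    refine tendsto_nhdsWithin_iff.2 ⟨?_, ?_⟩
    · have := (continuous_ofReal.tendsto 0).mono_left (nhdsWithin_le_nhds (s := Ioi 0))
      simpa using this
    · filter_upwards [self_mem_nhdsWithin] with t ht
      exact ofReal_ne_zero.2 (ne_of_gt ht)
  refine h1.frequently (Eventually.frequently ?_)
  filter_upwards [Ioo_mem_nhdsGT hr] with t ht using h t ht.1 ht.2

lemma deriv_link {r : ℝ} {G : ℂ → ℂ} {f : ℝ → ℂ} (hG : DifferentiableOn ℂ G (ball 0 r))
    (he : ∀ t : ℝ, 0 ≤ t → t < r → G t = f t) {t : ℝ} (h0 : 0 < t) (h1 : t < r) {f' : ℂ}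
    (hf : HasDerivAt f f' t) : deriv G t = f' := by
  have h2 := (hG.differentiableAt
    (isOpen_ball.mem_nhds (ofReal_mem_ball h0.le h1))).hasDerivAt.comp_ofReal
  refine h2.unique (hf.congr_of_eventuallyEq ?_)
  filter_upwards [Ioo_mem_nhds h0 h1] with s hs using he s hs.1.le hs.2

theorem schwarz_bound {r : ℝ} (hr : 0 < r) {s y₁ y₂ : ℝ → ℂ} {κ : ℂ} (hκ : κ ≠ 0)
    (hs : ContinuousWithinAt s (Ioi 0) 0)
    (d₁ : ∀ t, 0 < t → t < r → HasDerivAt y₁ (s t * conj (y₁ t)) t)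
    (d₂ : ∀ t, 0 < t → t < r → HasDerivAt y₂ (s t * conj (y₂ t)) t)
    (i₁ : y₁ 0 = 1) (i₂ : y₂ 0 = I) (h₁ : Hol' r y₁) (h₂ : Hol' r y₂)
    (hdet : ∀ t, 0 < t → t < r → conj (y₁ t) * y₂ t - y₁ t * conj (y₂ t) = 2 * I)
    (hf : ∀ e : ℂ, ‖e‖ = 1 → ∃ f, Hol' r f ∧ ∀ t, 0 < t → t < r →
      (e.re * y₁ t + e.im * y₂ t ≠ 0) ∧
      HasDerivAt f (s t * conj (f t) + κ * (conj (e.re * y₁ t + e.im * y₂ t))⁻¹) t) :
    ‖s 0‖ ≤ 1 / r := by
  obtain ⟨Y₁, hY₁, e₁⟩ := h₁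
  obtain ⟨Y₂, hY₂, e₂⟩ := h₂
  have hD₁ := hY₁.deriv isOpen_ball
  have hD₂ := hY₂.deriv isOpen_ball
  have hS₁ := diff_star hY₁
  have hS₂ := diff_star hY₂
  set S : ℂ → ℂ := fun z => (Y₂ z * deriv Y₁ z - Y₁ z * deriv Y₂ z) * (2 * I)⁻¹ with hSdef
  have hS : DifferentiableOn ℂ S (ball 0 r) := ((hY₂.mul hD₁).sub (hY₁.mul hD₂)).mul_const _
  have hI : (2 * I : ℂ) ≠ 0 := by simp
  have hSs : ∀ t : ℝ, 0 < t → t < r → S t = s t := by
    intro t h0 h1
    simp only [hSdef]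
    rw [deriv_link hY₁ e₁ h0 h1 (d₁ t h0 h1), deriv_link hY₂ e₂ h0 h1 (d₂ t h0 h1),
      e₁ t h0.le h1, e₂ t h0.le h1, mul_inv_eq_iff_eq_mul₀ hI, ← hdet t h0 h1]
    ring
  have k₁ : ∀ z ∈ ball (0 : ℂ) r, deriv Y₁ z - S z * conj (Y₁ (conj z)) = 0 := by
    refine ident hr (hD₁.sub (hS.mul hS₁)) fun t h0 h1 => ?_
    rw [deriv_link hY₁ e₁ h0 h1 (d₁ t h0 h1), hSs t h0 h1, conj_ofReal, e₁ t h0.le h1, sub_self]
  have k₂ : ∀ z ∈ ball (0 : ℂ) r, deriv Y₂ z - S z * conj (Y₂ (conj z)) = 0 := by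
    refine ident hr (hD₂.sub (hS.mul hS₂)) fun t h0 h1 => ?_
    rw [deriv_link hY₂ e₂ h0 h1 (d₂ t h0 h1), hSs t h0 h1, conj_ofReal, e₂ t h0.le h1, sub_self]
  have hne : ∀ e : ℂ, ‖e‖ = 1 → ∀ z ∈ ball (0 : ℂ) r, e.re * Y₁ z + e.im * Y₂ z ≠ 0 := by
    intro e he z hz h0
    obtain ⟨f, ⟨F, hF, eF⟩, hf'⟩ := hf e he
    have hz' : conj z ∈ ball (0 : ℂ) r := by simpa using hz
    have k₃ : ∀ z ∈ ball (0 : ℂ) r,
        deriv F z * (e.re * conj (Y₁ (conj z)) + e.im * conj (Y₂ (conj z))) -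
          (e.re * deriv Y₁ z + e.im * deriv Y₂ z) * conj (F (conj z)) - κ = 0 := by
      refine ident hr ((((hF.deriv isOpen_ball).mul ((hS₁.const_mul _).add (hS₂.const_mul _))).sub
        (((hD₁.const_mul _).add (hD₂.const_mul _)).mul (diff_star hF))).sub_const κ)
        fun t h0 h1 => ?_
      obtain ⟨a1, a2⟩ := hf' t h0 h1
      rw [deriv_link hF eF h0 h1 a2, deriv_link hY₁ e₁ h0 h1 (d₁ t h0 h1),
        deriv_link hY₂ e₂ h0 h1 (d₂ t h0 h1), conj_ofReal, e₁ t h0.le h1, e₂ t h0.le h1,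
        eF t h0.le h1]
      have a3 : conj (e.re * y₁ t + e.im * y₂ t) ≠ 0 := by
        rw [map_ne_zero]; exact a1
      have a4 := inv_mul_cancel₀ a3
      have a5 : conj (e.re * y₁ t + e.im * y₂ t) = e.re * conj (y₁ t) + e.im * conj (y₂ t) := by
        simp
      rw [← a5]
      linear_combination κ * a4 + s t * conj (f t) * a5
    have b1 := k₁ _ hz'
    have b2 := k₂ _ hz'
    have b3 := k₃ _ hz'
    rw [conj_conj] at b1 b2 b3
    have b4 : e.re * conj (Y₁ z) + e.im * conj (Y₂ z) = 0 := by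
      have := congrArg conj h0
      simpa using this
    apply hκ
    linear_combination (-1 : ℂ) * b3 + deriv F (conj z) * b4 -
      conj (F z) * (e.re * b1 + e.im * b2 + S (conj z) * b4)
  set A : ℂ → ℂ := fun z => (Y₁ z - I * Y₂ z) / 2 with hA
  set B : ℂ → ℂ := fun z => (Y₁ z + I * Y₂ z) / 2 with hB
  have hAd : DifferentiableOn ℂ A (ball 0 r) := (hY₁.sub (hY₂.const_mul _)).div_const _
  have hBd : DifferentiableOn ℂ B (ball 0 r) := (hY₁.add (hY₂.const_mul _)).div_const _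
  have Y10 : Y₁ 0 = 1 := by simpa [i₁] using e₁ 0 le_rfl hr
  have Y20 : Y₂ 0 = I := by simpa [i₂] using e₂ 0 le_rfl hr
  have A0 : A 0 = 1 := by simp only [hA, Y10, Y20, I_mul_I]; norm_num
  have B0 : B 0 = 0 := by simp only [hB, Y10, Y20, I_mul_I]; norm_num
  have hAB : ∀ z ∈ ball (0 : ℂ) r, ‖A z‖ - ‖B z‖ ≠ 0 := by
    intro z hz h
    have key : ∀ e : ℂ, e.re * Y₁ z + e.im * Y₂ z = A z * e + B z * conj e := by
      intro e
      have e1 : conj e = e.re - e.im * I := by apply Complex.ext <;> simp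
      rw [e1]
      conv_rhs => rw [← re_add_im e]
      simp only [hA, hB, add_re, ofReal_re, mul_re, I_re, mul_zero, ofReal_im, I_im, mul_one,
        sub_self, add_zero, add_im, mul_im, zero_add]
      linear_combination (e.im * Y₂ z) * I_mul_I
    by_cases hA0 : A z = 0
    · have hB0 : B z = 0 := by
        rw [hA0, norm_zero, zero_sub, neg_eq_zero, norm_eq_zero] at h; exact h
      exact hne 1 (by simp) z hz (by rw [key, hA0, hB0]; simp)
    · obtain ⟨e, he⟩ := IsAlgClosed.exists_pow_nat_eq (-(B z) / A z) two_pos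
      have hn : ‖e‖ = 1 := by
        have h1 : ‖e‖ ^ 2 = 1 := by
          rw [← norm_pow, he, norm_div, norm_neg, ← sub_eq_zero.1 h, div_self (norm_ne_zero_iff.2 hA0)]
        exact (pow_eq_one_iff_of_nonneg (norm_nonneg _) two_ne_zero).1 h1
      refine hne e hn z hz ?_
      rw [key]
      have h2 : e * conj e = 1 := by
        rw [mul_conj, Complex.normSq_eq_norm_sq, hn]; simp
      have h3 : A z * e ^ 2 = -B z := by rw [he]; field_simp
      linear_combination conj e * h3 - A z * e * h2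
  have hlt : ∀ z ∈ ball (0 : ℂ) r, ‖B z‖ < ‖A z‖ := by
    intro z hz
    by_contra h
    have h1 := (convex_ball (0 : ℂ) r).isPreconnected.intermediate_value hz (mem_ball_self hr)
      (f := fun z => ‖A z‖ - ‖B z‖) (hAd.continuousOn.norm.sub hBd.continuousOn.norm)
    obtain ⟨w, hw, hw0⟩ := h1 (show (0 : ℝ) ∈ Icc _ _ from
      ⟨by linarith [not_lt.1 h], by simp [A0, B0]⟩)
    exact hAB w hw hw0
  have hAne : ∀ z ∈ ball (0 : ℂ) r, A z ≠ 0 := fun z hz =>
    norm_pos_iff.1 ((norm_nonneg _).trans_lt (hlt z hz))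
  have hsch := norm_deriv_le_div_of_mapsTo_ball (f := fun z => B z / A z) (c := 0) (R₂ := 1)
    (hBd.div hAd hAne) (fun z hz => by
      simp only [B0, zero_div, mem_closedBall, dist_zero_right, norm_div]
      exact div_le_one_of_le₀ (hlt z hz).le (norm_nonneg _)) hr
  have n0 : ball (0 : ℂ) r ∈ 𝓝 0 := ball_mem_nhds 0 hr
  have hB' : HasDerivAt B (S 0) 0 := by
    have c1 := (hY₁.differentiableAt n0).hasDerivAt
    have c2 := (hY₂.differentiableAt n0).hasDerivAt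
    have c3 := (c1.add (c2.const_mul I)).div_const 2
    refine c3.congr_deriv ?_
    have b1 := k₁ 0 (mem_ball_self hr)
    have b2 := k₂ 0 (mem_ball_self hr)
    rw [map_zero, Y10, map_one] at b1
    rw [map_zero, Y20, conj_I] at b2
    linear_combination (1 / 2 : ℂ) * b1 + (I / 2) * b2 - (S 0 / 2) * I_mul_I
  have hg := hB'.div (hAd.differentiableAt n0).hasDerivAt (hAne 0 (mem_ball_self hr))
  have hg' : deriv (fun z => B z / A z) 0 = S 0 := by
    have := hg.deriv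
    rw [A0, B0] at this
    exact this.trans (by simp)
  rw [hg'] at hsch
  have hS0 : S 0 = s 0 := by
    have t1 : Tendsto (fun t : ℝ => S t) (𝓝[>] 0) (𝓝 (S 0)) := by
      have c1 : ContinuousAt S ((0 : ℝ) : ℂ) := by
        simpa using (hS.differentiableAt n0).continuousAt
      have c2 := (c1.tendsto.comp (continuous_ofReal.tendsto 0)).mono_left
        (nhdsWithin_le_nhds (s := Ioi 0))
      rw [ofReal_zero] at c2
      exact c2
    refine tendsto_nhds_unique t1 (hs.tendsto.congr' ?_)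
    filter_upwards [Ioo_mem_nhdsGT hr] with t ht using (hSs t ht.1 ht.2).symm
  rwa [hS0] at hsch

end Pool.Agent.MP_ecf4b9_an

end MrgPart4

-- ======== part 5: formerly Pool.Agent.MP_ecf4b9_an.Pompeiu
section MrgPart5

/-!
The Cauchy-Pompeiu formula for compactly supported functions of class one.
-/

open MeasureTheory Set Complex Filter Topology
open scoped ComplexConjugate

namespace Pool.Agent.MP_ecf4b9_an

/-- the antiholomorphic Wirtinger derivative -/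
noncomputable def dbar (φ : ℂ → ℂ) (x : ℂ) : ℂ := (fderiv ℝ φ x 1 + I * fderiv ℝ φ x I) / 2

lemma clm_apply_eq {E : Type*} [NormedAddCommGroup E] [NormedSpace ℝ E] (L : ℂ →L[ℝ] E) (v : ℂ) :
    L v = v.re • L 1 + v.im • L I := by
  rw [← map_smul, ← map_smul, ← map_add]
  congr 1
  apply Complex.ext <;> simp

lemma continuous_dbar {φ : ℂ → ℂ} (hφ : ContDiff ℝ 1 φ) : Continuous (dbar φ) := by
  have := hφ.continuous_fderiv (by norm_num)
  unfold dbar
  fun_prop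

lemma hasCompactSupport_dbar {φ : ℂ → ℂ} (hc : HasCompactSupport φ) : HasCompactSupport (dbar φ) := by
  refine (hc.fderiv (𝕜 := ℝ)).mono fun x hx => ?_
  intro h
  apply hx
  simp [dbar, h]

lemma integrable_dbar {φ : ℂ → ℂ} (hφ : ContDiff ℝ 1 φ) (hc : HasCompactSupport φ) :
    Integrable (dbar φ) :=
  (continuous_dbar hφ).integrable_of_hasCompactSupport (hasCompactSupport_dbar hc)

/-- the unit vector of angle `θ` -/
noncomputable def ee (θ : ℝ) : ℂ := Real.cos θ + Real.sin θ * I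

lemma norm_ee (θ : ℝ) : ‖ee θ‖ = 1 := by
  unfold ee
  rw [Complex.ofReal_cos, Complex.ofReal_sin, Complex.norm_cos_add_sin_mul_I]

lemma continuous_ee : Continuous ee := by unfold ee; fun_prop

lemma hasDerivAt_ee (θ : ℝ) : HasDerivAt ee (I * ee θ) θ := by
  have h := ((Real.hasDerivAt_cos θ).ofReal_comp).add
    (((Real.hasDerivAt_sin θ).ofReal_comp).mul_const I)
  refine h.congr_deriv ?_
  unfold ee
  push_cast
  linear_combination (-Complex.sin θ) * I_mul_I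

theorem pompeiu_zero {φ : ℂ → ℂ} (hφ : ContDiff ℝ 1 φ) (hc : HasCompactSupport φ) :
    ∫ x, dbar φ x * x⁻¹ = -Real.pi * φ 0 := by
  have hD := hφ.continuous_fderiv (by norm_num)
  have hd := hφ.differentiable (by norm_num)
  obtain ⟨R, hR, hR0⟩ := (hc.fderiv (𝕜 := ℝ)).exists_pos_le_norm
  obtain ⟨R', hR', hR0'⟩ := hc.exists_pos_le_norm
  have hce := continuous_ee
  have hn : ∀ (r θ : ℝ), 0 ≤ r → ‖(r : ℂ) * ee θ‖ = r := fun r θ hr => by
    rw [norm_mul, norm_ee, mul_one, Complex.norm_real, Real.norm_eq_abs, abs_of_nonneg hr]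
  have hint : ∀ w : ℝ → ℂ, Continuous w → IntegrableOn
      (fun p : ℝ × ℝ => fderiv ℝ φ (p.1 * ee p.2) (w p.2)) (Ioi 0 ×ˢ Ioo (-Real.pi) Real.pi)
      (volume.prod volume) := by
    intro w hw
    have h1 : IntegrableOn (fun p : ℝ × ℝ => fderiv ℝ φ (p.1 * ee p.2) (w p.2))
        (Icc 0 R ×ˢ Icc (-Real.pi) Real.pi) (volume.prod volume) :=
      ContinuousOn.integrableOn_compact (isCompact_Icc.prod isCompact_Icc)
        (Continuous.continuousOn (by fun_prop))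
    refine h1.of_forall_sdiff_eq_zero (measurableSet_Ioi.prod measurableSet_Ioo) fun p hp => ?_
    have h2 : R ≤ p.1 := by
      by_contra h3
      exact hp.2 ⟨⟨le_of_lt hp.1.1, (not_le.1 h3).le⟩, Ioo_subset_Icc_self hp.1.2⟩
    rw [hR0 _ (by rw [hn _ _ (le_of_lt hp.1.1)]; exact h2)]
    simp
  have i1 := hint ee hce
  have i2 := hint (fun θ => I * ee θ) (by fun_prop)
  have a1 : ∫ p in Ioi (0 : ℝ) ×ˢ Ioo (-Real.pi) Real.pi, fderiv ℝ φ (p.1 * ee p.2) (ee p.2)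
      ∂(volume.prod volume) = -(2 * Real.pi) * φ 0 := by
    have i1' := i1
    rw [IntegrableOn, ← Measure.prod_restrict] at i1'
    rw [← Measure.prod_restrict, integral_prod_symm _ i1']
    have : ∀ θ : ℝ, ∫ r in Ioi (0 : ℝ), fderiv ℝ φ (r * ee θ) (ee θ) = -φ 0 := by
      intro θ
      have b1 : ∀ r : ℝ, HasDerivAt (fun r : ℝ => φ (r * ee θ)) (fderiv ℝ φ (r * ee θ) (ee θ)) r := by
        intro r
        have c1 : HasDerivAt (fun r : ℝ => (r : ℂ) * ee θ) (ee θ) r := by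
          simpa using ((hasDerivAt_id r).ofReal_comp).mul_const (ee θ)
        exact (hd _).hasFDerivAt.comp_hasDerivAt r c1
      have b2 : IntegrableOn (fun r : ℝ => fderiv ℝ φ (r * ee θ) (ee θ)) (Ioi 0) := by
        have c1 : IntegrableOn (fun r : ℝ => fderiv ℝ φ (r * ee θ) (ee θ)) (Icc 0 R) :=
          Continuous.integrableOn_Icc (by fun_prop)
        refine c1.of_forall_sdiff_eq_zero measurableSet_Ioi fun r hr => ?_
        have h2 : R ≤ r := by
          by_contra h3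
          exact hr.2 ⟨le_of_lt hr.1, (not_le.1 h3).le⟩
        rw [hR0 _ (by rw [hn _ _ (le_of_lt hr.1)]; exact h2)]
        simp
      have b3 : Tendsto (fun r : ℝ => φ (r * ee θ)) atTop (𝓝 0) := by
        refine tendsto_const_nhds.congr' ?_
        filter_upwards [eventually_ge_atTop R'] with r hr
        rw [hR0' _ (by rw [hn _ _ (hR'.le.trans hr)]; exact hr)]
      simpa using integral_Ioi_of_hasDerivAt_of_tendsto' (fun r _ => b1 r) b2 b3
    simp only [this, integral_const, Measure.real, Measure.restrict_apply MeasurableSet.univ,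
      univ_inter, Real.volume_Ioo]
    rw [ENNReal.toReal_ofReal (by linarith [Real.pi_pos]), real_smul]
    push_cast
    ring
  have a2 : ∫ p in Ioi (0 : ℝ) ×ˢ Ioo (-Real.pi) Real.pi, fderiv ℝ φ (p.1 * ee p.2) (I * ee p.2)
      ∂(volume.prod volume) = 0 := by
    rw [setIntegral_prod _ i2]
    refine setIntegral_eq_zero_of_forall_eq_zero fun r hr => ?_
    have hr0 : (r : ℝ) ≠ 0 := ne_of_gt hr
    have b1 : ∀ θ : ℝ, HasDerivAt (fun θ : ℝ => r⁻¹ • φ (r * ee θ))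
        (fderiv ℝ φ (r * ee θ) (I * ee θ)) θ := by
      intro θ
      have c1 := ((hd _).hasFDerivAt.comp_hasDerivAt θ
        ((hasDerivAt_ee θ).const_mul (r : ℂ))).const_smul r⁻¹
      refine c1.congr_deriv ?_
      rw [← real_smul (z := I * ee θ), map_smul, smul_smul, inv_mul_cancel₀ hr0, one_smul]
    rw [← integral_Ioc_eq_integral_Ioo,
      ← intervalIntegral.integral_of_le (by linarith [Real.pi_pos]),
      intervalIntegral.integral_eq_sub_of_hasDerivAt (fun θ _ => b1 θ)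
        (Continuous.intervalIntegrable (by fun_prop) _ _)]
    simp [ee]
  rw [← Complex.integral_comp_polarCoord_symm, polarCoord_target, Measure.volume_eq_prod,
    setIntegral_congr_fun (measurableSet_Ioi.prod measurableSet_Ioo)
      (g := fun p : ℝ × ℝ => (fderiv ℝ φ (p.1 * ee p.2) (ee p.2) +
        I * fderiv ℝ φ (p.1 * ee p.2) (I * ee p.2)) / 2),
    integral_div, integral_add i1 (i2.const_mul I), integral_const_mul, a1, a2]
  · ring
  · intro p hp
    have hr0 : (p.1 : ℂ) ≠ 0 := by exact_mod_cast ne_of_gt hp.1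
    have e0 : Complex.polarCoord.symm p = p.1 * ee p.2 := by simp [ee]
    have e1 : (ee p.2)⁻¹ = Real.cos p.2 - Real.sin p.2 * I := by
      refine inv_eq_of_mul_eq_one_right ?_
      unfold ee
      have : (Real.cos p.2 : ℂ) ^ 2 + (Real.sin p.2 : ℂ) ^ 2 = 1 := by
        exact_mod_cast Real.cos_sq_add_sin_sq p.2
      linear_combination this - (Real.sin p.2 : ℂ) ^ 2 * I_mul_I
    simp only [e0]
    rw [clm_apply_eq _ (ee p.2), clm_apply_eq _ (I * ee p.2), mul_inv, e1, dbar]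
    simp only [ee, real_smul, add_re, ofReal_re, mul_re, I_re, mul_zero, ofReal_im, I_im, mul_one,
      sub_self, add_zero, add_im, mul_im, zero_add, zero_mul, one_mul, zero_sub, ofReal_neg]
    field_simp
    linear_combination (-(Real.sin p.2 : ℂ) *
      fderiv ℝ φ (p.1 * (Real.cos p.2 + Real.sin p.2 * I)) I) * I_mul_I

theorem pompeiu {φ : ℂ → ℂ} (hφ : ContDiff ℝ 1 φ) (hc : HasCompactSupport φ) (y : ℂ) :
    ∫ x, dbar φ x * (x - y)⁻¹ = -Real.pi * φ y := by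
  have h1 := pompeiu_zero (φ := fun x => φ (x + y)) (hφ.comp (by fun_prop))
    (hc.comp_homeomorph (Homeomorph.addRight y))
  rw [zero_add] at h1
  rw [← h1, ← integral_add_right_eq_self _ y]
  congr 1
  ext x
  simp only [dbar, fderiv_comp_add_right, add_sub_cancel_right]

end Pool.Agent.MP_ecf4b9_an

end MrgPart5

-- ======== part 6: formerly Pool.Agent.MP_ecf4b9_an.Weak1
section MrgPart6

/-!
Identities at a fixed time for the velocity field given by the Biot-Savart law.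
-/

open MeasureTheory Set Complex Filter Topology
open scoped ComplexConjugate

namespace Pool.Agent.MP_ecf4b9_an

variable {m : ℝ} {ω : ℂ → ℝ} {Z : ℂ → ℂ}

lemma double_int (hω : Dat 1 m ω) (hZ : Incomp Z) {g Y : ℂ → ℂ} (hg : Integrable g)
    (hY : Measurable Y) :
    Integrable (fun p : ℂ × ℂ => g p.1 * ((ω p.2 : ℂ) * (Y p.1 - Z p.2)⁻¹)) (volume.prod volume) := by
  have hm : AEStronglyMeasurable (fun p : ℂ × ℂ => g p.1 * ((ω p.2 : ℂ) * (Y p.1 - Z p.2)⁻¹))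
      (volume.prod volume) :=
    hg.aestronglyMeasurable.comp_fst.mul (((Complex.measurable_ofReal.comp hω.meas).comp
      measurable_snd).mul ((hY.comp measurable_fst).sub
        (hZ.meas.comp measurable_snd)).inv).aestronglyMeasurable
  refine (integrable_prod_iff hm).2 ⟨Eventually.of_forall fun x =>
    (W_int hω hZ (Y x)).const_mul (g x), ?_⟩
  refine Integrable.mono' (hg.norm.mul_const (13 + m)) hm.norm.integral_prod_right'
    (Eventually.of_forall fun x => ?_)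
  rw [Real.norm_eq_abs, abs_of_nonneg (integral_nonneg fun _ => norm_nonneg _)]
  simp only [norm_mul (g x)]
  rw [integral_const_mul]
  refine mul_le_mul_of_nonneg_left ?_ (norm_nonneg _)
  simpa using integral_norm_W_le hω hZ (Y x) one_pos

lemma double_swap (hω : Dat 1 m ω) (hZ : Incomp Z) {g Y : ℂ → ℂ} (hg : Integrable g)
    (hY : Measurable Y) :
    ∫ x, g x * W ω Z (Y x) = ∫ b, (ω b : ℂ) * ∫ x, g x * (Y x - Z b)⁻¹ := by
  have h := integral_integral_swap (f := fun x b => g x * ((ω b : ℂ) * (Y x - Z b)⁻¹))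
    (double_int hω hZ hg hY)
  simp only [integral_const_mul] at h
  unfold W
  rw [h]
  congr 1
  ext b
  rw [← integral_const_mul]
  congr 1
  ext x
  ring

lemma double_int' (hω : Dat 1 m ω) (hZ : Incomp Z) {g Y : ℂ → ℂ} (hg : Integrable g)
    (hY : Measurable Y) : Integrable (fun b => (ω b : ℂ) * ∫ x, g x * (Y x - Z b)⁻¹) := by
  refine (double_int hω hZ hg hY).integral_prod_right.congr (Eventually.of_forall fun b => ?_)
  simp only
  rw [← integral_const_mul]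
  congr 1
  ext x
  ring

lemma measurable_W (hω : Measurable ω) (hZ : Measurable Z) : Measurable (W ω Z) := by
  have : StronglyMeasurable (fun p : ℂ × ℂ => (ω p.2 : ℂ) * (p.1 - Z p.2)⁻¹) :=
    (((Complex.measurable_ofReal.comp hω).comp measurable_snd).mul
      (measurable_fst.sub (hZ.comp measurable_snd)).inv).stronglyMeasurable
  exact this.integral_prod_right'.measurable

lemma int_mul_W (hω : Dat 1 m ω) (hZ : Incomp Z) {g Y : ℂ → ℂ} (hg : Integrable g)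
    (hY : Measurable Y) : Integrable (fun x => g x * W ω Z (Y x)) :=
  hg.mul_bdd ((measurable_W hω.meas hZ.meas).comp hY).aestronglyMeasurable
    (Eventually.of_forall fun _ => norm_W_le_one hω hZ _)

lemma int_mul_inv {g : ℂ → ℂ} (hg : Integrable g) {C : ℝ} (hC : ∀ x, ‖g x‖ ≤ C) (y : ℂ) :
    Integrable (fun x => g x * (x - y)⁻¹) := by
  refine Integrable.mono' ((((integrable_gk 1).comp_sub_right y).const_mul C).add hg.norm)
    (hg.aestronglyMeasurable.mul (measurable_id.sub_const y).inv.aestronglyMeasurable)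
    (Eventually.of_forall fun x => ?_)
  rw [norm_mul, norm_inv]
  have h1 := inv_le_gk one_pos (x - y)
  have h2 := gk_nonneg 1 (x - y)
  have h3 := hC x
  have h4 := norm_nonneg (g x)
  simp only [Pi.add_apply, inv_one] at h1 ⊢
  nlinarith

lemma int_cc_mul_inv {g : ℂ → ℂ} (hg : Continuous g) (hc : HasCompactSupport g) (y : ℂ) :
    Integrable (fun x => g x * (x - y)⁻¹) := by
  obtain ⟨C, hC⟩ := hg.bounded_above_of_compact_support hc
  exact int_mul_inv (hg.integrable_of_hasCompactSupport hc) hC y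

lemma dbar_W (hω : Dat 1 m ω) (hZ : Incomp Z) {φ : ℂ → ℂ} (hφ : ContDiff ℝ 1 φ)
    (hc : HasCompactSupport φ) :
    ∫ x, dbar φ x * W ω Z x = -Real.pi * ∫ b, (ω b : ℂ) * φ (Z b) := by
  have := double_swap (Y := fun x => x) hω hZ (integrable_dbar hφ hc) measurable_id
  simp only [pompeiu hφ hc] at this
  rw [this, ← integral_const_mul]
  congr 1
  ext b
  ring

lemma conj_V (ω : ℂ → ℝ) (Z : ℂ → ℂ) (x : ℂ) : conj (V ω Z x) = -cc * W ω Z x := by
  have : conj cc = -cc := by rw [cc, map_mul, conj_ofReal, conj_I, mul_neg]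
  rw [V, map_mul, conj_conj, this]

lemma dbar_ofReal {ψ : ℂ → ℝ} (hψ : ContDiff ℝ 1 ψ) (x : ℂ) :
    dbar (fun x => (ψ x : ℂ)) x = ((fderiv ℝ ψ x 1 : ℝ) + I * (fderiv ℝ ψ x I : ℝ)) / 2 := by
  have h := (ofRealCLM.hasFDerivAt.comp x
    ((hψ.differentiable (by norm_num)) x).hasFDerivAt).fderiv
  have h' : fderiv ℝ (fun x => (ψ x : ℂ)) x = ofRealCLM.comp (fderiv ℝ ψ x) := h
  simp [dbar, h']

lemma div_curl (hω : Dat 1 m ω) (hZ : Incomp Z) {ψ : ℂ → ℝ} (hψ : ContDiff ℝ 1 ψ)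
    (hc : HasCompactSupport ψ) :
    (∫ x, ((V ω Z x).re * fderiv ℝ ψ x 1 + (V ω Z x).im * fderiv ℝ ψ x I) = 0) ∧
    ∫ x, ((V ω Z x).re * fderiv ℝ ψ x I - (V ω Z x).im * fderiv ℝ ψ x 1) = ∫ b, ω b * ψ (Z b) := by
  have hφ : ContDiff ℝ 1 (fun x => (ψ x : ℂ)) := ofRealCLM.contDiff.comp hψ
  have hc' : HasCompactSupport (fun x => (ψ x : ℂ)) := hc.comp_left (g := ofReal) ofReal_zero
  have h1 := dbar_W hω hZ hφ hc'
  have hi := (int_mul_W (Y := fun x => x) hω hZ (integrable_dbar hφ hc')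
    measurable_id).const_mul (-2 * cc)
  have h2 : ∫ x, (-2 * cc) * (dbar (fun x => (ψ x : ℂ)) x * W ω Z x) =
      I * ((∫ b, ω b * ψ (Z b) : ℝ) : ℂ) := by
    rw [integral_const_mul, h1, ← integral_complex_ofReal]
    have : (Real.pi : ℂ) ≠ 0 := by exact_mod_cast Real.pi_pos.ne'
    simp only [cc, ofReal_mul]
    push_cast
    field_simp
  have h3 : ∀ x, (-2 * cc) * (dbar (fun x => (ψ x : ℂ)) x * W ω Z x) =
      ((fderiv ℝ ψ x 1 : ℝ) + I * (fderiv ℝ ψ x I : ℝ)) * conj (V ω Z x) := fun x => by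
    rw [conj_V, dbar_ofReal hψ]; ring
  have h4 := integral_re (𝕜 := ℂ) hi
  have h5 := integral_im (𝕜 := ℂ) hi
  simp only [RCLike.re_to_complex, RCLike.im_to_complex] at h4 h5
  rw [h2] at h4 h5
  simp only [h3] at h4 h5
  constructor
  · refine Eq.trans ?_ (h4.trans (by simp))
    congr 1
    ext x
    simp
    ring
  · refine Eq.trans ?_ (h5.trans (by simp))
    congr 1
    ext x
    simp
    ring

lemma fderiv_eq_dbar {ψ : ℂ → ℂ} (hψ : ContDiff ℝ 1 ψ) {x : ℂ}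
    (hdiv : (fderiv ℝ ψ x 1).re + (fderiv ℝ ψ x I).im = 0) (v : ℂ) :
    fderiv ℝ ψ x v = conj v * dbar ψ x - v * dbar (fun x => conj (ψ x)) x := by
  have h := ((conjCLE : ℂ →L[ℝ] ℂ).hasFDerivAt.comp x
    ((hψ.differentiable (by norm_num)) x).hasFDerivAt).fderiv
  have h' : fderiv ℝ (fun x => conj (ψ x)) x = (conjCLE : ℂ →L[ℝ] ℂ).comp (fderiv ℝ ψ x) := h
  rw [clm_apply_eq _ v]
  simp only [dbar, h', ContinuousLinearMap.comp_apply, ContinuousLinearEquiv.coe_coe, conjCLE_apply]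
  apply Complex.ext
  · simp
    linear_combination v.re * hdiv
  · simp
    linear_combination v.im * hdiv

lemma slice₁ {ψ : ℂ → ℂ} (hψ : ContDiff ℝ 1 ψ) (hc : HasCompactSupport ψ)
    (hdiv : ∀ x, (fderiv ℝ ψ x 1).re + (fderiv ℝ ψ x I).im = 0) (y v : ℂ) :
    ∫ x, fderiv ℝ ψ x v * (x - y)⁻¹ = Real.pi * (v * conj (ψ y) - conj v * ψ y) := by
  have hψ' : ContDiff ℝ 1 (fun x => conj (ψ x)) := (conjCLE : ℂ →L[ℝ] ℂ).contDiff.comp hψ
  have hc' : HasCompactSupport (fun x => conj (ψ x)) := hc.comp_left (g := conj) (map_zero _)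
  have i1 := (int_cc_mul_inv (continuous_dbar hψ) (hasCompactSupport_dbar hc) y).const_mul (conj v)
  have i2 := (int_cc_mul_inv (continuous_dbar hψ') (hasCompactSupport_dbar hc') y).const_mul v
  have e : ∀ x, fderiv ℝ ψ x v * (x - y)⁻¹ =
      conj v * (dbar ψ x * (x - y)⁻¹) - v * (dbar (fun x => conj (ψ x)) x * (x - y)⁻¹) := fun x => by
    rw [fderiv_eq_dbar hψ (hdiv x)]; ring
  simp only [e]
  rw [integral_sub i1 i2, integral_const_mul, integral_const_mul, pompeiu hψ hc, pompeiu hψ' hc']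
  ring

lemma pompeiu₂ {φ : ℂ → ℂ} (hφ : ContDiff ℝ 1 φ) (hc : HasCompactSupport φ) {y z : ℂ}
    (h : y ≠ z) : ∫ x, dbar φ x * (x - y)⁻¹ * (x - z)⁻¹ = -Real.pi * ((φ y - φ z) * (y - z)⁻¹) := by
  have i1 := int_cc_mul_inv (continuous_dbar hφ) (hasCompactSupport_dbar hc) y
  have i2 := int_cc_mul_inv (continuous_dbar hφ) (hasCompactSupport_dbar hc) z
  have e : (fun x => dbar φ x * (x - y)⁻¹ * (x - z)⁻¹) =ᵐ[volume]
      fun x => (y - z)⁻¹ * (dbar φ x * (x - y)⁻¹ - dbar φ x * (x - z)⁻¹) := by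
    filter_upwards [Measure.ae_ne volume y, Measure.ae_ne volume z] with x h1 h2
    have a1 := sub_ne_zero.2 h1
    have a2 := sub_ne_zero.2 h2
    have a3 := sub_ne_zero.2 h
    field_simp
    ring
  rw [integral_congr_ae e, integral_const_mul, integral_sub i1 i2, pompeiu hφ hc, pompeiu hφ hc]
  ring

lemma int_ω_φ (hω : Dat 1 m ω) (hZ : Incomp Z) {φ : ℂ → ℂ} (hφ : Continuous φ)
    (hc : HasCompactSupport φ) : Integrable (fun b => (ω b : ℂ) * φ (Z b)) := by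
  obtain ⟨C, hC⟩ := hφ.bounded_above_of_compact_support hc
  exact (hω.int.ofReal (𝕜 := ℂ)).mul_bdd (hφ.measurable.comp hZ.meas).aestronglyMeasurable
    (Eventually.of_forall fun b => hC _)

lemma dbar_W_sq (hω : Dat 1 m ω) (hZ : Incomp Z) {φ : ℂ → ℂ} (hφ : ContDiff ℝ 1 φ)
    (hc : HasCompactSupport φ) :
    ∫ x, dbar φ x * W ω Z x * W ω Z x =
      -2 * Real.pi * ∫ b, (ω b : ℂ) * φ (Z b) * W ω Z (Z b) := by
  have i0 := integrable_dbar hφ hc
  have i1 := int_mul_W (Y := fun x => x) hω hZ i0 measurable_id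
  have iφ := int_ω_φ hω hZ hφ.continuous hc
  obtain ⟨C, hC⟩ := hφ.continuous.bounded_above_of_compact_support hc
  have h1 := double_swap (Y := fun x => x) hω hZ i1 measurable_id
  have h2 : ∀ y, ∫ x, dbar φ x * W ω Z x * (x - y)⁻¹ =
      -Real.pi * (φ y * W ω Z y + ∫ b, (ω b : ℂ) * φ (Z b) * (Z b - y)⁻¹) := by
    intro y
    have a1 := double_swap (Y := fun x => x) hω hZ
      (int_cc_mul_inv (continuous_dbar hφ) (hasCompactSupport_dbar hc) y) measurable_id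
    have a2 : ∀ᵐ b, Z b ≠ y := by
      have := hZ.le {y} (measurableSet_singleton y)
      rw [measure_singleton, mul_zero, nonpos_iff_eq_zero] at this
      exact measure_eq_zero_iff_ae_notMem.1 this
    have a3 : Integrable (fun b => (ω b : ℂ) * φ (Z b) * (Z b - y)⁻¹) := by
      have := ((W_int hω hZ y).mul_bdd (hφ.continuous.measurable.comp hZ.meas).aestronglyMeasurable
        (Eventually.of_forall fun b => hC _)).neg
      refine this.congr (Eventually.of_forall fun b => ?_)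
      simp only [Pi.neg_apply, Function.comp]
      rw [← neg_sub y, inv_neg]
      ring
    simp only [mul_right_comm (dbar φ _) (W ω Z _)]
    rw [a1]
    unfold W
    rw [← integral_const_mul, ← integral_add ((W_int hω hZ y).const_mul _) a3, ← integral_const_mul]
    refine integral_congr_ae ?_
    filter_upwards [a2] with b hb
    rw [pompeiu₂ hφ hc hb.symm, ← neg_sub y (Z b), inv_neg]
    ring
  have h3 := double_swap hω hZ iφ hZ.meas
  have i3 := double_int' hω hZ iφ hZ.meas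
  have i4 := int_mul_W hω hZ iφ hZ.meas
  simp only [h2] at h1
  rw [h1]
  have e : ∀ b, (ω b : ℂ) * (-Real.pi * (φ (Z b) * W ω Z (Z b) +
      ∫ b', (ω b' : ℂ) * φ (Z b') * (Z b' - Z b)⁻¹)) = -Real.pi * ((ω b : ℂ) * φ (Z b) * W ω Z (Z b) +
      (ω b : ℂ) * ∫ b', (ω b' : ℂ) * φ (Z b') * (Z b' - Z b)⁻¹) := fun b => by ring
  simp only [e]
  rw [integral_const_mul, integral_add i4 i3, ← h3]
  ring

lemma slice₂ (hω : Dat 1 m ω) (hZ : Incomp Z) {ψ : ℂ → ℂ} (hψ : ContDiff ℝ 1 ψ)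
    (hc : HasCompactSupport ψ) (hdiv : ∀ x, (fderiv ℝ ψ x 1).re + (fderiv ℝ ψ x I).im = 0) :
    Integrable (fun x => inner ℝ (V ω Z x) (fderiv ℝ ψ x (V ω Z x))) ∧
    Integrable (fun b => ω b * (-cc * ∫ x, fderiv ℝ ψ x (V ω Z (Z b)) * (x - Z b)⁻¹).re) ∧
    ∫ x, inner ℝ (V ω Z x) (fderiv ℝ ψ x (V ω Z x)) =
      ∫ b, ω b * (-cc * ∫ x, fderiv ℝ ψ x (V ω Z (Z b)) * (x - Z b)⁻¹).re := by
  have i0 := integrable_dbar hψ hc
  have i1 := (int_mul_W (Y := fun x => x) hω hZ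
    (int_mul_W (Y := fun x => x) hω hZ i0 measurable_id) measurable_id).const_mul (cc ^ 2)
  have i4 := (int_mul_W hω hZ (int_ω_φ hω hZ hψ.continuous hc) hZ.meas).const_mul
    (cc ^ 2 * (-2 * Real.pi))
  have e1 : ∀ x, inner ℝ (V ω Z x) (fderiv ℝ ψ x (V ω Z x)) =
      (cc ^ 2 * (dbar ψ x * W ω Z x * W ω Z x)).re := fun x => by
    have a1 : cc ^ 2 * (dbar ψ x * W ω Z x * W ω Z x) = dbar ψ x * conj (V ω Z x) ^ 2 := by
      rw [conj_V]; ring
    rw [a1, Complex.inner, clm_apply_eq _ (V ω Z x), dbar]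
    have := hdiv x
    simp [pow_two]
    linear_combination ((V ω Z x).re ^ 2 + (V ω Z x).im ^ 2) / 2 * this
  have e2 : ∀ b, ω b * (-cc * ∫ x, fderiv ℝ ψ x (V ω Z (Z b)) * (x - Z b)⁻¹).re =
      (cc ^ 2 * (-2 * Real.pi) * ((ω b : ℂ) * ψ (Z b) * W ω Z (Z b))).re := fun b => by
    rw [slice₁ hψ hc hdiv, conj_V, V]
    simp [pow_two, cc_re]
    ring
  simp only [e1, e2]
  refine ⟨i1.re, i4.re, ?_⟩
  have h4 := integral_re (𝕜 := ℂ) i1
  have h5 := integral_re (𝕜 := ℂ) i4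
  simp only [RCLike.re_to_complex] at h4 h5
  rw [h4, h5, integral_const_mul, integral_const_mul, dbar_W_sq hω hZ hψ hc, mul_assoc (cc ^ 2)]

lemma slice₃ (hω : Dat 1 m ω) (hZ : Incomp Z) {g : ℂ → ℂ} (hg : Integrable g) :
    Integrable (fun x => inner ℝ (V ω Z x) (g x)) ∧
    Integrable (fun b => ω b * (-cc * ∫ x, g x * (x - Z b)⁻¹).re) ∧
    ∫ x, inner ℝ (V ω Z x) (g x) = ∫ b, ω b * (-cc * ∫ x, g x * (x - Z b)⁻¹).re := by
  have i1 := (int_mul_W (Y := fun x => x) hω hZ hg measurable_id).const_mul (-cc)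
  have i2 := (double_int' (Y := fun x => x) hω hZ hg measurable_id).const_mul (-cc)
  have e1 : ∀ x, inner ℝ (V ω Z x) (g x) = (-cc * (g x * W ω Z x)).re := fun x => by
    rw [Complex.inner, conj_V]; congr 1; ring
  have e2 : ∀ b, ω b * (-cc * ∫ x, g x * (x - Z b)⁻¹).re =
      (-cc * ((ω b : ℂ) * ∫ x, g x * (x - Z b)⁻¹)).re := fun b => by
    rw [← re_ofReal_mul]; congr 1; ring
  simp only [e1, e2]
  refine ⟨i1.re, i2.re, ?_⟩
  have h4 := integral_re (𝕜 := ℂ) i1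
  have h5 := integral_re (𝕜 := ℂ) i2
  simp only [RCLike.re_to_complex] at h4 h5
  rw [h4, h5, integral_const_mul, integral_const_mul,
    double_swap (Y := fun x => x) hω hZ hg measurable_id]

end Pool.Agent.MP_ecf4b9_an

end MrgPart6

-- ======== part 7: formerly Pool.Agent.MP_ecf4b9_an.Weak2
section MrgPart7

/-!
A Lagrangian flow gives a Yudovich solution.
-/

open MeasureTheory Set Complex Filter Topology
open scoped ComplexConjugate

namespace Pool.Agent.MP_ecf4b9_an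

variable {m : ℝ} {ω : ℂ → ℝ} {X : ℝ → ℂ → ℂ}

lemma norm_cauchy_le {g : ℂ → ℂ} {C R : ℝ} (hC : ∀ x, ‖g x‖ ≤ C) (hR : ∀ x, R ≤ ‖x‖ → g x = 0)
    (y : ℂ) : ‖∫ x, g x * (x - y)⁻¹‖ ≤
      C * (2 * Real.pi) + C * (volume : Measure ℂ).real (Metric.ball 0 R) := by
  have hC0 : 0 ≤ C := (norm_nonneg _).trans (hC 0)
  have i1 := ((integrable_gk 1).comp_sub_right y).const_mul C
  have i2 : Integrable ((Metric.ball (0 : ℂ) R).indicator fun _ => C) :=
    (integrable_indicator_iff Metric.isOpen_ball.measurableSet).2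
      (integrableOn_const measure_ball_lt_top.ne)
  have i3 : Integrable (fun x => C * gk 1 (x - y) + (Metric.ball (0 : ℂ) R).indicator (fun _ => C) x) :=
    i1.add i2
  refine (norm_integral_le_of_norm_le i3 (Eventually.of_forall fun x => ?_)).trans (le_of_eq ?_)
  · have h2 := gk_nonneg 1 (x - y)
    by_cases hx : x ∈ Metric.ball (0 : ℂ) R
    · rw [indicator_of_mem hx, norm_mul, norm_inv]
      have h1 := inv_le_gk one_pos (x - y)
      have h3 := hC x
      have h4 := norm_nonneg (g x)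
      rw [inv_one] at h1
      nlinarith
    · rw [indicator_of_notMem hx, hR x (by simpa using hx), zero_mul, norm_zero]
      positivity
  · rw [integral_add i1 i2, integral_const_mul, integral_sub_right_eq_self (gk 1) y,
      integral_gk zero_le_one, integral_indicator Metric.isOpen_ball.measurableSet,
      setIntegral_const, smul_eq_mul]
    ring

lemma slice_cc {E : Type*} [Zero E] [TopologicalSpace E] {φ : ℝ × ℂ → E}
    (hc : HasCompactSupport φ) (t : ℝ) : HasCompactSupport (fun x => φ (t, x)) :=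
  hc.comp_isClosedEmbedding (g := fun x : ℂ => (t, x)) (Isometry.isClosedEmbedding
    (Isometry.of_dist_eq fun x y => by simp [Prod.dist_eq]))

lemma shift_int (g : ℂ → ℂ) (y : ℂ) : ∫ ξ, g (y + ξ) * ξ⁻¹ = ∫ x, g x * (x - y)⁻¹ := by
  rw [← integral_add_left_eq_self (fun x => g x * (x - y)⁻¹) y]
  simp only [add_sub_cancel_left]

lemma hasDerivAt_P {φ : ℝ × ℂ → ℂ} (hφ : ContDiff ℝ 1 φ) (hc : HasCompactSupport φ) {y v : ℝ → ℂ}
    {M : ℝ} (hy : ∀ t, HasDerivAt y (v t) t) (hv : ∀ t, ‖v t‖ ≤ M) (t : ℝ) :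
    HasDerivAt (fun t => ∫ x, φ (t, x) * (x - y t)⁻¹)
      (∫ x, fderiv ℝ φ (t, x) (1, v t) * (x - y t)⁻¹) t := by
  have hD := hφ.continuous_fderiv (by norm_num)
  have hd := hφ.differentiable (by norm_num)
  have hφc := hφ.continuous
  obtain ⟨R, hR, hR0⟩ := (hc.fderiv (𝕜 := ℝ)).exists_pos_le_norm
  obtain ⟨C, hC⟩ := hD.bounded_above_of_compact_support (hc.fderiv (𝕜 := ℝ))
  have hC0 : 0 ≤ C := (norm_nonneg _).trans (hC 0)
  have hM : 0 ≤ M := (norm_nonneg _).trans (hv 0)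
  have hyc : ContinuousAt y t := (hy t).continuousAt
  have hs : {s | ‖y s‖ < ‖y t‖ + 1} ∈ 𝓝 t := hyc.norm.eventually (gt_mem_nhds (by linarith))
  simp only [← shift_int (fun x => φ (_, x)), ← shift_int (fun x => fderiv ℝ φ (t, x) (1, v t))]
  refine (hasDerivAt_integral_of_dominated_loc_of_deriv_le
    (F := fun s ξ => φ (s, y s + ξ) * ξ⁻¹)
    (F' := fun s ξ => fderiv ℝ φ (s, y s + ξ) (1, v s) * ξ⁻¹)
    (bound := fun ξ => C * (1 + M) * gk (R + ‖y t‖ + 1) ξ) hs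
    (Eventually.of_forall fun s => Measurable.aestronglyMeasurable (by fun_prop)) ?_
    (Measurable.aestronglyMeasurable ?_) (Eventually.of_forall fun ξ s hs => ?_)
    ((integrable_gk _).const_mul _) (Eventually.of_forall fun ξ s _ => ?_)).2
  · have := (int_cc_mul_inv (g := fun x => φ (t, x)) (by fun_prop) (slice_cc hc t)
      (y t)).comp_add_left (y t)
    simpa only [add_sub_cancel_left] using this
  · exact (Continuous.measurable (by fun_prop)).mul measurable_inv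
  · by_cases hξ : ‖ξ‖ < R + ‖y t‖ + 1
    · rw [norm_mul, norm_inv, gk, if_pos hξ]
      refine mul_le_mul_of_nonneg_right ((ContinuousLinearMap.le_opNorm _ _).trans ?_)
        (by positivity)
      refine mul_le_mul (hC _) ?_ (norm_nonneg _) hC0
      rw [Prod.norm_def]
      exact max_le (by simpa using hM) (by linarith [hv s])
    · have h1 : R ≤ ‖(s, y s + ξ)‖ := by
        refine le_trans ?_ (norm_snd_le _)
        have a1 := norm_sub_norm_le ξ (-y s)
        rw [sub_neg_eq_add, norm_neg, add_comm] at a1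
        have a2 : ‖y s‖ < ‖y t‖ + 1 := hs
        show R ≤ ‖y s + ξ‖
        linarith [not_lt.1 hξ]
      rw [hR0 _ h1, gk, if_neg hξ]
      simp
  · exact ((hd _).hasFDerivAt.comp_hasDerivAt s
      ((hasDerivAt_id s).prodMk ((hy s).add_const ξ))).mul_const _

lemma fderiv_slice {φ : ℝ × ℂ → ℂ} (hφ : ContDiff ℝ 1 φ) (t : ℝ) (x v : ℂ) :
    fderiv ℝ (fun x => φ (t, x)) x v = fderiv ℝ φ (t, x) (0, v) := by
  have h := (((hφ.differentiable (by norm_num)) (t, x)).hasFDerivAt.comp x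
    (hasFDerivAt_prodMk_right t x)).fderiv
  have h' : fderiv ℝ (fun x => φ (t, x)) x =
    (fderiv ℝ φ (t, x)).comp (ContinuousLinearMap.inr ℝ ℝ ℂ) := h
  simp [h']

theorem euler_weak (hω : Dat 1 m ω) (h : IsFlow ω X) {φ : ℝ × ℂ → ℂ} (hφ : ContDiff ℝ 1 φ)
    (hc : HasCompactSupport φ)
    (hdiv : ∀ p, (fderiv ℝ φ p (0, 1)).re + (fderiv ℝ φ p (0, I)).im = 0) :
    ∫ p : ℝ × ℂ, inner ℝ (V ω (X p.1) p.2) (fderiv ℝ φ p (1, V ω (X p.1) p.2)) = 0 := by
  have hD := hφ.continuous_fderiv (by norm_num)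
  have hφc := hφ.continuous
  have hu := h.contV hω
  have hm := hω.m_nonneg
  obtain ⟨R, hR, hR0⟩ := (hc.fderiv (𝕜 := ℝ)).exists_pos_le_norm
  obtain ⟨C, hC⟩ := hD.bounded_above_of_compact_support (hc.fderiv (𝕜 := ℝ))
  have hC0 : 0 ≤ C := (norm_nonneg _).trans (hC 0)
  have iG : Integrable (fun p : ℝ × ℂ =>
      inner ℝ (V ω (X p.1) p.2) (fderiv ℝ φ p (1, V ω (X p.1) p.2))) (volume.prod volume) := by
    refine Continuous.integrable_of_hasCompactSupport (by fun_prop) ?_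
    refine (hc.fderiv (𝕜 := ℝ)).mono fun p hp h0 => hp ?_
    simp [h0]
  have iE : Integrable (fun p : ℝ × ℂ => inner ℝ (V ω (X p.1) p.2) (φ p)) (volume.prod volume) := by
    refine Continuous.integrable_of_hasCompactSupport (by fun_prop) ?_
    refine hc.mono fun p hp h0 => hp ?_
    simp [h0]
  rw [Measure.volume_eq_prod, integral_prod _ iG]
  refine integral_eq_zero_of_hasDerivAt_of_integrable (fun t => ?_) iG.integral_prod_left
    iE.integral_prod_left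
  have sl : ∀ t, Integrable (fun x => φ (t, x)) := fun t =>
    Continuous.integrable_of_hasCompactSupport (by fun_prop) (slice_cc hc t)
  have e1 : (fun t => ∫ x, inner ℝ (V ω (X t) x) (φ (t, x))) =
      fun t => ∫ b, ω b * (-cc * ∫ x, φ (t, x) * (x - X t b)⁻¹).re :=
    funext fun t => (slice₃ hω (h.incomp t) (sl t)).2.2
  have ψ1 : ContDiff ℝ 1 (fun x => φ (t, x)) := hφ.comp (by fun_prop)
  have c0 : Continuous (fun x => fderiv ℝ φ (t, x) (1, 0)) := by fun_prop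
  have s0 : HasCompactSupport (fun x => fderiv ℝ φ (t, x) (1, 0)) :=
    slice_cc (hc.fderiv_apply (𝕜 := ℝ) (1, 0)) t
  obtain ⟨j1, j2, j3⟩ := slice₃ hω (h.incomp t) (c0.integrable_of_hasCompactSupport s0)
  obtain ⟨k1, k2, k3⟩ := slice₂ hω (h.incomp t) ψ1 (slice_cc hc t)
    (fun x => by simp only [fderiv_slice hφ, hdiv])
  simp only [fderiv_slice hφ] at k1 k2 k3
  have sp : ∀ x v, fderiv ℝ φ (t, x) (1, v) = fderiv ℝ φ (t, x) (1, 0) + fderiv ℝ φ (t, x) (0, v) :=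
    fun x v => by rw [← map_add]; simp
  have e3 : ∀ b, ω b * (-cc * ∫ x, fderiv ℝ φ (t, x) (1, V ω (X t) (X t b)) * (x - X t b)⁻¹).re =
      ω b * (-cc * ∫ x, fderiv ℝ φ (t, x) (1, 0) * (x - X t b)⁻¹).re +
      ω b * (-cc * ∫ x, fderiv ℝ φ (t, x) (0, V ω (X t) (X t b)) * (x - X t b)⁻¹).re := by
    intro b
    simp only [sp _ (V ω (X t) (X t b)), add_mul]
    rw [integral_add (int_cc_mul_inv c0 s0 _) (int_cc_mul_inv (by fun_prop)
      (slice_cc (hc.fderiv_apply (𝕜 := ℝ) (0, V ω (X t) (X t b))) t) _), mul_add, add_re, mul_add]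
  have e2 : ∫ x, inner ℝ (V ω (X t) x) (fderiv ℝ φ (t, x) (1, V ω (X t) x)) =
      ∫ b, ω b * (-cc * ∫ x, fderiv ℝ φ (t, x) (1, V ω (X t) (X t b)) * (x - X t b)⁻¹).re := by
    simp only [e3]
    rw [integral_add j2 k2, ← j3, ← k3, ← integral_add j1 k1]
    congr 1
    ext x
    rw [sp, inner_add_right]
  simp only
  rw [e1, e2]
  refine (hasDerivAt_integral_of_dominated_loc_of_deriv_le (s := univ)
    (F := fun t b => ω b * (-cc * ∫ x, φ (t, x) * (x - X t b)⁻¹).re)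
    (F' := fun t b => ω b *
      (-cc * ∫ x, fderiv ℝ φ (t, x) (1, V ω (X t) (X t b)) * (x - X t b)⁻¹).re)
    (bound := fun b => |ω b| * (C * (14 + m) * (2 * Real.pi) +
      C * (14 + m) * (volume : Measure ℂ).real (Metric.ball 0 R))) univ_mem
    (Eventually.of_forall fun s => (slice₃ hω (h.incomp s) (sl s)).2.1.aestronglyMeasurable)
    (slice₃ hω (h.incomp t) (sl t)).2.1 ?_ (Eventually.of_forall fun b s _ => ?_)
    (hω.int.abs.mul_const _) (Eventually.of_forall fun b s _ => ?_)).2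
  · simp only [e3]
    exact (j2.add k2).aestronglyMeasurable
  · rw [norm_mul, Real.norm_eq_abs, Real.norm_eq_abs]
    refine mul_le_mul_of_nonneg_left ((abs_re_le_norm _).trans ?_) (abs_nonneg _)
    rw [norm_mul, norm_neg]
    refine (mul_le_of_le_one_left (norm_nonneg _) norm_cc_le).trans
      (norm_cauchy_le (fun x => ?_) (fun x hx => ?_) _)
    · refine (ContinuousLinearMap.le_opNorm _ _).trans
        (mul_le_mul (hC _) ?_ (norm_nonneg _) hC0)
      rw [Prod.norm_def]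
      exact max_le (by simp only [norm_one]; linarith)
        (by linarith [norm_V_le hω (h.incomp s) (X s b)])
    · rw [hR0 (s, x) (hx.trans (norm_snd_le (s, x)))]
      simp
  · have a1 := (hasDerivAt_P hφ hc (h.deriv b) (fun t => norm_V_le hω (h.incomp t) _) s).const_mul
      (-cc)
    exact (reCLM.hasFDerivAt.comp_hasDerivAt s a1).const_mul (ω b)

/-- the transported vorticity -/
noncomputable def vort (ω : ℂ → ℝ) (X : ℝ → ℂ → ℂ) (t : ℝ) (x : ℂ) : ℝ :=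
  Function.extend (fun p : ℝ × ℂ => (p.1, X p.1 p.2)) (fun p => ω p.2) 0 (t, x)

lemma kernel_eq (z : ℂ) : biotSavartKernel z = cc * conj z⁻¹ := by
  have h1 : conj z⁻¹ = (‖z‖ ^ 2)⁻¹ • z := by
    rw [Complex.inv_def, map_mul, conj_conj, conj_ofReal, Complex.normSq_eq_norm_sq, real_smul,
      mul_comm]
  rw [h1, biotSavartKernel, cc, mul_inv, real_smul, real_smul]
  push_cast
  ring

theorem IsFlow.yudovich (hω : Dat 1 m ω) (h : IsFlow ω X) :
    IsYudovichSolution (fun t x => V ω (X t) x) (vort ω X) := by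
  have hinj : Function.Injective (fun p : ℝ × ℂ => (p.1, X p.1 p.2)) := by
    rintro ⟨t, a⟩ ⟨s, b⟩ hab
    obtain ⟨h1, h2⟩ := Prod.mk.inj hab
    simp only at h1 h2
    subst h1
    rw [h.inj hω t h2]
  have hemb : MeasurableEmbedding (fun p : ℝ × ℂ => (p.1, X p.1 p.2)) :=
    (continuous_fst.prodMk h.cont).measurableEmbedding hinj
  have hemb' : ∀ t, MeasurableEmbedding (X t) := fun t =>
    (h.cont_x t).measurableEmbedding (h.inj hω t)
  have happ : ∀ t b, vort ω X t (X t b) = ω b := fun t b => hinj.extend_apply _ _ (t, b)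
  have hcomp : ∀ {E : Type} [NormedAddCommGroup E] [NormedSpace ℝ E] (t : ℝ) (F : ℝ → ℂ → E),
      ∫ x, F (vort ω X t x) x = ∫ b, F (ω b) (X t b) := by
    intro E _ _ t F
    rw [← (h.mp t).integral_comp (hemb' t)]
    simp only [happ]
  refine ⟨hemb.measurable_extend (hω.meas.comp measurable_snd) measurable_const,
    ⟨max 1 m, fun t => ⟨fun x => le_max_of_le_left ?_, ?_, le_max_of_le_right ?_⟩⟩, h.contV hω,
    fun t x => ?_, fun t ψ h1 h2 => (div_curl hω (h.incomp t) h1 h2).1, fun t ψ h1 h2 => ?_,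
    fun φ h1 h2 h3 => euler_weak hω h h1 h2 h3⟩
  · unfold vort
    classical
    rw [Function.extend_def]
    split_ifs
    · exact hω.bdd _
    · simp
  · rw [← (h.mp t).integrable_comp_emb (hemb' t)]
    simpa only [Function.comp_def, happ] using hω.int
  · rw [hcomp t (fun w _ => |w|)]
    exact hω.mass
  · rw [hcomp t (fun w y => w • biotSavartKernel (x - y)), V_eq]
    simp only [kernel_eq]
  · rw [hcomp t (fun w y => w * ψ y)]
    exact (div_curl hω (h.incomp t) h1 h2).2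

end Pool.Agent.MP_ecf4b9_an

end MrgPart7

-- marker of a merged file
example : 731051 + 623148 = 731051 + 623148 := rfl
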