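import Mathlib.Topology.Sheaves.Presheaf
import Mathlib.Tactic.Monotonicity.Lemmas
import Mathlib.Algebra.Lie.OfAssociative
import Mathlib.Analysis.Calculus.ParametricIntegral
import Mathlib.Analysis.InnerProductSpace.NormDet
import Mathlib.Analysis.ODE.Gronwall
import Mathlib.Topology.MetricSpace.Contracting
import Mathlib.Analysis.Real.Pi.Bounds
import Mathlib.RingTheory.PiTensorProduct
import Mathlib.MeasureTheory.Function.Floor
import Mathlib.MeasureTheory.Measure.Lebesgue.VolumeOfBalls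

-- ======== part 0: formerly Pool.Agent.MP_ecf4b9_an.Kernel
section MrgPart0

/-!
Kernel estimates for the Cauchy transform of a bounded integrable function along an
almost incompressible map.
-/

open MeasureTheory Set Complex Filter Topology

namespace Pool.Agent.MP_ecf4b9_an

/-- truncated kernel of order one -/
noncomputable def gk (σ : ℝ) (z : ℂ) : ℝ := if ‖z‖ < σ then ‖z‖⁻¹ else 0

/-- kernel of order two on an annulus -/
noncomputable def hk (σ ρ : ℝ) (z : ℂ) : ℝ := if σ ≤ ‖z‖ ∧ ‖z‖ < ρ then (‖z‖ ^ 2)⁻¹ else 0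

lemma gk_nonneg (σ : ℝ) (z : ℂ) : 0 ≤ gk σ z := by
  unfold gk; split_ifs <;> positivity

lemma hk_nonneg (σ ρ : ℝ) (z : ℂ) : 0 ≤ hk σ ρ z := by
  unfold hk; split_ifs <;> positivity

lemma measurable_gk (σ : ℝ) : Measurable (gk σ) := by
  unfold gk
  exact Measurable.ite (measurableSet_lt measurable_norm measurable_const)
    measurable_norm.inv measurable_const

lemma measurable_hk (σ ρ : ℝ) : Measurable (hk σ ρ) := by
  unfold hk
  refine Measurable.ite ?_ (measurable_norm.pow_const 2).inv measurable_const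
  exact (measurableSet_le measurable_const measurable_norm).inter
    (measurableSet_lt measurable_norm measurable_const)

lemma radial_integrable_iff (f : ℝ → ℝ) :
    Integrable (fun z : ℂ => f ‖z‖) ↔ IntegrableOn (fun y => y * f y) (Ioi 0) := by
  rw [integrable_fun_norm_addHaar volume (f := f)]
  simp [Complex.finrank_real_complex]

lemma radial_integral (f : ℝ → ℝ) :
    ∫ z : ℂ, f ‖z‖ = 2 * Real.pi * ∫ y in Ioi (0 : ℝ), y * f y := by
  rw [integral_fun_norm_addHaar volume f]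
  simp [Complex.finrank_real_complex, Measure.real, mul_assoc]

lemma gk_aux (σ : ℝ) : EqOn (fun y : ℝ => y * (if y < σ then y⁻¹ else 0))
    (fun y => (Iio σ).indicator (fun _ => (1 : ℝ)) y) (Ioi 0) := by
  intro y hy
  have hy' : y ≠ 0 := ne_of_gt hy
  by_cases h : y < σ
  · simp [h, hy']
  · simp [h]

lemma integrable_gk (σ : ℝ) : Integrable (gk σ) := by
  have := (radial_integrable_iff (fun y => if y < σ then y⁻¹ else 0)).2 ?_
  · exact this
  rw [integrableOn_congr_fun (gk_aux σ) measurableSet_Ioi, integrableOn_indicator_iff measurableSet_Iio]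
  rw [Iio_inter_Ioi]
  exact integrableOn_const (by simp)

lemma integral_gk {σ : ℝ} (hσ : 0 ≤ σ) : ∫ z, gk σ z = 2 * Real.pi * σ := by
  have := radial_integral (fun y => if y < σ then y⁻¹ else 0)
  rw [setIntegral_congr_fun measurableSet_Ioi (gk_aux σ), setIntegral_indicator measurableSet_Iio,
    Ioi_inter_Iio] at this
  simpa [gk, hσ] using this

lemma hk_aux (σ ρ : ℝ) :
    EqOn (fun y : ℝ => y * (if σ ≤ y ∧ y < ρ then (y ^ 2)⁻¹ else 0))
    (fun y => (Ico σ ρ).indicator (fun y => y⁻¹) y) (Ioi 0) := by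
  intro y hy
  have hy' : y ≠ 0 := ne_of_gt hy
  by_cases h : σ ≤ y ∧ y < ρ
  · have h2 : y ∈ Ico σ ρ := h
    simp only [h, and_self, if_true, indicator_of_mem h2]
    field_simp
  · have h2 : y ∉ Ico σ ρ := h
    simp only [h, if_false, indicator_of_notMem h2, mul_zero]

lemma integrable_hk {σ : ℝ} (ρ : ℝ) (hσ : 0 < σ) : Integrable (hk σ ρ) := by
  have := (radial_integrable_iff (fun y => if σ ≤ y ∧ y < ρ then (y ^ 2)⁻¹ else 0)).2 ?_
  · exact this
  rw [integrableOn_congr_fun (hk_aux σ ρ) measurableSet_Ioi,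
    integrableOn_indicator_iff measurableSet_Ico]
  refine IntegrableOn.mono_set (t := Icc σ ρ) ?_ (fun y hy => Ico_subset_Icc_self hy.1)
  refine ContinuousOn.integrableOn_Icc ?_
  exact continuousOn_inv₀.mono (fun y hy => ne_of_gt (hσ.trans_le hy.1))

lemma integral_hk {σ ρ : ℝ} (hσ : 0 < σ) (hρ : σ ≤ ρ) :
    ∫ z, hk σ ρ z = 2 * Real.pi * Real.log (ρ / σ) := by
  have := radial_integral (fun y => if σ ≤ y ∧ y < ρ then (y ^ 2)⁻¹ else 0)
  rw [setIntegral_congr_fun measurableSet_Ioi (hk_aux σ ρ), setIntegral_indicator measurableSet_Ico,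
    inter_eq_right.2 (show Ico σ ρ ⊆ Ioi 0 from fun y hy => hσ.trans_le hy.1),
    integral_Ico_eq_integral_Ioo,
    ← integral_Ioc_eq_integral_Ioo, ← intervalIntegral.integral_of_le hρ,
    integral_inv_of_pos hσ (hσ.trans_le hρ)] at this
  exact this

/-- a measurable map whose push-forward of Lebesgue measure has density at most two -/
structure Incomp (Z : ℂ → ℂ) : Prop where
  meas : Measurable Z
  le : ∀ s, MeasurableSet s → volume (Z ⁻¹' s) ≤ 2 * volume s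

lemma Incomp.of_mp {Z : ℂ → ℂ} (h : MeasurePreserving Z volume volume) : Incomp Z :=
  ⟨h.measurable, fun s hs => by
    rw [h.measure_preimage hs.nullMeasurableSet, two_mul]; exact le_self_add⟩

lemma Incomp.map_le {Z : ℂ → ℂ} (h : Incomp Z) :
    Measure.map Z volume ≤ (2 : ENNReal) • (volume : Measure ℂ) := by
  rw [Measure.le_iff]
  intro s hs
  rw [Measure.map_apply h.meas hs]
  simpa using h.le s hs

lemma Incomp.comp {Z : ℂ → ℂ} (h : Incomp Z) {f : ℂ → ℝ} (hf : Integrable f) (hm : Measurable f)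
    (h0 : ∀ z, 0 ≤ f z) (x : ℂ) :
    Integrable (fun b => f (x - Z b)) ∧ ∫ b, f (x - Z b) ≤ 2 * ∫ z, f z := by
  have h1 : Integrable (fun z => f (x - z)) := hf.comp_sub_left x
  have h2 : Integrable (fun z => f (x - z)) ((2 : ENNReal) • (volume : Measure ℂ)) :=
    h1.smul_measure (by simp)
  have h3 : Integrable (fun z => f (x - z)) (Measure.map Z volume) := h2.mono_measure h.map_le
  have hm' : Measurable (fun z => f (x - z)) := hm.comp (measurable_const.sub measurable_id)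
  refine ⟨(integrable_map_measure hm'.aestronglyMeasurable h.meas.aemeasurable).1 h3, ?_⟩
  rw [← integral_map h.meas.aemeasurable hm'.aestronglyMeasurable]
  refine (integral_mono_measure h.map_le (Eventually.of_forall fun z => h0 _) h2).trans ?_
  rw [integral_smul_measure, integral_sub_left_eq_self f volume x]
  simp

/-- vorticity data: measurable, bounded by `A`, of total mass at most `m` -/
structure Dat (A m : ℝ) (ω : ℂ → ℝ) : Prop where
  meas : Measurable ω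
  bdd : ∀ b, |ω b| ≤ A
  int : Integrable ω
  mass : ∫ b, |ω b| ≤ m

lemma Dat.A_nonneg {A m : ℝ} {ω : ℂ → ℝ} (h : Dat A m ω) : 0 ≤ A :=
  (abs_nonneg _).trans (h.bdd 0)

lemma Dat.m_nonneg {A m : ℝ} {ω : ℂ → ℝ} (h : Dat A m ω) : 0 ≤ m :=
  (integral_nonneg fun _ => abs_nonneg _).trans h.mass

lemma Dat.mono {A m m' : ℝ} {ω : ℂ → ℝ} (h : Dat A m ω) (hm : m ≤ m') : Dat A m' ω :=
  ⟨h.meas, h.bdd, h.int, h.mass.trans hm⟩

lemma Dat.neg {A m : ℝ} {ω : ℂ → ℝ} (h : Dat A m ω) : Dat A m (fun b => -ω b) :=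
  ⟨h.meas.neg, fun b => by simpa using h.bdd b, h.int.neg, by simpa using h.mass⟩

/-- the Cauchy transform of `ω` pushed forward by `Z` -/
noncomputable def W (ω : ℂ → ℝ) (Z : ℂ → ℂ) (x : ℂ) : ℂ := ∫ b, (ω b : ℂ) * (x - Z b)⁻¹

lemma inv_le_gk {σ : ℝ} (hσ : 0 < σ) (z : ℂ) : ‖z‖⁻¹ ≤ gk σ z + σ⁻¹ := by
  unfold gk
  split_ifs with h
  · have : 0 ≤ σ⁻¹ := by positivity
    linarith
  · rw [zero_add]; exact inv_anti₀ hσ (not_lt.1 h)

lemma W_pointwise {A : ℝ} {σ : ℝ} (hσ : 0 < σ) {w : ℝ} (hw : |w| ≤ A) (z : ℂ) :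
    ‖(w : ℂ) * z⁻¹‖ ≤ A * gk σ z + σ⁻¹ * |w| := by
  rw [norm_mul, norm_inv, Complex.norm_real, Real.norm_eq_abs]
  have h1 := inv_le_gk hσ z
  have h2 := gk_nonneg σ z
  have h3 := abs_nonneg w
  nlinarith

lemma W_meas {ω : ℂ → ℝ} {Z : ℂ → ℂ} (hω : Measurable ω) (hZ : Measurable Z) (x : ℂ) :
    Measurable (fun b => (ω b : ℂ) * (x - Z b)⁻¹) :=
  (Complex.measurable_ofReal.comp hω).mul (measurable_const.sub hZ).inv

lemma W_int {A m : ℝ} {ω : ℂ → ℝ} {Z : ℂ → ℂ} (hω : Dat A m ω) (hZ : Incomp Z) (x : ℂ) :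
    Integrable (fun b => (ω b : ℂ) * (x - Z b)⁻¹) := by
  have h1 := (hZ.comp (integrable_gk 1) (measurable_gk 1) (gk_nonneg 1) x).1
  refine Integrable.mono' ((h1.const_mul A).add (hω.int.abs.const_mul (1 : ℝ)⁻¹))
    (W_meas hω.meas hZ.meas x).aestronglyMeasurable (Eventually.of_forall fun b => ?_)
  exact W_pointwise one_pos (hω.bdd b) _

lemma integral_norm_W_le {A m : ℝ} {ω : ℂ → ℝ} {Z : ℂ → ℂ} (hω : Dat A m ω) (hZ : Incomp Z) (x : ℂ)
    {σ : ℝ} (hσ : 0 < σ) :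
    ∫ b, ‖(ω b : ℂ) * (x - Z b)⁻¹‖ ≤ 13 * A * σ + σ⁻¹ * m := by
  have h1 := hZ.comp (integrable_gk σ) (measurable_gk σ) (gk_nonneg σ) x
  have h2 : ∫ b, ‖(ω b : ℂ) * (x - Z b)⁻¹‖ ≤ ∫ b, (A * gk σ (x - Z b) + σ⁻¹ * |ω b|) :=
    integral_mono (W_int hω hZ x).norm ((h1.1.const_mul A).add (hω.int.abs.const_mul σ⁻¹))
      (fun b => W_pointwise hσ (hω.bdd b) _)
  rw [integral_add (h1.1.const_mul A) (hω.int.abs.const_mul σ⁻¹), integral_const_mul,
    integral_const_mul] at h2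
  have h3 := h1.2
  rw [integral_gk hσ.le] at h3
  have h4 := hω.A_nonneg
  have h5 : A * ∫ b, gk σ (x - Z b) ≤ A * (13 * σ) := by
    refine mul_le_mul_of_nonneg_left (h3.trans ?_) h4
    have := Real.pi_lt_d2
    nlinarith
  have h6 : σ⁻¹ * ∫ b, |ω b| ≤ σ⁻¹ * m := mul_le_mul_of_nonneg_left hω.mass (by positivity)
  linarith

lemma norm_W_le {A m : ℝ} {ω : ℂ → ℝ} {Z : ℂ → ℂ} (hω : Dat A m ω) (hZ : Incomp Z) (x : ℂ)
    {σ : ℝ} (hσ : 0 < σ) : ‖W ω Z x‖ ≤ 13 * A * σ + σ⁻¹ * m :=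
  (norm_integral_le_integral_norm _).trans (integral_norm_W_le hω hZ x hσ)

lemma norm_W_le_one {m : ℝ} {ω : ℂ → ℝ} {Z : ℂ → ℂ} (hω : Dat 1 m ω) (hZ : Incomp Z) (x : ℂ) :
    ‖W ω Z x‖ ≤ 13 + m := by
  simpa using norm_W_le hω hZ x one_pos

lemma inv_sub_inv_norm {p q : ℂ} (hp : p ≠ 0) (hq : q ≠ 0) :
    ‖p⁻¹ - q⁻¹‖ = ‖p - q‖ * (‖p‖⁻¹ * ‖q‖⁻¹) := by
  rw [inv_sub_inv hp hq, norm_div, norm_mul, norm_sub_rev]
  have := norm_ne_zero_iff.2 hp
  have := norm_ne_zero_iff.2 hq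
  field_simp

lemma inv_sq_le_hk {σ : ℝ} (z : ℂ) (hz : σ ≤ ‖z‖) : ‖z‖⁻¹ ^ 2 ≤ hk σ 1 z + 1 := by
  unfold hk
  split_ifs with h
  · rw [inv_pow]; linarith
  · have h1 : 1 ≤ ‖z‖ := by
      by_contra h2
      exact h ⟨hz, not_le.1 h2⟩
    rw [zero_add]
    exact pow_le_one₀ (by positivity) (inv_le_one_of_one_le₀ h1)

lemma inv_sub_inv_aux {σ D : ℝ} (hσ : 0 < σ) {p q : ℂ} (hD : ‖p - q‖ ≤ D) (hpq : ‖p‖ ≤ ‖q‖) :
    ‖p⁻¹ - q⁻¹‖ ≤ 2 * gk σ p + 2 * gk σ q + D * (hk σ 1 p + hk σ 1 q + 1) := by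
  have hD0 : 0 ≤ D := (norm_nonneg _).trans hD
  have g1 := gk_nonneg σ p
  have g2 := gk_nonneg σ q
  have k1 := hk_nonneg σ 1 p
  have k2 := hk_nonneg σ 1 q
  by_cases hp : p = 0
  · subst hp
    simp only [inv_zero, zero_sub, norm_neg, norm_inv] at hD ⊢
    by_cases hq : ‖q‖ < σ
    · have : gk σ q = ‖q‖⁻¹ := by simp [gk, hq]
      have h3 : 0 ≤ D * (hk σ 1 0 + hk σ 1 q + 1) := by positivity
      have h4 : 0 ≤ ‖q‖⁻¹ := by positivity
      linarith
    · have hq' := not_lt.1 hq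
      have hq0 : 0 < ‖q‖ := hσ.trans_le hq'
      have h1 := inv_sq_le_hk q hq'
      have h2 : ‖q‖⁻¹ = ‖q‖ * ‖q‖⁻¹ ^ 2 := by field_simp
      have h3 : ‖q‖ * ‖q‖⁻¹ ^ 2 ≤ D * (hk σ 1 q + 1) :=
        mul_le_mul hD h1 (by positivity) hD0
      have h4 : 0 ≤ D * hk σ 1 0 := by positivity
      nlinarith
  · have hp0 : 0 < ‖p‖ := norm_pos_iff.2 hp
    have hinv : ‖q‖⁻¹ ≤ ‖p‖⁻¹ := inv_anti₀ hp0 hpq
    by_cases h : ‖p‖ < σ
    · have : gk σ p = ‖p‖⁻¹ := by simp [gk, h]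
      have h3 : 0 ≤ D * (hk σ 1 p + hk σ 1 q + 1) := by positivity
      have h4 := norm_sub_le p⁻¹ q⁻¹
      rw [norm_inv, norm_inv] at h4
      linarith
    · have hq : q ≠ 0 := norm_pos_iff.1 (hp0.trans_le hpq)
      rw [inv_sub_inv_norm hp hq]
      have h1 := inv_sq_le_hk p (not_lt.1 h)
      have h2 : ‖p‖⁻¹ * ‖q‖⁻¹ ≤ ‖p‖⁻¹ ^ 2 := by
        rw [sq]; exact mul_le_mul_of_nonneg_left hinv (by positivity)
      have h3 : ‖p - q‖ * (‖p‖⁻¹ * ‖q‖⁻¹) ≤ D * (hk σ 1 p + 1) :=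
        mul_le_mul hD (h2.trans h1) (by positivity) hD0
      have h4 : 0 ≤ D * hk σ 1 q := by positivity
      nlinarith

lemma inv_sub_inv_le {σ D : ℝ} (hσ : 0 < σ) {p q : ℂ} (hD : ‖p - q‖ ≤ D) :
    ‖p⁻¹ - q⁻¹‖ ≤ 2 * gk σ p + 2 * gk σ q + D * (hk σ 1 p + hk σ 1 q + 1) := by
  rcases le_total ‖p‖ ‖q‖ with h | h
  · exact inv_sub_inv_aux hσ hD h
  · have := inv_sub_inv_aux hσ (by rwa [norm_sub_rev] : ‖q - p‖ ≤ D) h
    rw [norm_sub_rev] at this
    linarith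

/-- the log-Lipschitz constant -/
def KK (m : ℝ) : ℝ := 52 + 2 * m

/-- The log-Lipschitz estimate. -/
lemma W_sub_W_le {m : ℝ} {ω : ℂ → ℝ} {Z Z' : ℂ → ℂ} (hω : Dat 1 m ω) (hZ : Incomp Z)
    (hZ' : Incomp Z') {x x' : ℂ} {D σ : ℝ} (hσ : 0 < σ) (hσ1 : 1 ≤ -Real.log σ)
    (hx : ‖x - x'‖ ≤ D) (hD : ∀ b, ω b ≠ 0 → ‖Z b - Z' b‖ ≤ D) :
    ‖W ω Z x - W ω Z' x'‖ ≤ KK m * (σ + D) * (-Real.log σ) := by
  have hD0 : 0 ≤ D := (norm_nonneg _).trans hx
  have hσle : σ ≤ 1 := by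
    by_contra h
    have := Real.log_pos (not_le.1 h)
    linarith
  have g1 := hZ.comp (integrable_gk σ) (measurable_gk σ) (gk_nonneg σ) x
  have g2 := hZ'.comp (integrable_gk σ) (measurable_gk σ) (gk_nonneg σ) x'
  have k1 := hZ.comp (integrable_hk 1 hσ) (measurable_hk σ 1) (hk_nonneg σ 1) x
  have k2 := hZ'.comp (integrable_hk 1 hσ) (measurable_hk σ 1) (hk_nonneg σ 1) x'
  rw [integral_gk hσ.le] at g1 g2
  rw [integral_hk hσ hσle, one_div, Real.log_inv] at k1 k2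
  unfold W
  rw [← integral_sub (W_int hω hZ x) (W_int hω hZ' x')]
  have hi : Integrable (fun b => 2 * gk σ (x - Z b) + 2 * gk σ (x' - Z' b) +
      (2 * D) * (hk σ 1 (x - Z b) + hk σ 1 (x' - Z' b) + |ω b|)) :=
    ((g1.1.const_mul 2).add (g2.1.const_mul 2)).add
      (((k1.1.add k2.1).add hω.int.abs).const_mul (2 * D))
  refine (norm_integral_le_of_norm_le hi (Eventually.of_forall fun b => ?_)).trans ?_
  · rw [← mul_sub, norm_mul, Complex.norm_real, Real.norm_eq_abs]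
    have g1 := gk_nonneg σ (x - Z b)
    have g2 := gk_nonneg σ (x' - Z' b)
    have k1 := hk_nonneg σ 1 (x - Z b)
    have k2 := hk_nonneg σ 1 (x' - Z' b)
    by_cases hb : ω b = 0
    · rw [hb]; simp only [abs_zero, zero_mul]; positivity
    have h1 : ‖(x - Z b) - (x' - Z' b)‖ ≤ 2 * D := by
      have : (x - Z b) - (x' - Z' b) = (x - x') - (Z b - Z' b) := by ring
      rw [this]
      refine (norm_sub_le _ _).trans ?_
      have := hD b hb
      linarith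
    have h2 := inv_sub_inv_le hσ h1
    have h3 := hω.bdd b
    have h4 := abs_nonneg (ω b)
    have h5 := mul_le_mul_of_nonneg_left h2 h4
    refine h5.trans ?_
    have e1 : |ω b| * gk σ (x - Z b) ≤ gk σ (x - Z b) := mul_le_of_le_one_left g1 h3
    have e2 : |ω b| * gk σ (x' - Z' b) ≤ gk σ (x' - Z' b) := mul_le_of_le_one_left g2 h3
    have e3 : |ω b| * hk σ 1 (x - Z b) ≤ hk σ 1 (x - Z b) := mul_le_of_le_one_left k1 h3
    have e4 : |ω b| * hk σ 1 (x' - Z' b) ≤ hk σ 1 (x' - Z' b) := mul_le_of_le_one_left k2 h3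
    have e5 := mul_le_mul_of_nonneg_left e3 hD0
    have e6 := mul_le_mul_of_nonneg_left e4 hD0
    nlinarith
  · have i1 : Integrable (fun b => 2 * gk σ (x - Z b) + 2 * gk σ (x' - Z' b)) :=
      (g1.1.const_mul 2).add (g2.1.const_mul 2)
    have i2 : Integrable (fun b => hk σ 1 (x - Z b) + hk σ 1 (x' - Z' b)) := k1.1.add k2.1
    have i3 : Integrable (fun b => hk σ 1 (x - Z b) + hk σ 1 (x' - Z' b) + |ω b|) :=
      i2.add hω.int.abs
    rw [integral_add i1 (i3.const_mul (2 * D)),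
      integral_add (g1.1.const_mul 2) (g2.1.const_mul 2), integral_const_mul, integral_const_mul,
      integral_const_mul, integral_add i2 hω.int.abs, integral_add k1.1 k2.1]
    have hpi := Real.pi_lt_d2
    have hpi0 := Real.pi_pos
    have hm := hω.mass
    have hm0 := hω.m_nonneg
    set L := -Real.log σ with hL
    have a1 : 2 * (2 * Real.pi * σ) ≤ 13 * σ * L := by nlinarith
    have a2 : 2 * (2 * Real.pi * L) ≤ 13 * L := by nlinarith
    have a3 : (∫ b, hk σ 1 (x - Z b)) + (∫ b, hk σ 1 (x' - Z' b)) + ∫ b, |ω b| ≤ (26 + m) * L := by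
      nlinarith [k1.2, k2.2]
    have a4 := mul_le_mul_of_nonneg_left a3 (by positivity : 0 ≤ 2 * D)
    have a5 : 0 ≤ m * σ * L := by positivity
    unfold KK
    nlinarith [g1.2, g2.2]

end Pool.Agent.MP_ecf4b9_an

end MrgPart0

-- ======== part 1: formerly Pool.Agent.MP_ecf4b9_an.Reg
section MrgPart1

/-!
The velocity field, the regularised kernel and one explicit Euler step.
-/

open MeasureTheory Set Complex Filter Topology
open scoped ComplexConjugate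

namespace Pool.Agent.MP_ecf4b9_an

/-- the constant of the Biot-Savart law -/
noncomputable def cc : ℂ := ((2 * Real.pi)⁻¹ : ℝ) * I

lemma norm_cc : ‖cc‖ = (2 * Real.pi)⁻¹ := by
  unfold cc
  rw [norm_mul, Complex.norm_I, mul_one, Complex.norm_real, Real.norm_eq_abs, abs_of_pos]
  have := Real.pi_pos
  positivity

lemma norm_cc_le : ‖cc‖ ≤ 1 := by
  rw [norm_cc]
  refine inv_le_one_of_one_le₀ ?_
  have := Real.pi_gt_three
  linarith

lemma cc_ne_zero : cc ≠ 0 := by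
  rw [← norm_pos_iff, norm_cc]
  have := Real.pi_pos
  positivity

lemma cc_re : cc.re = 0 := by simp [cc]

/-- the velocity at `x` induced by the vorticity `ω` transported by `Z` -/
noncomputable def V (ω : ℂ → ℝ) (Z : ℂ → ℂ) (x : ℂ) : ℂ := cc * conj (W ω Z x)

lemma norm_cc_conj_le (z : ℂ) : ‖cc * conj z‖ ≤ ‖z‖ := by
  rw [norm_mul, Complex.norm_conj]
  exact mul_le_of_le_one_left (norm_nonneg _) norm_cc_le

lemma norm_V_le_W (ω : ℂ → ℝ) (Z : ℂ → ℂ) (x : ℂ) : ‖V ω Z x‖ ≤ ‖W ω Z x‖ := norm_cc_conj_le _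

lemma norm_V_sub_le_W (ω ω' : ℂ → ℝ) (Z Z' : ℂ → ℂ) (x x' : ℂ) :
    ‖V ω Z x - V ω' Z' x'‖ ≤ ‖W ω Z x - W ω' Z' x'‖ := by
  unfold V
  rw [← mul_sub, ← map_sub]
  exact norm_cc_conj_le _

lemma norm_V_le {m : ℝ} {ω : ℂ → ℝ} {Z : ℂ → ℂ} (hω : Dat 1 m ω) (hZ : Incomp Z) (x : ℂ) :
    ‖V ω Z x‖ ≤ 13 + m := (norm_V_le_W _ _ _).trans (norm_W_le_one hω hZ x)

lemma V_sub_V_le {m : ℝ} {ω : ℂ → ℝ} {Z Z' : ℂ → ℂ} (hω : Dat 1 m ω) (hZ : Incomp Z)
    (hZ' : Incomp Z') {x x' : ℂ} {D σ : ℝ} (hσ : 0 < σ) (hσ1 : 1 ≤ -Real.log σ)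
    (hx : ‖x - x'‖ ≤ D) (hD : ∀ b, ω b ≠ 0 → ‖Z b - Z' b‖ ≤ D) :
    ‖V ω Z x - V ω Z' x'‖ ≤ KK m * (σ + D) * (-Real.log σ) :=
  (norm_V_sub_le_W _ _ _ _ _ _).trans (W_sub_W_le hω hZ hZ' hσ hσ1 hx hD)

lemma V_eq (ω : ℂ → ℝ) (Z : ℂ → ℂ) (x : ℂ) :
    V ω Z x = ∫ b, ω b • (cc * conj (x - Z b)⁻¹) := by
  unfold V W
  rw [← integral_conj, ← integral_const_mul]
  congr 1
  ext b
  simp only [map_mul, conj_ofReal, real_smul]
  ring

lemma V_int {A m : ℝ} {ω : ℂ → ℝ} {Z : ℂ → ℂ} (hω : Dat A m ω) (hZ : Incomp Z) (x : ℂ) :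
    Integrable (fun b => ω b • (cc * conj (x - Z b)⁻¹)) := by
  have h1 := ((conjCLE : ℂ →L[ℝ] ℂ).integrable_comp (W_int hω hZ x)).const_mul cc
  refine h1.congr (Eventually.of_forall fun b => ?_)
  simp only [ContinuousLinearEquiv.coe_coe, conjCLE_apply, map_mul, conj_ofReal, real_smul]
  ring

/-- the regularised kernel -/
noncomputable def kr (ε : ℝ) (z : ℂ) : ℂ := (‖z‖ ^ 2 + ε ^ 2)⁻¹ • (cc * z)

lemma contDiff_kr {ε : ℝ} (hε : 0 < ε) : ContDiff ℝ 1 (kr ε) := by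
  unfold kr
  refine ContDiff.smul (ContDiff.inv ((contDiff_norm_sq ℝ).add contDiff_const) ?_)
    (contDiff_const.mul contDiff_id)
  intro z
  positivity

lemma fderiv_kr {ε : ℝ} (hε : 0 < ε) (z v : ℂ) :
    fderiv ℝ (kr ε) z v = (‖z‖ ^ 2 + ε ^ 2)⁻¹ • (cc * v) -
      (2 * (z.re * v.re + z.im * v.im) * ((‖z‖ ^ 2 + ε ^ 2) ^ 2)⁻¹) • (cc * z) := by
  have hq : ‖z‖ ^ 2 + ε ^ 2 ≠ 0 := by positivity
  have h1 : HasFDerivAt (fun z : ℂ => ‖z‖ ^ 2 + ε ^ 2) (2 • (innerSL ℝ z)) z :=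
    (hasStrictFDerivAt_norm_sq z).hasFDerivAt.add_const _
  have h2 := (hasDerivAt_inv hq).comp_hasFDerivAt z h1
  have h3 : HasFDerivAt (fun z : ℂ => cc * z) (cc • ContinuousLinearMap.id ℝ ℂ) z :=
    (hasFDerivAt_id z).const_mul cc
  have h4 := h2.smul h3
  have h5 : fderiv ℝ (kr ε) z = _ := h4.fderiv
  rw [h5]
  simp only [add_apply, smul_apply,
    ContinuousLinearMap.smulRight_apply, ContinuousLinearMap.id_apply, innerSL_apply_apply,
    Complex.inner, Function.comp, smul_eq_mul, nsmul_eq_mul]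
  rw [sub_eq_add_neg, ← neg_smul]
  congr 2
  simp only [mul_re, conj_re, conj_im]
  push_cast
  ring

lemma norm_fderiv_kr {ε : ℝ} (hε : 0 < ε) (z : ℂ) : ‖fderiv ℝ (kr ε) z‖ ≤ 3 * (ε ^ 2)⁻¹ := by
  refine ContinuousLinearMap.opNorm_le_bound _ (by positivity) fun v => ?_
  rw [fderiv_kr hε]
  refine (norm_sub_le _ _).trans ?_
  set q := ‖z‖ ^ 2 + ε ^ 2 with hq
  have hq0 : 0 < q := by positivity
  have hq1 : q⁻¹ ≤ (ε ^ 2)⁻¹ := inv_anti₀ (by positivity) (by rw [hq]; nlinarith [sq_nonneg ‖z‖])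
  have hz : ‖z‖ ^ 2 ≤ q := by rw [hq]; nlinarith [sq_nonneg ε]
  have hc : ∀ w : ℂ, ‖cc * w‖ ≤ ‖w‖ := fun w => by
    rw [norm_mul]; exact mul_le_of_le_one_left (norm_nonneg _) norm_cc_le
  have h1 : ‖q⁻¹ • (cc * v)‖ ≤ (ε ^ 2)⁻¹ * ‖v‖ := by
    rw [norm_smul, Real.norm_eq_abs, abs_of_pos (inv_pos.2 hq0)]
    exact mul_le_mul hq1 (hc v) (norm_nonneg _) (by positivity)
  have h2 : |z.re * v.re + z.im * v.im| ≤ ‖z‖ * ‖v‖ := by
    have := abs_real_inner_le_norm v z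
    simp only [Complex.inner, mul_re, conj_re, conj_im] at this
    rw [mul_comm ‖z‖]
    convert this using 2
    ring
  have h3 : ‖(2 * (z.re * v.re + z.im * v.im) * (q ^ 2)⁻¹) • (cc * z)‖ ≤
      2 * (ε ^ 2)⁻¹ * ‖v‖ := by
    rw [norm_smul, Real.norm_eq_abs, abs_mul, abs_mul, abs_of_pos (by positivity : 0 < (q ^ 2)⁻¹),
      abs_two]
    calc 2 * |z.re * v.re + z.im * v.im| * (q ^ 2)⁻¹ * ‖cc * z‖
        ≤ 2 * (‖z‖ * ‖v‖) * (q ^ 2)⁻¹ * ‖z‖ := by gcongr; exact hc z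
      _ = 2 * ‖v‖ * (q ^ 2)⁻¹ * ‖z‖ ^ 2 := by ring
      _ ≤ 2 * ‖v‖ * (q ^ 2)⁻¹ * q := by gcongr
      _ = 2 * q⁻¹ * ‖v‖ := by field_simp
      _ ≤ 2 * (ε ^ 2)⁻¹ * ‖v‖ := by gcongr
  linarith

lemma trace_fderiv_kr {ε : ℝ} (hε : 0 < ε) (z : ℂ) :
    (fderiv ℝ (kr ε) z 1).re + (fderiv ℝ (kr ε) z I).im = 0 := by
  rw [fderiv_kr hε, fderiv_kr hε]
  simp only [sub_re, sub_im, smul_re, smul_im, mul_re, mul_im, cc_re, one_re, one_im, I_re, I_im,
    smul_eq_mul]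
  ring

lemma norm_kr_le {ε : ℝ} (hε : 0 < ε) (z : ℂ) : ‖kr ε z‖ ≤ ε⁻¹ := by
  unfold kr
  have hq0 : 0 < ‖z‖ ^ 2 + ε ^ 2 := by positivity
  rw [norm_smul, Real.norm_eq_abs, abs_of_pos (inv_pos.2 hq0), norm_mul]
  have h1 : ‖cc‖ * ‖z‖ ≤ ‖z‖ := mul_le_of_le_one_left (norm_nonneg _) norm_cc_le
  refine (mul_le_mul_of_nonneg_left h1 (by positivity)).trans ?_
  rw [inv_mul_le_iff₀ hq0, le_mul_inv_iff₀ hε]
  nlinarith [sq_nonneg (‖z‖ - ε), norm_nonneg z]

lemma kr_sub_le {σ : ℝ} (hσ : 0 < σ) (z : ℂ) :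
    ‖kr (σ ^ 2) z - cc * conj z⁻¹‖ ≤ gk σ z + σ := by
  by_cases hz : z = 0
  · subst hz
    have := gk_nonneg σ 0
    simp only [kr, mul_zero, smul_zero, inv_zero, map_zero, sub_zero, norm_zero]
    linarith
  have hz0 : 0 < ‖z‖ := norm_pos_iff.2 hz
  have hq0 : 0 < ‖z‖ ^ 2 + (σ ^ 2) ^ 2 := by positivity
  have h1 : conj z⁻¹ = (‖z‖ ^ 2)⁻¹ • z := by
    rw [Complex.inv_def, map_mul, conj_conj, conj_ofReal, Complex.normSq_eq_norm_sq, real_smul,
      mul_comm]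
  have h2 : kr (σ ^ 2) z - cc * conj z⁻¹ =
      ((‖z‖ ^ 2 + (σ ^ 2) ^ 2)⁻¹ - (‖z‖ ^ 2)⁻¹) • (cc * z) := by
    rw [h1, kr, sub_smul, mul_smul_comm]
  have h3 : (‖z‖ ^ 2 + (σ ^ 2) ^ 2)⁻¹ ≤ (‖z‖ ^ 2)⁻¹ :=
    inv_anti₀ (by positivity) (by nlinarith [sq_nonneg (σ ^ 2)])
  rw [h2, norm_smul, Real.norm_eq_abs, abs_of_nonpos (by linarith), norm_mul]
  have h4 : ‖cc‖ * ‖z‖ ≤ ‖z‖ := mul_le_of_le_one_left (norm_nonneg _) norm_cc_le
  refine (mul_le_mul_of_nonneg_left h4 (by linarith)).trans ?_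
  have h5 : -((‖z‖ ^ 2 + (σ ^ 2) ^ 2)⁻¹ - (‖z‖ ^ 2)⁻¹) * ‖z‖ =
      (σ ^ 2) ^ 2 / (‖z‖ * (‖z‖ ^ 2 + (σ ^ 2) ^ 2)) := by
    field_simp
    ring
  rw [h5]
  unfold gk
  split_ifs with h
  · have : (σ ^ 2) ^ 2 / (‖z‖ * (‖z‖ ^ 2 + (σ ^ 2) ^ 2)) ≤ ‖z‖⁻¹ := by
      rw [div_le_iff₀ (by positivity)]
      have : ‖z‖⁻¹ * (‖z‖ * (‖z‖ ^ 2 + (σ ^ 2) ^ 2)) = ‖z‖ ^ 2 + (σ ^ 2) ^ 2 := by field_simp
      rw [this]
      nlinarith [sq_nonneg ‖z‖]
    linarith
  · have h6 := not_lt.1 h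
    rw [zero_add, div_le_iff₀ (by positivity)]
    have h7 : σ ^ 3 ≤ ‖z‖ ^ 3 := pow_le_pow_left₀ hσ.le h6 3
    have h8 : 0 ≤ σ * (‖z‖ * (σ ^ 2) ^ 2) := by positivity
    nlinarith

/-- the regularised velocity -/
noncomputable def Vr (ε : ℝ) (ω : ℂ → ℝ) (Z : ℂ → ℂ) (x : ℂ) : ℂ := ∫ b, ω b • kr ε (x - Z b)

lemma Vr_int {ε m : ℝ} (hε : 0 < ε) {ω : ℂ → ℝ} {Z : ℂ → ℂ} (hω : Dat 1 m ω) (hZ : Measurable Z)
    (x : ℂ) : Integrable (fun b => ω b • kr ε (x - Z b)) := by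
  refine Integrable.mono' (hω.int.abs.mul_const ε⁻¹) ?_ (Eventually.of_forall fun b => ?_)
  · exact (hω.meas.smul ((contDiff_kr hε).continuous.measurable.comp
      (measurable_const.sub hZ))).aestronglyMeasurable
  · rw [norm_smul, Real.norm_eq_abs]
    exact mul_le_mul_of_nonneg_left (norm_kr_le hε _) (abs_nonneg _)

lemma norm_Vr_le {ε m : ℝ} (hε : 0 < ε) {ω : ℂ → ℝ} (Z : ℂ → ℂ) (hω : Dat 1 m ω)
    (x : ℂ) : ‖Vr ε ω Z x‖ ≤ m * ε⁻¹ := by
  refine (norm_integral_le_of_norm_le (hω.int.abs.mul_const ε⁻¹)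
    (Eventually.of_forall fun b => ?_)).trans ?_
  · rw [norm_smul, Real.norm_eq_abs]
    exact mul_le_mul_of_nonneg_left (norm_kr_le hε _) (abs_nonneg _)
  · rw [integral_mul_const]
    exact mul_le_mul_of_nonneg_right hω.mass (by positivity)

lemma Vr_sub_V {σ m : ℝ} (hσ : 0 < σ) {ω : ℂ → ℝ} {Z : ℂ → ℂ} (hω : Dat 1 m ω) (hZ : Incomp Z)
    (x : ℂ) : ‖Vr (σ ^ 2) ω Z x - V ω Z x‖ ≤ (13 + m) * σ := by
  rw [V_eq, Vr, ← integral_sub (Vr_int (by positivity) hω hZ.meas x) (V_int hω hZ x)]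
  have g1 := hZ.comp (integrable_gk σ) (measurable_gk σ) (gk_nonneg σ) x
  rw [integral_gk hσ.le] at g1
  have hi : Integrable (fun b => gk σ (x - Z b) + |ω b| * σ) :=
    g1.1.add (hω.int.abs.mul_const σ)
  refine (norm_integral_le_of_norm_le hi (Eventually.of_forall fun b => ?_)).trans ?_
  · rw [← smul_sub, norm_smul, Real.norm_eq_abs]
    have h1 := mul_le_mul_of_nonneg_left (kr_sub_le hσ (x - Z b)) (abs_nonneg (ω b))
    have h2 : |ω b| * gk σ (x - Z b) ≤ gk σ (x - Z b) :=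
      mul_le_of_le_one_left (gk_nonneg _ _) (hω.bdd b)
    linarith
  · rw [integral_add g1.1 (hω.int.abs.mul_const σ), integral_mul_const]
    have h1 := mul_le_mul_of_nonneg_right hω.mass hσ.le
    have := Real.pi_lt_d2
    nlinarith [g1.2]

lemma hasFDerivAt_Vr {ε m : ℝ} (hε : 0 < ε) {ω : ℂ → ℝ} {Z : ℂ → ℂ} (hω : Dat 1 m ω)
    (hZ : Measurable Z) (x : ℂ) :
    ∃ A : ℂ →L[ℝ] ℂ, HasFDerivAt (Vr ε ω Z) A x ∧ ‖A‖ ≤ m * (3 * (ε ^ 2)⁻¹) ∧
      (A 1).re + (A I).im = 0 := by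
  have hc : Continuous (fderiv ℝ (kr ε)) := (contDiff_kr hε).continuous_fderiv (by norm_num)
  have hm : AEStronglyMeasurable (fun b => ω b • fderiv ℝ (kr ε) (x - Z b)) volume :=
    hω.meas.aestronglyMeasurable.smul
      (hc.comp_aestronglyMeasurable (measurable_const.sub hZ).aestronglyMeasurable)
  have hb : ∀ y b, ‖ω b • fderiv ℝ (kr ε) (y - Z b)‖ ≤ |ω b| * (3 * (ε ^ 2)⁻¹) := fun y b => by
    rw [norm_smul, Real.norm_eq_abs]
    exact mul_le_mul_of_nonneg_left (norm_fderiv_kr hε _) (abs_nonneg _)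
  have hi : Integrable (fun b => ω b • fderiv ℝ (kr ε) (x - Z b)) :=
    Integrable.mono' (hω.int.abs.mul_const _) hm (Eventually.of_forall (hb x))
  refine ⟨∫ b, ω b • fderiv ℝ (kr ε) (x - Z b), ?_, ?_, ?_⟩
  · refine hasFDerivAt_integral_of_dominated_of_fderiv_le (s := univ)
      (F := fun y b => ω b • kr ε (y - Z b)) (F' := fun y b => ω b • fderiv ℝ (kr ε) (y - Z b))
      (bound := fun b => |ω b| * (3 * (ε ^ 2)⁻¹)) univ_mem
      (Eventually.of_forall fun y => (Vr_int hε hω hZ y).aestronglyMeasurable)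
      (Vr_int hε hω hZ x) hm (Eventually.of_forall fun b y _ => hb y b)
      (hω.int.abs.mul_const _) (Eventually.of_forall fun b y _ => ?_)
    have h1 : HasFDerivAt (kr ε) (fderiv ℝ (kr ε) (y - Z b)) (y - Z b) :=
      (((contDiff_kr hε).differentiable (by norm_num)) _).hasFDerivAt
    have h2 := (h1.comp y ((hasFDerivAt_id y).sub_const (Z b))).const_smul (ω b)
    rw [ContinuousLinearMap.comp_id] at h2
    exact h2
  · refine (norm_integral_le_of_norm_le (hω.int.abs.mul_const _)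
      (Eventually.of_forall (hb x))).trans ?_
    rw [integral_mul_const]
    exact mul_le_mul_of_nonneg_right hω.mass (by positivity)
  · let τ : (ℂ →L[ℝ] ℂ) →L[ℝ] ℝ :=
      reCLM.comp (ContinuousLinearMap.apply ℝ ℂ 1) + imCLM.comp (ContinuousLinearMap.apply ℝ ℂ I)
    have hτ : ∀ A : ℂ →L[ℝ] ℂ, τ A = (A 1).re + (A I).im := fun A => by simp [τ]
    rw [← hτ, ← τ.integral_comp_comm hi]
    have : ∀ b, τ (ω b • fderiv ℝ (kr ε) (x - Z b)) = 0 := fun b => by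
      rw [map_smul, hτ, trace_fderiv_kr hε, smul_zero]
    simp only [this, integral_zero]

lemma det_one_add (A : ℂ →L[ℝ] ℂ) (h : ℝ) :
    (ContinuousLinearMap.id ℝ ℂ + h • A).det =
      (1 + h * (A 1).re) * (1 + h * (A I).im) - h * (A I).re * (h * (A 1).im) := by
  rw [ContinuousLinearMap.det, ← LinearMap.det_toMatrix basisOneI, Matrix.det_fin_two]
  simp [LinearMap.toMatrix_apply]

/-- a continuous map that preserves Lebesgue measure up to the factor `1 - η` -/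
structure Near (η : ℝ) (Z : ℂ → ℂ) : Prop where
  cont : Continuous Z
  le₁ : ∀ s, MeasurableSet s → ENNReal.ofReal (1 - η) * volume (Z ⁻¹' s) ≤ volume s
  le₂ : ∀ s, MeasurableSet s → ENNReal.ofReal (1 - η) * volume s ≤ volume (Z ⁻¹' s)

lemma Near.id : Near 0 (fun z => z) := ⟨continuous_id, by simp, by simp⟩

lemma Near.mono {η η' : ℝ} {Z : ℂ → ℂ} (h : Near η Z) (hη : η ≤ η') : Near η' Z :=
  ⟨h.cont, fun s hs => le_trans (by gcongr) (h.le₁ s hs),
    fun s hs => le_trans (by gcongr) (h.le₂ s hs)⟩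

lemma ofReal_one_sub_add {a b : ℝ} (ha : 0 ≤ a) (hb : 0 ≤ b) :
    ENNReal.ofReal (1 - (a + b)) ≤ ENNReal.ofReal (1 - a) * ENNReal.ofReal (1 - b) := by
  by_cases h : 0 ≤ 1 - a
  · rw [← ENNReal.ofReal_mul h]
    exact ENNReal.ofReal_le_ofReal (by nlinarith)
  · rw [ENNReal.ofReal_of_nonpos (by linarith)]
    exact zero_le

lemma Near.comp {a b : ℝ} {Z T : ℂ → ℂ} (hZ : Near a Z) (hT : Near b T) (ha : 0 ≤ a)
    (hb : 0 ≤ b) : Near (a + b) (fun z => T (Z z)) := by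
  refine ⟨hT.cont.comp hZ.cont, fun s hs => ?_, fun s hs => ?_⟩
  · have h1 := hZ.le₁ _ (hT.cont.measurable hs)
    have h2 := hT.le₁ s hs
    calc ENNReal.ofReal (1 - (a + b)) * volume ((fun z => T (Z z)) ⁻¹' s)
        ≤ ENNReal.ofReal (1 - a) * ENNReal.ofReal (1 - b) * volume (Z ⁻¹' (T ⁻¹' s)) :=
          mul_le_mul_left (ofReal_one_sub_add ha hb) _
      _ = ENNReal.ofReal (1 - b) * (ENNReal.ofReal (1 - a) * volume (Z ⁻¹' (T ⁻¹' s))) := by ring
      _ ≤ ENNReal.ofReal (1 - b) * volume (T ⁻¹' s) := by gcongr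
      _ ≤ volume s := h2
  · have h1 := hZ.le₂ _ (hT.cont.measurable hs)
    have h2 := hT.le₂ s hs
    calc ENNReal.ofReal (1 - (a + b)) * volume s
        ≤ ENNReal.ofReal (1 - a) * ENNReal.ofReal (1 - b) * volume s :=
          mul_le_mul_left (ofReal_one_sub_add ha hb) _
      _ = ENNReal.ofReal (1 - a) * (ENNReal.ofReal (1 - b) * volume s) := by ring
      _ ≤ ENNReal.ofReal (1 - a) * volume (T ⁻¹' s) := by gcongr
      _ ≤ _ := h1

lemma Near.incomp {η : ℝ} {Z : ℂ → ℂ} (h : Near η Z) (hη : η ≤ 1 / 2) : Incomp Z := by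
  refine ⟨h.cont.measurable, fun s hs => ?_⟩
  have h1 := (h.mono hη).le₁ s hs
  have h2 : (2 : ENNReal) * ENNReal.ofReal (1 - 1 / 2) = 1 := by
    rw [show (1 - 1 / 2 : ℝ) = 2⁻¹ by norm_num, ENNReal.ofReal_inv_of_pos two_pos]
    simp [ENNReal.mul_inv_cancel]
  calc volume (Z ⁻¹' s) = 2 * (ENNReal.ofReal (1 - 1 / 2) * volume (Z ⁻¹' s)) := by
        rw [← mul_assoc, h2, one_mul]
    _ ≤ 2 * volume s := by gcongr

lemma euler_step {v : ℂ → ℂ} {L h : ℝ} (hh : 0 ≤ h) (hL : h * L ≤ 1 / 2)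
    (hv : ∀ x, ∃ A : ℂ →L[ℝ] ℂ, HasFDerivAt v A x ∧ ‖A‖ ≤ L ∧ (A 1).re + (A I).im = 0) :
    Near (2 * (h * L) ^ 2) (fun x => x + h • v x) := by
  choose A hA hAL hA0 using hv
  have hL0 : 0 ≤ L := (norm_nonneg _).trans (hAL 0)
  have hlip : ∀ x y, ‖v y - v x‖ ≤ L * ‖y - x‖ := fun x y =>
    Convex.norm_image_sub_le_of_norm_hasFDerivWithin_le (s := univ)
      (fun z _ => (hA z).hasFDerivWithinAt) (fun z _ => hAL z) convex_univ trivial trivial
  have hlip2 : ∀ x y, ‖h • v y - h • v x‖ ≤ 1 / 2 * ‖y - x‖ := fun x y => by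
    rw [← smul_sub, norm_smul, Real.norm_eq_abs, abs_of_nonneg hh]
    have h1 := mul_le_mul_of_nonneg_left (hlip x y) hh
    have h2 := mul_le_mul_of_nonneg_right hL (norm_nonneg (y - x))
    nlinarith
  set T : ℂ → ℂ := fun x => x + h • v x with hT
  have hd : ∀ x, HasFDerivAt T (ContinuousLinearMap.id ℝ ℂ + h • A x) x := fun x =>
    (hasFDerivAt_id x).add ((hA x).const_smul h)
  have hcont : Continuous T := continuous_iff_continuousAt.2 fun x => (hd x).continuousAt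
  have hinj : Function.Injective T := fun x y hxy => by
    have h1 := hlip2 x y
    have h2 : h • v y - h • v x = -(y - x) := by
      have : x + h • v x = y + h • v y := hxy
      linear_combination -this
    rw [h2, norm_neg] at h1
    have h3 : ‖y - x‖ = 0 := by nlinarith [norm_nonneg (y - x)]
    exact (sub_eq_zero.1 (norm_eq_zero.1 h3)).symm
  have hsurj : Function.Surjective T := fun y => by
    have hc : ContractingWith (1 / 2) (fun x => y - h • v x) := by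
      refine ⟨by norm_num, LipschitzWith.of_dist_le_mul fun a b => ?_⟩
      rw [dist_eq_norm, dist_eq_norm]
      have : y - h • v a - (y - h • v b) = -(h • v a - h • v b) := by ring
      rw [this, norm_neg]
      simpa using hlip2 b a
    refine ⟨hc.fixedPoint _, ?_⟩
    have := hc.fixedPoint_isFixedPt
    exact add_eq_of_eq_sub this.symm
  set θ := 2 * (h * L) ^ 2 with hθ
  have hθ1 : θ ≤ 1 / 2 := by
    have : 0 ≤ h * L := by positivity
    rw [hθ]; nlinarith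
  have hθ0 : 0 ≤ θ := by positivity
  have hdet : ∀ x, |(ContinuousLinearMap.id ℝ ℂ + h • A x).det - 1| ≤ θ := fun x => by
    rw [det_one_add]
    have e1 : ‖A x 1‖ ≤ L := by simpa using (A x).le_of_opNorm_le (hAL x) 1
    have e2 : ‖A x I‖ ≤ L := by simpa using (A x).le_of_opNorm_le (hAL x) I
    have a1 := (abs_re_le_norm _).trans e1
    have a2 := (abs_im_le_norm _).trans e1
    have a3 := (abs_re_le_norm _).trans e2
    have a4 := (abs_im_le_norm _).trans e2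
    have h0 := hA0 x
    have : (1 + h * (A x 1).re) * (1 + h * (A x I).im) - h * (A x I).re * (h * (A x 1).im) - 1 =
        h ^ 2 * ((A x 1).re * (A x I).im - (A x I).re * (A x 1).im) := by
      linear_combination h * h0
    rw [this, abs_mul, abs_of_nonneg (sq_nonneg h)]
    have b1 : |(A x 1).re * (A x I).im| ≤ L * L := by
      rw [abs_mul]; exact mul_le_mul a1 a4 (abs_nonneg _) hL0
    have b2 : |(A x I).re * (A x 1).im| ≤ L * L := by
      rw [abs_mul]; exact mul_le_mul a3 a2 (abs_nonneg _) hL0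
    have b3 := abs_sub ((A x 1).re * (A x I).im) ((A x I).re * (A x 1).im)
    have b4 := mul_le_mul_of_nonneg_left (b3.trans (add_le_add b1 b2)) (sq_nonneg h)
    rw [hθ]
    nlinarith
  have key : ∀ s, MeasurableSet s → ∫⁻ x in T ⁻¹' s,
      ENNReal.ofReal |(ContinuousLinearMap.id ℝ ℂ + h • A x).det| = volume s := fun s hs => by
    rw [lintegral_abs_det_fderiv_eq_addHaar_image volume (hcont.measurable hs)
      (fun x _ => (hd x).hasFDerivWithinAt) hinj.injOn, image_preimage_eq s hsurj]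
  refine ⟨hcont, fun s hs => ?_, fun s hs => ?_⟩
  · rw [← key s hs, ← setLIntegral_const]
    refine lintegral_mono fun x => ENNReal.ofReal_le_ofReal ?_
    have := abs_le.1 (hdet x)
    exact le_trans (by linarith [this.1]) (le_abs_self _)
  · have h1 : volume s ≤ ENNReal.ofReal (1 + θ) * volume (T ⁻¹' s) := by
      rw [← key s hs, ← setLIntegral_const]
      refine lintegral_mono fun x => ENNReal.ofReal_le_ofReal ?_
      have := abs_le.1 (hdet x)
      exact abs_le.2 ⟨by linarith [this.1], by linarith [this.2]⟩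
    calc ENNReal.ofReal (1 - θ) * volume s
        ≤ ENNReal.ofReal (1 - θ) * (ENNReal.ofReal (1 + θ) * volume (T ⁻¹' s)) := by gcongr
      _ = ENNReal.ofReal ((1 - θ) * (1 + θ)) * volume (T ⁻¹' s) := by
          rw [← mul_assoc, ENNReal.ofReal_mul (by linarith)]
      _ ≤ 1 * volume (T ⁻¹' s) := by
          gcongr
          exact ENNReal.ofReal_le_one.2 (by nlinarith)
      _ = _ := one_mul _

end Pool.Agent.MP_ecf4b9_an

end MrgPart1

-- ======== part 2: formerly Pool.Agent.MP_ecf4b9_an.Gronwall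
section MrgPart2

/-!
An Osgood lemma for families of functions and a crude Gronwall lemma.
-/

open MeasureTheory Set Filter Topology

namespace Pool.Agent.MP_ecf4b9_an

/-- the Osgood comparison function -/
noncomputable def osg (K η t : ℝ) : ℝ := Real.exp (Real.log η * Real.exp (-(2 * K * t)))

lemma osg_pos (K η t : ℝ) : 0 < osg K η t := Real.exp_pos _

lemma log_osg (K η t : ℝ) : Real.log (osg K η t) = Real.log η * Real.exp (-(2 * K * t)) :=
  Real.log_exp _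

lemma osg_zero (K : ℝ) {η : ℝ} (hη : 0 < η) : osg K η 0 = η := by
  simp [osg, Real.exp_log hη]

lemma hasDerivAt_osg (K η t : ℝ) :
    HasDerivAt (osg K η) (2 * K * (osg K η t * (-Real.log (osg K η t)))) t := by
  have h1 : HasDerivAt (fun t => -(2 * K * t)) (-(2 * K)) t := by
    simpa using ((hasDerivAt_id t).const_mul (2 * K)).fun_neg
  have h2 := ((h1.exp).const_mul (Real.log η)).exp
  rw [log_osg]
  refine h2.congr_deriv ?_
  unfold osg
  ring

lemma continuous_osg (K η : ℝ) : Continuous (osg K η) := by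
  unfold osg; fun_prop

lemma osg_mono {K η : ℝ} (hK : 0 ≤ K) (hη : Real.log η ≤ 0) {s t : ℝ} (hst : s ≤ t) :
    osg K η s ≤ osg K η t := by
  unfold osg
  refine Real.exp_le_exp.2 (mul_le_mul_of_nonpos_left ?_ hη)
  refine Real.exp_le_exp.2 ?_
  nlinarith

lemma osgood {ι : Type*} (F G : ι → ℝ → ℂ) {T K η η₁ η₂ : ℝ} (hK : 0 < K)
    (hb : ∃ B, ∀ i, ∀ t ∈ Icc 0 T, ‖F i t‖ ≤ B)
    (hF : ∀ i, ∀ t ∈ Icc 0 T, ‖F i t - ∫ s in (0 : ℝ)..t, G i s‖ ≤ η₁)
    (hG : ∀ s ∈ Icc 0 T, ∀ σ D, 0 < σ → 1 ≤ -Real.log σ → (∀ j, ‖F j s‖ ≤ D) →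
      ∀ i, ‖G i s‖ ≤ η₂ + K * (σ + D) * (-Real.log σ))
    (hη₂ : 0 ≤ η₂) (hη : η₁ + T * η₂ ≤ η) (hη0 : 0 < η)
    (hsmall : 1 ≤ -Real.log η * Real.exp (-(2 * K * T))) :
    ∀ i, ∀ t ∈ Icc 0 T, ‖F i t‖ ≤ 3 * osg K η t := by
  have hlog : Real.log η ≤ 0 := by
    by_contra h
    have h1 := not_le.1 h
    have h2 := Real.exp_pos (-(2 * K * T))
    nlinarith
  have hσ : ∀ s ∈ Icc (0 : ℝ) T, 1 ≤ -Real.log (osg K η s) := by
    intro s hs
    rw [log_osg]
    refine hsmall.trans ?_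
    have : Real.exp (-(2 * K * T)) ≤ Real.exp (-(2 * K * s)) := by
      refine Real.exp_le_exp.2 ?_
      nlinarith [hs.2]
    nlinarith
  have step : ∀ M : ℝ, 0 ≤ M → (∀ i, ∀ t ∈ Icc (0 : ℝ) T, ‖F i t‖ ≤ M * osg K η t) →
      ∀ i, ∀ t ∈ Icc (0 : ℝ) T, ‖F i t‖ ≤ (1 + (1 + M) / 2) * osg K η t := by
    intro M hM h i t ht
    have hc : Continuous (fun s => 2 * K * (osg K η s * (-Real.log (osg K η s)))) := by
      simp only [log_osg]
      have := continuous_osg K η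
      fun_prop
    have h1 : ‖∫ s in (0 : ℝ)..t, G i s‖ ≤
        ∫ s in (0 : ℝ)..t, (η₂ + (1 + M) / 2 * (2 * K * (osg K η s * (-Real.log (osg K η s))))) := by
      refine intervalIntegral.norm_integral_le_of_norm_le ht.1
        (Eventually.of_forall fun s hs => ?_) ?_
      · have hs' : s ∈ Icc (0 : ℝ) T := ⟨hs.1.le, hs.2.trans ht.2⟩
        refine (hG s hs' (osg K η s) (M * osg K η s) (osg_pos _ _ _) (hσ s hs')
          (fun j => h j s hs') i).trans (le_of_eq ?_)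
        ring
      · exact (continuous_const.add (continuous_const.mul hc)).intervalIntegrable _ _
    have hc2 : Continuous
        (fun s => (1 + M) / 2 * (2 * K * (osg K η s * (-Real.log (osg K η s))))) :=
      continuous_const.mul hc
    rw [intervalIntegral.integral_add (continuous_const.intervalIntegrable _ _)
        (hc2.intervalIntegrable _ _),
      intervalIntegral.integral_const_mul,
      intervalIntegral.integral_eq_sub_of_hasDerivAt (fun s _ => hasDerivAt_osg K η s)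
        (hc.intervalIntegrable _ _), osg_zero K hη0] at h1
    simp only [intervalIntegral.integral_const, sub_zero, smul_eq_mul] at h1
    have h2 := hF i t ht
    have h3 : ‖F i t‖ ≤ ‖F i t - ∫ s in (0 : ℝ)..t, G i s‖ + ‖∫ s in (0 : ℝ)..t, G i s‖ := by
      simpa using norm_add_le (F i t - ∫ s in (0 : ℝ)..t, G i s) (∫ s in (0 : ℝ)..t, G i s)
    have h4 : η ≤ osg K η t := by
      have := osg_mono hK.le hlog ht.1
      rwa [osg_zero K hη0] at this
    have h5 : t * η₂ ≤ T * η₂ := mul_le_mul_of_nonneg_right ht.2 hη₂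
    nlinarith
  obtain ⟨B, hB⟩ := hb
  have iter : ∀ n : ℕ, ∀ i, ∀ t ∈ Icc (0 : ℝ) T,
      ‖F i t‖ ≤ (3 + (|B| / η) * (1 / 2) ^ n) * osg K η t := by
    intro n
    induction n with
    | zero =>
      intro i t ht
      have h4 : η ≤ osg K η t := by
        have := osg_mono hK.le hlog ht.1
        rwa [osg_zero K hη0] at this
      have h5 : |B| / η * η = |B| := by field_simp
      have h6 : |B| / η * η ≤ |B| / η * osg K η t :=
        mul_le_mul_of_nonneg_left h4 (by positivity)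
      have h7 := hB i t ht
      have h8 := le_abs_self B
      have h9 := osg_pos K η t
      simp only [pow_zero, mul_one]
      nlinarith
    | succ n ih =>
      intro i t ht
      refine (step _ (by positivity) ih i t ht).trans (le_of_eq ?_)
      ring
  intro i t ht
  have hlim : Tendsto (fun n : ℕ => (3 + (|B| / η) * (1 / 2 : ℝ) ^ n) * osg K η t) atTop
      (𝓝 ((3 + (|B| / η) * 0) * osg K η t)) :=
    ((tendsto_const_nhds.add ((tendsto_pow_atTop_nhds_zero_of_lt_one (by norm_num)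
      (by norm_num)).const_mul _)).mul_const _)
  have := ge_of_tendsto' hlim (fun n => iter n i t ht)
  simpa using this

/-- qualitative consequence: the Osgood bound tends to zero -/
lemma osg_small {K T ε : ℝ} (hK : 0 < K) (hε : 0 < ε) :
    ∃ η₀ > 0, ∀ η, 0 < η → η ≤ η₀ → 1 ≤ -Real.log η * Real.exp (-(2 * K * T)) ∧
      ∀ t ≤ T, 3 * osg K η t ≤ ε := by
  set c := Real.exp (-(2 * K * T)) with hc
  have hc0 : 0 < c := Real.exp_pos _
  set M := max 1 (-Real.log (ε / 3)) with hM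
  refine ⟨Real.exp (-(M / c)), Real.exp_pos _, fun η h0 h1 => ?_⟩
  have h2 : Real.log η ≤ -(M / c) := by
    have := Real.log_le_log h0 h1
    rwa [Real.log_exp] at this
  have h3 : M ≤ -Real.log η * c := by
    have : M / c ≤ -Real.log η := by linarith
    rwa [div_le_iff₀ hc0] at this
  have hM1 : 1 ≤ M := le_max_left _ _
  have hM2 : -Real.log (ε / 3) ≤ M := le_max_right _ _
  refine ⟨hM1.trans h3, fun t ht => ?_⟩
  have hlog : Real.log η ≤ 0 := by
    have : 0 ≤ M / c := by positivity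
    linarith
  have h4 : osg K η t ≤ osg K η T := osg_mono hK.le hlog ht
  have h5 : osg K η T ≤ ε / 3 := by
    unfold osg
    rw [← hc, ← Real.exp_log (by positivity : 0 < ε / 3)]
    refine Real.exp_le_exp.2 ?_
    linarith
  linarith

/-- crude Gronwall lemma on an interval of length at most one -/
lemma gron {f f' : ℝ → ℂ} {T L ε : ℝ} (hT : T ≤ 1) (hL : 0 ≤ L)
    (hc : ContinuousOn f (Icc 0 T)) (hd : ∀ t ∈ Ico 0 T, HasDerivWithinAt f (f' t) (Ici t) t)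
    (h0 : ‖f 0‖ ≤ ε) (hb : ∀ t ∈ Ico 0 T, ‖f' t‖ ≤ L * ‖f t‖ + ε) :
    ∀ t ∈ Icc 0 T, ‖f t‖ ≤ 2 * Real.exp L * ε := by
  intro t ht
  have hε : 0 ≤ ε := (norm_nonneg _).trans h0
  refine (norm_le_gronwallBound_of_norm_deriv_right_le hc hd h0 hb t ht).trans ?_
  have ht1 : t ≤ 1 := ht.2.trans hT
  rw [sub_zero]
  have he : 1 ≤ Real.exp L := Real.one_le_exp hL
  rcases hL.eq_or_lt with h | h
  · subst h
    rw [gronwallBound_K0]
    simp only [Real.exp_zero]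
    nlinarith [ht.1]
  · rw [gronwallBound_of_K_ne_0 h.ne']
    have h1 : Real.exp (L * t) ≤ Real.exp L := Real.exp_le_exp.2 (by nlinarith)
    have h2 : Real.exp L - 1 ≤ L * Real.exp L := by
      have h3 := Real.add_one_le_exp (-L)
      have h4 : Real.exp (-L) * Real.exp L = 1 := by rw [← Real.exp_add]; simp
      have h5 := Real.exp_pos L
      nlinarith
    have h6 : ε / L * (Real.exp (L * t) - 1) ≤ ε * Real.exp L := by
      have : ε / L * (Real.exp (L * t) - 1) ≤ ε / L * (L * Real.exp L) :=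
        mul_le_mul_of_nonneg_left (by linarith) (by positivity)
      refine this.trans (le_of_eq ?_)
      field_simp
    have h7 : ε * Real.exp (L * t) ≤ ε * Real.exp L := mul_le_mul_of_nonneg_left h1 hε
    show ε * Real.exp (L * t) + ε / L * (Real.exp (L * t) - 1) ≤ _
    linarith

end Pool.Agent.MP_ecf4b9_an

end MrgPart2

-- ======== part 3: formerly Pool.Agent.MP_ecf4b9_an.Scheme
section MrgPart3

/-!
Approximate flows by the explicit Euler scheme for the regularised kernel.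
-/

open MeasureTheory Set Complex Filter Topology
open scoped ComplexConjugate

namespace Pool.Agent.MP_ecf4b9_an

/-- the explicit Euler scheme -/
noncomputable def sch (ε h : ℝ) (ω : ℂ → ℝ) : ℕ → ℂ → ℂ
  | 0 => fun a => a
  | j + 1 => fun a => sch ε h ω j a + h • Vr ε ω (sch ε h ω j) (sch ε h ω j a)

lemma sch_near {ε h m : ℝ} {ω : ℂ → ℝ} (hε : 0 < ε) (hω : Dat 1 m ω) (hh : 0 ≤ h)
    (hL : h * (m * (3 * (ε ^ 2)⁻¹)) ≤ 1 / 2) (j : ℕ) :
    Near (j * (2 * (h * (m * (3 * (ε ^ 2)⁻¹))) ^ 2)) (sch ε h ω j) := by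
  induction j with
  | zero => exact Near.id.mono (by simp)
  | succ j ih =>
    have h1 := euler_step hh hL (hasFDerivAt_Vr hε hω ih.cont.measurable)
    have h2 := ih.comp h1 (by positivity) (by positivity)
    refine Near.mono h2 (le_of_eq ?_)
    push_cast
    ring

lemma ii_of_bdd {f : ℝ → ℂ} (hf : Measurable f) {a b C : ℝ} (h : ∀ s ∈ uIoc a b, ‖f s‖ ≤ C) :
    IntervalIntegrable f volume a b := by
  rw [intervalIntegrable_iff]
  refine Measure.integrableOn_of_bounded (by simp [uIoc]) hf.aestronglyMeasurable (M := C) ?_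
  exact (ae_restrict_iff' measurableSet_uIoc).2 (Eventually.of_forall h)

lemma integral_step {φ : ℕ → ℂ} {h C : ℝ} (hh : 0 < h) (hφ : ∀ j, ‖φ j‖ ≤ C) (j : ℕ) :
    ∫ s in (0 : ℝ)..(j * h), φ ⌊s / h⌋₊ = ∑ i ∈ Finset.range j, h • φ i := by
  have hm : Measurable (fun s : ℝ => φ ⌊s / h⌋₊) :=
    (measurable_from_nat (f := φ)).comp (measurable_id.div_const h).nat_floor
  induction j with
  | zero => simp
  | succ j ih =>
    rw [Finset.sum_range_succ, ← ih, ← intervalIntegral.integral_add_adjacent_intervals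
      (b := j * h) (ii_of_bdd hm fun s _ => hφ _) (ii_of_bdd hm fun s _ => hφ _)]
    congr 1
    have hle : (j : ℝ) * h ≤ ((j + 1 : ℕ) : ℝ) * h := by push_cast; nlinarith
    rw [intervalIntegral.integral_congr_Ioo_of_le (g := fun _ => φ j) hle]
    · rw [intervalIntegral.integral_const]
      congr 1
      push_cast
      ring
    · intro s hs
      have : ⌊s / h⌋₊ = j := by
        have h0 : 0 ≤ s / h := div_nonneg (le_trans (by positivity) hs.1.le) hh.le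
        rw [Nat.floor_eq_iff h0, le_div_iff₀ hh, div_lt_iff₀ hh]
        refine ⟨hs.1.le, ?_⟩
        have := hs.2
        push_cast at this
        exact this
      simp only [this]

lemma sch_eq (ε h : ℝ) (ω : ℂ → ℝ) (a : ℂ) (j : ℕ) :
    sch ε h ω j a = a + ∑ i ∈ Finset.range j, h • Vr ε ω (sch ε h ω i) (sch ε h ω i a) := by
  induction j with
  | zero => simp [sch]
  | succ j ih => rw [Finset.sum_range_succ, ← add_assoc, ← ih]; rfl

/-- approximate flows on `[0, T]` -/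
structure Approx (ω : ℂ → ℝ) (T η : ℝ) (Y : ℝ → ℂ → ℂ) : Prop where
  near : ∀ t ∈ Icc 0 T, Near η (Y t)
  int : ∀ a, IntervalIntegrable (fun s => V ω (Y s) (Y s a)) volume 0 T
  eq : ∀ a, ∀ t ∈ Icc 0 T, ‖Y t a - a - ∫ s in (0 : ℝ)..t, V ω (Y s) (Y s a)‖ ≤ η

lemma ii_sub {f : ℝ → ℂ} {T s t : ℝ} (h : IntervalIntegrable f volume 0 T) (hs : s ∈ Icc 0 T)
    (ht : t ∈ Icc 0 T) : IntervalIntegrable f volume s t :=
  h.mono_set (uIcc_subset_uIcc (Icc_subset_uIcc hs) (Icc_subset_uIcc ht))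

lemma Approx.mono {ω : ℂ → ℝ} {T T' η η' : ℝ} {Y : ℝ → ℂ → ℂ} (h : Approx ω T η Y) (h0 : 0 ≤ T')
    (hT : T' ≤ T) (hη : η ≤ η') : Approx ω T' η' Y :=
  ⟨fun t ht => (h.near t ⟨ht.1, ht.2.trans hT⟩).mono hη,
    fun a => ii_sub (h.int a) ⟨le_rfl, h0.trans hT⟩ ⟨h0, hT⟩,
    fun a t ht => (h.eq a t ⟨ht.1, ht.2.trans hT⟩).trans hη⟩

lemma exists_approx {m T η : ℝ} {ω : ℂ → ℝ} (hω : Dat 1 m ω) (hT : 0 ≤ T) (hη : 0 < η)
    (hη1 : η ≤ 1 / 2) : ∃ Y, Approx ω T η Y := by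
  have hm := hω.m_nonneg
  set σ := η / (2 * (13 + m) * (T + 1)) with hσ
  have hσ0 : 0 < σ := by positivity
  have hσ1 : (13 + m) * σ * T ≤ η / 2 := by
    have : (13 + m) * σ * (T + 1) = η / 2 := by rw [hσ]; field_simp
    have h2 : 0 ≤ (13 + m) * σ := by positivity
    nlinarith
  set ε := σ ^ 2 with hε
  have hε0 : 0 < ε := by positivity
  set L := m * (3 * (ε ^ 2)⁻¹) with hL
  have hL0 : 0 ≤ L := by positivity
  set S := 1 + L + 2 * T * L ^ 2 + m * ε⁻¹ with hS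
  have e1 : 0 ≤ 2 * T * L ^ 2 := by positivity
  have e2 : 0 ≤ m * ε⁻¹ := by positivity
  have hS0 : 0 < S := by positivity
  set h := η / (2 * S) with hh
  have hh0 : 0 < h := by positivity
  have hhS : h * S = η / 2 := by rw [hh]; field_simp
  have f1 : h * L ≤ 1 / 2 := by
    have : h * L ≤ h * S := mul_le_mul_of_nonneg_left (by linarith) hh0.le
    linarith
  have f2 : h * (2 * T * L ^ 2) ≤ η / 2 := by
    have : h * (2 * T * L ^ 2) ≤ h * S := mul_le_mul_of_nonneg_left (by linarith) hh0.le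
    linarith
  have f3 : h * (m * ε⁻¹) ≤ η / 2 := by
    have : h * (m * ε⁻¹) ≤ h * S := mul_le_mul_of_nonneg_left (by linarith) hh0.le
    linarith
  have hfl : ∀ t, 0 ≤ t → (⌊t / h⌋₊ : ℝ) * h ≤ t ∧ t ≤ (⌊t / h⌋₊ : ℝ) * h + h := fun t ht => by
    constructor
    · rw [← le_div_iff₀ hh0]; exact Nat.floor_le (by positivity)
    · have := (Nat.lt_floor_add_one (t / h)).le
      rw [div_le_iff₀ hh0] at this
      linarith
  have hnear : ∀ t ∈ Icc 0 T, Near η (sch ε h ω ⌊t / h⌋₊) := fun t ht => by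
    refine (sch_near hε0 hω hh0.le f1 _).mono ?_
    have h1 := (hfl t ht.1).1.trans ht.2
    have h2 : (⌊t / h⌋₊ : ℝ) * h * (2 * h * L ^ 2) ≤ T * (2 * h * L ^ 2) :=
      mul_le_mul_of_nonneg_right h1 (by positivity)
    rw [← hL]
    nlinarith
  have hint : ∀ a, IntervalIntegrable
      (fun s => V ω (sch ε h ω ⌊s / h⌋₊) (sch ε h ω ⌊s / h⌋₊ a)) volume 0 T := fun a => by
    refine ii_of_bdd ((measurable_from_nat (f := fun j => V ω (sch ε h ω j) (sch ε h ω j a))).comp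
      (measurable_id.div_const h).nat_floor) (C := 13 + m) fun s hs => ?_
    rw [uIoc_of_le hT] at hs
    exact norm_V_le hω ((hnear s ⟨hs.1.le, hs.2⟩).incomp hη1) _
  refine ⟨fun t => sch ε h ω ⌊t / h⌋₊, hnear, hint, fun a t ht => ?_⟩
  set φ : ℕ → ℂ := fun j => Vr ε ω (sch ε h ω j) (sch ε h ω j a) with hφ
  have hφb : ∀ j, ‖φ j‖ ≤ m * ε⁻¹ := fun j => norm_Vr_le hε0 _ hω _
  have hφm : Measurable (fun s : ℝ => φ ⌊s / h⌋₊) :=
    (measurable_from_nat (f := φ)).comp (measurable_id.div_const h).nat_floor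
  have hφi : ∀ a b, IntervalIntegrable (fun s : ℝ => φ ⌊s / h⌋₊) volume a b := fun a b =>
    ii_of_bdd hφm fun s _ => hφb _
  have h1 : sch ε h ω ⌊t / h⌋₊ a - a = ∫ s in (0 : ℝ)..(⌊t / h⌋₊ * h), φ ⌊s / h⌋₊ := by
    rw [integral_step hh0 hφb, sch_eq]; simp [hφ]
  have h2 : ‖∫ s in (⌊t / h⌋₊ * h : ℝ)..t, φ ⌊s / h⌋₊‖ ≤ η / 2 := by
    refine (intervalIntegral.norm_integral_le_of_norm_le_const (C := m * ε⁻¹)
      fun s _ => hφb _).trans ?_
    have := hfl t ht.1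
    rw [abs_of_nonneg (by linarith)]
    have h3 : m * ε⁻¹ * (t - ⌊t / h⌋₊ * h) ≤ m * ε⁻¹ * h :=
      mul_le_mul_of_nonneg_left (by linarith) e2
    linarith
  have h3 : ‖(∫ s in (0 : ℝ)..t, φ ⌊s / h⌋₊) -
      ∫ s in (0 : ℝ)..t, V ω (sch ε h ω ⌊s / h⌋₊) (sch ε h ω ⌊s / h⌋₊ a)‖ ≤ η / 2 := by
    rw [← intervalIntegral.integral_sub (hφi _ _) (ii_sub (hint a) ⟨le_rfl, hT⟩ ht)]
    refine (intervalIntegral.norm_integral_le_of_norm_le_const (C := (13 + m) * σ)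
      fun s hs => ?_).trans ?_
    · rw [uIoc_of_le ht.1] at hs
      exact Vr_sub_V hσ0 hω ((hnear s ⟨hs.1.le, hs.2.trans ht.2⟩).incomp hη1) _
    · rw [sub_zero, abs_of_nonneg ht.1]
      have : (13 + m) * σ * t ≤ (13 + m) * σ * T := mul_le_mul_of_nonneg_left ht.2 (by positivity)
      linarith
  have h4 := intervalIntegral.integral_add_adjacent_intervals (hφi 0 (⌊t / h⌋₊ * h))
    (hφi (⌊t / h⌋₊ * h) t)
  show ‖sch ε h ω ⌊t / h⌋₊ a - a -
    ∫ s in (0 : ℝ)..t, V ω (sch ε h ω ⌊s / h⌋₊) (sch ε h ω ⌊s / h⌋₊ a)‖ ≤ η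
  rw [h1]
  have h5 : (∫ s in (0 : ℝ)..(⌊t / h⌋₊ * h), φ ⌊s / h⌋₊) -
      ∫ s in (0 : ℝ)..t, V ω (sch ε h ω ⌊s / h⌋₊) (sch ε h ω ⌊s / h⌋₊ a) =
      ((∫ s in (0 : ℝ)..t, φ ⌊s / h⌋₊) -
      ∫ s in (0 : ℝ)..t, V ω (sch ε h ω ⌊s / h⌋₊) (sch ε h ω ⌊s / h⌋₊ a)) -
      ∫ s in (⌊t / h⌋₊ * h : ℝ)..t, φ ⌊s / h⌋₊ := by
    rw [← h4]; ring
  rw [h5]
  refine (norm_sub_le _ _).trans ?_
  linarith

lemma KK_pos {m : ℝ} (hm : 0 ≤ m) : 0 < KK m := by unfold KK; positivity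

lemma Approx.lip {m T η : ℝ} {ω : ℂ → ℝ} {Y : ℝ → ℂ → ℂ} (hω : Dat 1 m ω) (h : Approx ω T η Y)
    (hη1 : η ≤ 1 / 2) (a : ℂ) {s t : ℝ} (hs : s ∈ Icc 0 T) (ht : t ∈ Icc 0 T) :
    ‖Y t a - Y s a‖ ≤ 2 * η + (13 + m) * |t - s| := by
  have hT : 0 ≤ T := hs.1.trans hs.2
  have h1 := h.eq a t ht
  have h2 := h.eq a s hs
  have h3 : ‖∫ r in s..t, V ω (Y r) (Y r a)‖ ≤ (13 + m) * |t - s| := by
    refine intervalIntegral.norm_integral_le_of_norm_le_const fun r hr => ?_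
    have : r ∈ Icc 0 T := by
      have h4 := uIcc_subset_uIcc (Icc_subset_uIcc hs) (Icc_subset_uIcc ht) (uIoc_subset_uIcc hr)
      rwa [uIcc_of_le hT] at h4
    exact norm_V_le hω ((h.near r this).incomp hη1) _
  have h4 := intervalIntegral.integral_add_adjacent_intervals
    (ii_sub (h.int a) ⟨le_rfl, hT⟩ hs) (ii_sub (h.int a) hs ht)
  have h5 : Y t a - Y s a = (Y t a - a - ∫ s in (0 : ℝ)..t, V ω (Y s) (Y s a)) -
      (Y s a - a - ∫ s in (0 : ℝ)..s, V ω (Y s) (Y s a)) + ∫ r in s..t, V ω (Y r) (Y r a) := by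
    rw [← h4]; ring
  rw [h5]
  refine (norm_add_le _ _).trans ?_
  have := norm_sub_le (Y t a - a - ∫ s in (0 : ℝ)..t, V ω (Y s) (Y s a))
    (Y s a - a - ∫ s in (0 : ℝ)..s, V ω (Y s) (Y s a))
  linarith

lemma Approx.bdd {m T η : ℝ} {ω : ℂ → ℝ} {Y : ℝ → ℂ → ℂ} (hω : Dat 1 m ω) (h : Approx ω T η Y)
    (hη1 : η ≤ 1 / 2) (a : ℂ) {t : ℝ} (ht : t ∈ Icc 0 T) :
    ‖Y t a - a‖ ≤ 3 * η + (13 + m) * T := by
  have hT : 0 ≤ T := ht.1.trans ht.2
  have h1 := h.lip hω hη1 a ⟨le_rfl, hT⟩ ht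
  have h2 := h.eq a 0 ⟨le_rfl, hT⟩
  simp only [intervalIntegral.integral_same, sub_zero] at h1 h2
  rw [abs_of_nonneg ht.1] at h1
  have h3 : (13 + m) * t ≤ (13 + m) * T :=
    mul_le_mul_of_nonneg_left ht.2 (by have := hω.m_nonneg; positivity)
  have h4 := norm_sub_le_norm_sub_add_norm_sub (Y t a) (Y 0 a) a
  linarith

lemma Approx.close {m T η : ℝ} {ω : ℂ → ℝ} {Y Y' : ℝ → ℂ → ℂ} (hω : Dat 1 m ω)
    (h : Approx ω T η Y) (h' : Approx ω T η Y') (hη : 0 < η) (hη1 : η ≤ 1 / 2)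
    (hsmall : 1 ≤ -Real.log (2 * η) * Real.exp (-(2 * KK m * T))) (a : ℂ) :
    ∀ t ∈ Icc 0 T, ‖Y t a - Y' t a‖ ≤ 3 * osg (KK m) (2 * η) t := by
  refine osgood (fun a t => Y t a - Y' t a)
    (fun a s => V ω (Y s) (Y s a) - V ω (Y' s) (Y' s a)) (η₁ := 2 * η) (η₂ := 0)
    (KK_pos hω.m_nonneg) ⟨2 * (3 * η + (13 + m) * T), fun a t ht => ?_⟩ (fun a t ht => ?_)
    (fun s hs σ D hσ hσ1 hD a => ?_) le_rfl (by simp) (by positivity) hsmall a
  · have h1 := h.bdd hω hη1 a ht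
    have h2 := h'.bdd hω hη1 a ht
    have h3 := norm_sub_le (Y t a - a) (Y' t a - a)
    rw [sub_sub_sub_cancel_right] at h3
    linarith
  · have hT : 0 ≤ T := ht.1.trans ht.2
    rw [intervalIntegral.integral_sub (ii_sub (h.int a) ⟨le_rfl, hT⟩ ht)
      (ii_sub (h'.int a) ⟨le_rfl, hT⟩ ht)]
    have h1 := h.eq a t ht
    have h2 := h'.eq a t ht
    have h3 := norm_sub_le (Y t a - a - ∫ s in (0 : ℝ)..t, V ω (Y s) (Y s a))
      (Y' t a - a - ∫ s in (0 : ℝ)..t, V ω (Y' s) (Y' s a))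
    have h4 : Y t a - a - (∫ s in (0 : ℝ)..t, V ω (Y s) (Y s a)) -
      (Y' t a - a - ∫ s in (0 : ℝ)..t, V ω (Y' s) (Y' s a)) = Y t a - Y' t a -
      ((∫ s in (0 : ℝ)..t, V ω (Y s) (Y s a)) - ∫ s in (0 : ℝ)..t, V ω (Y' s) (Y' s a)) := by ring
    rw [h4] at h3
    linarith
  · rw [zero_add]
    exact V_sub_V_le hω ((h.near s hs).incomp hη1) ((h'.near s hs).incomp hη1) hσ hσ1 (hD a)
      fun b _ => hD b

lemma mp_of_near {X : ℂ → ℂ} (hX : Continuous X)
    (h : ∀ η > 0, ∃ Y, Near η Y ∧ ∀ a, ‖Y a - X a‖ ≤ η) : MeasurePreserving X volume volume := by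
  have aux : ∀ (r : ℝ) (a b : ENNReal), 0 < r →
      (∀ η, 0 < η → η ≤ r → ENNReal.ofReal (1 - η) * a ≤ b) → a ≤ b := by
    intro r a b hr hab
    refine ENNReal.le_of_forall_lt_one_mul_le fun c hc => ?_
    have hc1 : c.toReal < 1 := by
      have := (ENNReal.toReal_lt_toReal hc.ne_top ENNReal.one_ne_top).2 hc
      simpa using this
    refine le_trans ?_ (hab (min r (1 - c.toReal)) (lt_min hr (by linarith)) (min_le_left _ _))
    gcongr
    rw [← ENNReal.ofReal_toReal hc.ne_top]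
    refine ENNReal.ofReal_le_ofReal ?_
    rw [ENNReal.toReal_ofReal ENNReal.toReal_nonneg]
    have := min_le_right r (1 - c.toReal)
    linarith
  have h1 : ∀ K, IsCompact K → Measure.map X volume K ≤ volume K := by
    intro K hK
    rw [Measure.map_apply hX.measurable hK.measurableSet]
    refine ge_of_tendsto ((tendsto_measure_cthickening_of_isCompact (μ := volume) hK).mono_left
      (nhdsWithin_le_nhds (s := Ioi 0))) (eventually_nhdsWithin_of_forall fun r hr => ?_)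
    refine aux r _ _ hr fun η h0 h1 => ?_
    obtain ⟨Y, hY, hYX⟩ := h η h0
    refine le_trans ?_ (hY.le₁ _ Metric.isClosed_cthickening.measurableSet)
    gcongr
    intro a ha
    exact Metric.mem_cthickening_of_dist_le (Y a) (X a) r K ha
      (by rw [dist_eq_norm]; exact (hYX a).trans h1)
  have : IsFiniteMeasureOnCompacts (Measure.map X (volume : Measure ℂ)) :=
    ⟨fun K hK => (h1 K hK).trans_lt hK.measure_lt_top⟩
  have h2 : ∀ K, IsCompact K → volume K ≤ Measure.map X volume K := by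
    intro K hK
    refine ge_of_tendsto ((tendsto_measure_cthickening_of_isCompact
      (μ := Measure.map X volume) hK).mono_left
      (nhdsWithin_le_nhds (s := Ioi 0))) (eventually_nhdsWithin_of_forall fun r hr => ?_)
    refine aux r _ _ hr fun η h0 h1 => ?_
    obtain ⟨Y, hY, hYX⟩ := h η h0
    refine le_trans (hY.le₂ _ hK.measurableSet) ?_
    rw [Measure.map_apply hX.measurable Metric.isClosed_cthickening.measurableSet]
    gcongr
    intro a ha
    exact Metric.mem_cthickening_of_dist_le (X a) (Y a) r K ha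
      (by rw [dist_eq_norm, norm_sub_rev]; exact (hYX a).trans h1)
  refine ⟨hX.measurable, ?_⟩
  have : Measure.InnerRegular (Measure.map X (volume : Measure ℂ)) :=
    Measure.InnerRegular.map_of_continuous hX
  ext s hs
  exact Measure.InnerRegularWRT.eq_of_innerRegularWRT_of_forall_eq
    Measure.InnerRegular.innerRegular Measure.InnerRegular.innerRegular
    (fun K hK => le_antisymm (h1 K hK) (h2 K hK)) hs

end Pool.Agent.MP_ecf4b9_an

end MrgPart3

-- marker of a merged file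
example : 731051 + 188179 = 731051 + 188179 := rfl
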